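import Pool.Agent.TH710.ND.CoreU

/-!
Sections of the log canonical bundle from families of circuits and units.
-/

set_option autoImplicit false

open FF IntermediateField Pool.Agent.W603.LV Pool.Agent.W602.GT Pool.Agent.W603.GX
  Pool.Agent.W603.GY

namespace Pool.Agent.TH710.ND

variable {k K : Type} [Field k] [Field K] [Algebra k K]

/-- **Sections.** -/
theorem kod_fam [IsAlgClosed k] [CharZero k] {w : ℕ} (htr : Algebra.trdeg k K = w)
    (G : CFam k K → Prop) {Bd : Place k K → Prop} {N s c : ℕ} (hG : ∀ A, G A → A.Ok Bd N s c)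
    (hN : w * (c * ((s + 1) * tn (s - 1))) + 1 ≤ N)
    (Su : Set K) (hSu : ∀ u ∈ Su, u ≠ 0) (hunit : ∀ P : Place k K, ¬ Bd P → ∀ u ∈ Su, P.ord u = 0)
    (hker : ∀ D : Derivation k K K, (∀ A, G A → ∀ i a b, D (A.T i a / A.T i b) = 0) →
      (∀ u ∈ Su, D u = 0) → D = 0) :
    ∃ (h p : ℕ) (t : Fin h → K) (u : Fin p → K), h + p = w ∧
      IsTranscendenceBasis k (Sum.elim t u) ∧ (∀ i, u i ∈ Su) ∧
      (∀ D : Derivation k K K, (∀ i, D (t i) = 0) →
        ∀ A, G A → ∀ i a b, D (A.T i a / A.T i b) = 0) ∧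
      (∀ D : Derivation k K K, (∀ A, G A → ∀ i a b, D (A.T i a / A.T i b) = 0) →
        ∀ i, D (t i) = 0) ∧
      KodGe k K w Bd h ∧
      (∀ (h' : ℕ) (a : Fin h' → K), AlgebraicIndependent k a →
        (∀ i, (∃ l, a i = t l) ∨ ∃ (q : Fin p) (u' : K), u' ∈ Su ∧
          ∀ E : Derivation k K K, (∀ i, E (t i) = 0) → (∀ q', q' ≠ q → E (u q') = 0) →
            E u' / u' = a i * (E (u q) / u q)) → KodGe k K w Bd h') := by
  classical
  let S1 : Set K := {x | ∃ A : CFam k K, G A ∧ ∃ i a b, x = A.T i a / A.T i b}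
  have hS1 : ∀ D : Derivation k K K, (∀ z ∈ S1, D z = 0) →
      ∀ A, G A → ∀ i a b, D (A.T i a / A.T i b) = 0 :=
    fun D hD A hA i a b => hD _ ⟨A, hA, i, a, b, rfl⟩
  have hS1' : ∀ D : Derivation k K K, (∀ A, G A → ∀ i a b, D (A.T i a / A.T i b) = 0) →
      ∀ z ∈ S1, D z = 0 := by
    rintro D hD z ⟨A, hA, i, a, b, rfl⟩
    exact hD A hA i a b
  obtain ⟨h, p, t, u, rfl, ht, hu, hbasis, hkill⟩ := basis_pick htr S1 (S1 ∪ Su)
    (alg_of_ker htr _ fun D hD => hker D (hS1 D fun z hz => hD z (Or.inl hz))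
      fun z hz => hD z (Or.inr hz))
  have huS : ∀ l, u l ∈ Su := by
    intro l
    rcases hu l with h1 | h1
    · exfalso
      obtain ⟨D, hD⟩ := exists_der (Sum.elim t u) hbasis (Sum.elim (fun _ => 0) (fun _ => 1))
      have h2 := hkill D (fun i => hD (Sum.inl i)) _ h1
      have h3 := hD (Sum.inr l)
      simp only [Sum.elim_inr] at h3
      rw [h2] at h3
      exact zero_ne_one h3
    · exact h1
  have htS := ht
  choose A hA i a b hab using ht
  let F : CFam k K := CFam.sigma A
  have hF : F.Ok Bd N s (∑ _j : Fin h, c) := CFam.sigma_ok fun j => hG _ (hA j)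
  let _ : Fintype F.I := F.fin
  let y0 : F.I → K := fun x => if x.2 = i x.1 then (A x.1).T (i x.1) (b x.1) else F.T x 0
  let y1 : Fin h → F.I → K := fun q x => if x.1 = q ∧ x.2 = i x.1 then
    (A x.1).T (i x.1) (a x.1) else y0 x
  have hy0 : ∀ x, ∃ j, y0 x = F.T x j := by
    rintro ⟨j, x⟩
    by_cases hx : x = i j
    · subst hx
      refine ⟨b j, ?_⟩
      simp only [y0, if_true]
      rfl
    · exact ⟨0, by simp only [y0]; rw [if_neg hx]⟩
  have hy1 : ∀ q x, ∃ j, y1 q x = F.T x j := by
    rintro q ⟨j, x⟩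
    by_cases hx : j = q ∧ x = i j
    · obtain ⟨rfl, rfl⟩ := hx
      refine ⟨a j, ?_⟩
      simp only [y1, and_self, if_true]
      rfl
    · obtain ⟨l, hl⟩ := hy0 ⟨j, x⟩
      refine ⟨l, ?_⟩
      rw [← hl]
      simp only [y1]
      rw [if_neg hx]
  have hy0n : ∀ x, y0 x ≠ 0 := fun x => by
    obtain ⟨j, hj⟩ := hy0 x
    rw [hj]
    exact F.ne x j
  have hwt : wtI F.m + 1 ≤ N := by
    refine le_trans (Nat.succ_le_succ ?_) hN
    unfold wtI
    calc ∑ x, (F.m x + 2) * tn (F.m x) ≤ ∑ _x : F.I, (s + 1) * tn (s - 1) := by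
          refine Finset.sum_le_sum fun x _ => ?_
          have h3 := hF.sz x
          exact Nat.mul_le_mul (by omega) (tn_mono (by omega))
      _ = Fintype.card F.I * ((s + 1) * tn (s - 1)) := by simp
      _ ≤ (h * c) * ((s + 1) * tn (s - 1)) := by
          refine Nat.mul_le_mul_right _ ?_
          have h3 := hF.card
          simpa using h3
      _ ≤ ((h + p) * c) * ((s + 1) * tn (s - 1)) :=
          Nat.mul_le_mul_right _ (Nat.mul_le_mul_right _ (by omega))
      _ = (h + p) * (c * ((s + 1) * tn (s - 1))) := by ring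
  let x : Fin (h + p) → K := Sum.elim t u ∘ finSumFinEquiv.symm
  have hx : IsTranscendenceBasis k x := hbasis.comp_equiv finSumFinEquiv.symm
  have hx0 : ∀ q, x q ≠ 0 := by
    intro q
    simp only [x, Function.comp_apply]
    rcases finSumFinEquiv.symm q with l | l
    · simp only [Sum.elim_inl]
      rw [hab]
      exact div_ne_zero ((A l).ne _ _) ((A l).ne _ _)
    · exact hSu _ (huS l)
  have hunitx : ∀ P : Place k K, ¬ Bd P → F.Const P → ∀ q, P.ord (x q) = 0 := by
    intro P hPU hall q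
    simp only [x, Function.comp_apply]
    rcases finSumFinEquiv.symm q with l | l
    · simp only [Sum.elim_inl]
      rw [hab, P.ord_div ((A l).ne _ _) ((A l).ne _ _),
        CFam.sigma_const.1 hall l (i l) (a l) (b l), sub_self]
    · exact hunit P hPU _ (huS l)
  have hprod : ∀ q : Fin h, ∏ z, y1 q z = (∏ z, y0 z) * t q := by
    intro q
    let z1 : F.I := ⟨q, i q⟩
    have hz : y1 q z1 = (A q).T (i q) (a q) := by simp [y1, z1]
    have hz0 : y0 z1 = (A q).T (i q) (b q) := by simp [y0, z1]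
    have h5 := (A q).ne (i q) (b q)
    have e1 := Finset.mul_prod_erase (Finset.univ : Finset F.I) (y1 q) (Finset.mem_univ z1)
    have e2 := Finset.mul_prod_erase (Finset.univ : Finset F.I) y0 (Finset.mem_univ z1)
    have h4 : ∏ z ∈ (Finset.univ : Finset F.I).erase z1, y1 q z =
        ∏ z ∈ (Finset.univ : Finset F.I).erase z1, y0 z := by
      refine Finset.prod_congr rfl fun z hz => ?_
      have hne := Finset.ne_of_mem_erase hz
      simp only [y1]
      rw [if_neg]
      rintro ⟨h6, h7⟩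
      obtain ⟨j, z⟩ := z
      simp only at h6
      subst h6
      simp only at h7
      subst h7
      exact hne rfl
    rw [← e1, ← e2, hz, hz0, hab q, h4]
    field_simp
  have hpr0 : ∏ z, y0 z ≠ 0 := Finset.prod_ne_zero_iff.2 fun z _ => hy0n z
  obtain ⟨D, hD⟩ := exists_dual hx
  have hf : ∀ N c, form x N c D = c := fun N c => by
    unfold form
    rw [hD, Matrix.det_one, one_pow, mul_one]
  obtain ⟨Gf, hG0, hGc, hP⟩ := coreU F.T F.ne F.sum F.lin x hx0 hx
  have hdich : ∀ P : Place k K, ¬ Bd P → F.Const P ∨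
      ∃ i j l, ((wtI F.m + 1 : ℕ) : ℤ) ≤ |P.ord (F.T i j) - P.ord (F.T i l)| := by
    intro P hP
    rcases hF.dich P hP with h1 | ⟨i, j, l, h1⟩
    · exact Or.inl h1
    · exact Or.inr ⟨i, j, l, le_trans (by exact_mod_cast hwt) h1⟩
  -- the sections
  have hsect : ∀ (x' : Fin (h + p) → K) (ρ : K), (∀ q, x' q ≠ 0) →
      (∀ D : Fin (h + p) → Derivation k K K, (lmat x' D).det = ρ * (lmat x D).det) →
      (∀ P : Place k K, ¬ Bd P → F.Const P → ∀ q, P.ord (x' q) = 0) →
      ∀ v : F.I → K, (∀ i, ∃ j, v i = F.T i j) →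
        LogSec k K (h + p) (wtI F.m + 1) Bd (form x (wtI F.m + 1) (ρ * Gf v)) := by
    intro x' ρ h1 h2 h3 v hv
    refine ⟨form_pluri _ _ _, fun P _ => (hP x' ρ h1 h2 P v hv).1, fun P _ hPU =>
      (hP x' ρ h1 h2 P v hv).2 ?_⟩
    rcases hdich P hPU with h4 | h4
    · exact Or.inl ⟨h4, hunitx P hPU h4, h3 P hPU h4⟩
    · exact Or.inr h4
  have hmore : ∀ (h' : ℕ) (a : Fin h' → K), AlgebraicIndependent k a →
        (∀ i, (∃ l, a i = t l) ∨ ∃ (q : Fin p) (u' : K), u' ∈ Su ∧
          ∀ E : Derivation k K K, (∀ i, E (t i) = 0) → (∀ q', q' ≠ q → E (u q') = 0) →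
            E u' / u' = a i * (E (u q) / u q)) → KodGe k K (h + p) Bd h' := by
    intro h' b hb hb'
    have hsec : ∀ i, ∃ γ : K, LogSec k K (h + p) (wtI F.m + 1) Bd (form x (wtI F.m + 1) γ) ∧
        γ = b i * Gf y0 := by
      intro i
      rcases hb' i with ⟨l, hl⟩ | ⟨q, u', hu', hE⟩
      · refine ⟨1 * Gf (y1 l), hsect x 1 hx0 (fun D => by rw [one_mul]) hunitx _ (hy1 l), ?_⟩
        have h2 := hGc (y1 l) y0
        rw [hprod l] at h2
        rw [hl, one_mul]
        apply mul_right_cancel₀ hpr0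
        rw [h2]
        ring
      · have hx0' : ∀ q', Function.update x (finSumFinEquiv (Sum.inr q)) u' q' ≠ 0 := by
          intro q'
          by_cases hq' : q' = finSumFinEquiv (Sum.inr q)
          · rw [hq', Function.update_self]
            exact hSu _ hu'
          · rw [Function.update_of_ne hq']
            exact hx0 q'
        have hxi : x (finSumFinEquiv (Sum.inr q)) = u q := by
          simp only [x, Function.comp_apply, Equiv.symm_apply_apply, Sum.elim_inr]
        refine ⟨b i * Gf y0, hsect (Function.update x (finSumFinEquiv (Sum.inr q)) u') (b i) hx0'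
          (lmat_update hx0 hx (finSumFinEquiv (Sum.inr q)) (b i) fun E hE' => by
            rw [hxi]
            refine hE E (fun l => ?_) fun q' hq' => ?_
            · have h2 := hE' (finSumFinEquiv (Sum.inl l))
                (fun h3 => Sum.inl_ne_inr (finSumFinEquiv.injective h3))
              simpa only [x, Function.comp_apply, Equiv.symm_apply_apply, Sum.elim_inl] using h2
            · have h2 := hE' (finSumFinEquiv (Sum.inr q')) (by
                intro h3
                exact hq' (Sum.inr_injective (finSumFinEquiv.injective h3)))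
              simpa only [x, Function.comp_apply, Equiv.symm_apply_apply, Sum.elim_inr] using h2)
          ?_ _ hy0, rfl⟩
        intro P hPU hall q'
        by_cases hq' : q' = finSumFinEquiv (Sum.inr q)
        · rw [hq', Function.update_self]
          exact hunit P hPU _ hu'
        · rw [Function.update_of_ne hq']
          exact hunitx P hPU hall q'
    choose γ hγ hγ' using hsec
    have hsec0 : LogSec k K (h + p) (wtI F.m + 1) Bd (form x (wtI F.m + 1) (1 * Gf y0)) :=
      hsect x 1 hx0 (fun D => by rw [one_mul]) hunitx _ hy0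
    let Γ : Fin (h' + 1) → K := Fin.cases (1 * Gf y0) γ
    refine ⟨wtI F.m + 1, Nat.succ_pos _, fun j => form x (wtI F.m + 1) (Γ j), fun j => ?_, D, ?_,
      ?_⟩
    · refine Fin.cases ?_ (fun i => ?_) j
      · exact hsec0
      · exact hγ i
    · change form x (wtI F.m + 1) (1 * Gf y0) D ≠ 0
      rw [hf, one_mul]
      exact hG0 _ hy0
    · have h1 : ∀ i : Fin h', Γ i.succ / Γ 0 = b i := by
        intro i
        change γ i / (1 * Gf y0) = b i
        rw [hγ', one_mul, mul_div_assoc, div_self (hG0 y0 hy0), mul_one]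
      simp only [hf, h1]
      exact hb
  exact ⟨h, p, t, u, rfl, hbasis, huS, fun D hD => hS1 D (hkill D hD),
    fun D hD i => hS1' D hD _ (htS i),
    hmore h t (hbasis.1.comp Sum.inl Sum.inl_injective) (fun i => Or.inl ⟨i, rfl⟩), hmore⟩

end Pool.Agent.TH710.ND
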