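import Pool.Agent.TH710.ND.Good
import Pool.Agent.TH710.ND.Kod

/-!
The dichotomy for nested sums of high powers: log general type, or a vector field such that all
specialisations which preserve the constant ratios of the leaves preserve the equations.
-/

set_option autoImplicit false

open FF MvPolynomial IntermediateField Pool.Agent.W603.LV Pool.Agent.W603.GR
  Pool.Agent.W602.GT Pool.Agent.W603.GW Pool.Agent.W603.GX Pool.Agent.W603.GY

namespace Pool.Agent.TH710.ND

variable {k : Type} [Field k] {σ ι : Type}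

/-- `F` is a nested sum of high powers of the leaves `Lf`: a sum of at most `s` terms `c g ^ e`,
`N ≤ e`, where the `g` are leaves or sums of at most `s` such terms of the next level, and so
on, with at most `h + 1` levels. The numbers of summands and the exponents are the same for all
gates of one level. -/
def NestedIn (Lf : MvPolynomial σ k → Prop) (s N h : ℕ) (F : MvPolynomial σ k) : Prop :=
  ∃ (r e : ℕ) (L : List (ℕ × ℕ)) (c : Fin r → k) (g : Fin r → MvPolynomial σ k),
    r ≤ s ∧ N ≤ e ∧ L.length ≤ h ∧ (∀ ke ∈ L, 1 ≤ ke.1 ∧ ke.1 ≤ s ∧ N ≤ ke.2) ∧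
      (∀ i, GateL Lf L (g i)) ∧ F = ∑ i, C (c i) * g i ^ e

/-- **The dichotomy.** -/
theorem der_of_not [IsAlgClosed k] [CharZero k] {Lf : MvPolynomial σ k → Prop}
    {F : ι → MvPolynomial σ k} {s N h : ℕ} (hF : ∀ i, NestedIn Lf s N h (F i)) {K : Type}
    [Field K] [Algebra k K] {w : ℕ} (hN : bnd w s h ≤ N) {y : σ → K}
    (hdim : Algebra.trdeg k K = w) (hmem : ∀ i, aeval y (F i) = 0) {Bd : Place k K → Prop}
    (hgt : ¬ LogGeneralType k K w Bd) :
    ∃ D : Derivation k K K, D ≠ 0 ∧
      ∀ (M : Type) [CommRing M] [Algebra k M] [Algebra K M] [IsScalarTower k K M] (x : σ → M),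
        Env (consts D) Lf y x → ∀ i, aeval x (F i) = 0 := by
  classical
  have hN1 : 1 ≤ N := le_trans (by unfold bnd; omega) hN
  let G : CFam k K → Prop := fun A => ∃ c',
    Gen Bd N (2 * s) ((h + 1) * (2 * s * (2 * s))) (fun _ => 0) Lf y c' A
  have hGok : ∀ A, G A → A.Ok Bd N (2 * s) ((h + 1) * (2 * s * (2 * s))) := by
    rintro A ⟨c', hA⟩
    exact hA.ok.1.mono hA.ok.2
  by_cases hker : ∀ D : Derivation k K K, (∀ A, G A → ∀ i a b, D (A.T i a / A.T i b) = 0) →
      (∀ x ∈ (∅ : Set K), D x = 0) → D = 0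
  · exfalso
    obtain ⟨h, p, t, uu, hhp, hbasis, huu, hkill, -, hkod, hkod2⟩ := kod_fam hdim G hGok
      hN ∅ (fun x hx => absurd hx (Set.notMem_empty x))
      (fun P _ x hx => absurd hx (Set.notMem_empty x)) hker
    have hp : p = 0 := by
      by_contra hp
      exact absurd (huu ⟨0, Nat.pos_of_ne_zero hp⟩) (Set.notMem_empty _)
    apply hgt
    have hw : h = w := by omega
    subst hw
    exact lgt_of_kod hdim hkod
  · push Not at hker
    obtain ⟨D, h1, -, h3⟩ := hker
    refine ⟨D, h3, ?_⟩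
    intro M _ _ _ _ x hE i
    have hroot : Root (consts D) := fun z d hd h => consts_root D z d hd h
    have hW : ∀ c' A, Gen Bd N (2 * s) ((h + 1) * (2 * s * (2 * s))) (fun _ => 0) Lf y c' A →
        A.In (consts D) := fun c' A hA i a b => h1 A ⟨c', hA⟩ i a b
    obtain ⟨r, e, L, c, g, hr, he, hL1, hL2, hg, hFe⟩ := hF i
    have hbig : Big N (2 * s) L := by
      intro ke hke
      obtain ⟨h1, h2, h3⟩ := hL2 ke hke
      exact ⟨by omega, h3, by omega⟩
    have hlen : 0 + 2 * s * (2 * s) + L.length * (2 * s * (2 * s)) ≤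
        (h + 1) * (2 * s * (2 * s)) := by
      nlinarith [Nat.mul_le_mul_right (2 * s * (2 * s)) hL1]
    have hlen' : L.length * (2 * s * (2 * s)) ≤ (h + 1) * (2 * s * (2 * s)) :=
      Nat.mul_le_mul_right _ (by omega)
    obtain ⟨ihz, ihp⟩ := gate_rel hroot hW hE L hbig
    have h4 := pow_terms (o := fun _ => 0) (Bd := Bd) (N := N) (Gen.empty (Lf := Lf)) hbig
      he (by omega) hlen
      (fun i => algebraMap k K (c i)) g x (by
        have h2 := hmem i
        rw [hFe, aeval_sum_pow] at h2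
        exact h2) (by rw [Fintype.card_fin]; omega) (fun j => Term.gate _ _ (hg j))
      (fun j hj => ⟨fun P _ _ => ord_alg P hj, fun W _ _ => W.algebraMap_mem _⟩)
      (fun j hj => ihz hlen' (g j) (hg j) hj)
      (fun B hB i j hi hj hl => ihp _ B hB hlen (g i) (g j) (hg i) (hg j) hi hj hl)
    simp only [← IsScalarTower.algebraMap_apply] at h4
    rw [hFe, aeval_sum_pow]
    exact h4

theorem bnd_mono {w n s h : ℕ} (hw : w ≤ n) : bnd w s h ≤ bnd n s h :=
  Nat.succ_le_succ (Nat.mul_le_mul_right _ hw)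

variable {n : ℕ}

/-- **Lines.** -/
theorem waring_n [IsAlgClosed k] [CharZero k] {F : ι → MvPolynomial (Fin (n + 1)) k}
    {s N h : ℕ} (hF : ∀ i, IsNested s N h (F i)) (hN : bnd n s h ≤ N) {K : Type} [Field K]
    [Algebra k K] {w : ℕ} {y : Fin (n + 1) → K} (hy0 : y ≠ 0)
    (halg : Algebra.IsAlgebraic (coords k y) K) (hdim : Algebra.trdeg k K = w)
    (hmem : ∀ i, val y (F i) = 0) {Bd : Place k K → Prop} (hgt : ¬ LogGeneralType k K w Bd) :
    ∃ v : Fin (n + 1) → K, (∃ i j, y i * v j - y j * v i ≠ 0) ∧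
      ∀ (c c' : K) i, val (fun l => c * y l + c' * v l) (F i) = 0 := by
  have hwn := dim_le hy0 halg hdim
  obtain ⟨D, hD0, hD⟩ := der_of_not (Lf := IsLin) (fun i => hF i) ((bnd_mono hwn).trans hN) hdim
    hmem hgt
  refine ⟨fun i => D (y i), moves halg hD0, fun c c' i => hD K _ ⟨?_, ?_⟩ i⟩
  · rintro p ⟨a, rfl⟩ h
    rw [aeval_lin] at h ⊢
    rw [lin_add_smul, lin_der, h, map_zero, mul_zero, mul_zero, add_zero]
  · rintro p q ⟨a, rfl⟩ ⟨b, rfl⟩ hp hq hW
    rw [aeval_lin] at hp hq
    rw [aeval_lin, aeval_lin] at hW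
    rw [aeval_lin, aeval_lin, aeval_lin, aeval_lin, lin_add_smul, lin_add_smul, lin_der, lin_der]
    have h1 : D (lin a y / lin b y) = 0 := hW
    rw [D.leibniz_div] at h1
    rw [smul_eq_zero, or_iff_right (pow_ne_zero 2 (inv_ne_zero hq))] at h1
    simp only [smul_eq_mul] at h1
    change (c * lin a y + c' * D (lin a y)) * lin b y = lin a y * (c * lin b y + c' * D (lin b y))
    linear_combination c' * h1

/-- the monomials -/
def IsMono (p : MvPolynomial (Fin (n + 1)) k) : Prop :=
  ∃ (α : Fin (n + 1) →₀ ℕ) (a : k), p = monomial α a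

theorem aeval_mono {K : Type} [Field K] [Algebra k K] (α : Fin (n + 1) →₀ ℕ) (a : k)
    (y : Fin (n + 1) → K) :
    aeval y (monomial α a) = algebraMap k K a * ∏ j, y j ^ α j := by
  rw [aeval_monomial, Finsupp.prod_fintype _ _ (fun j => pow_zero _)]

theorem torus_mono {K : Type} [Field K] (y : Fin (n + 1) → K) (b : Fin (n + 1) → ℤ) {t : K}
    (ht : t ≠ 0) (α : Fin (n + 1) →₀ ℕ) :
    ∏ j, (t ^ b j * y j) ^ α j = t ^ (∑ j, (α j : ℤ) * b j) * ∏ j, y j ^ α j := by
  have h1 : ∀ j, (t ^ b j * y j) ^ α j = t ^ ((α j : ℤ) * b j) * y j ^ α j := by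
    intro j
    rw [mul_pow, mul_comm (α j : ℤ), zpow_mul, zpow_natCast]
  simp only [h1]
  rw [Finset.prod_mul_distrib]
  congr 1
  have h2 : ∀ S : Finset (Fin (n + 1)),
      ∏ j ∈ S, t ^ ((α j : ℤ) * b j) = t ^ (∑ j ∈ S, (α j : ℤ) * b j) := by
    classical
    intro S
    induction S using Finset.induction_on with
    | empty => simp
    | insert a S ha ih => rw [Finset.prod_insert ha, Finset.sum_insert ha, ih, zpow_add₀ ht]
  exact h2 _

/-- **Tori.** -/
theorem sparse_n [IsAlgClosed k] [CharZero k] {F : ι → MvPolynomial (Fin (n + 1)) k}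
    {s N h : ℕ} (hF : ∀ i, NestedIn IsMono s N h (F i)) (hN : bnd n s h ≤ N) {K : Type} [Field K]
    [Algebra k K] {w : ℕ} {y : Fin (n + 1) → K} (hy0 : y ≠ 0)
    (halg : Algebra.IsAlgebraic (coords k y) K) (hdim : Algebra.trdeg k K = w)
    (hmem : ∀ i, val y (F i) = 0) {Bd : Place k K → Prop} (hgt : ¬ LogGeneralType k K w Bd) :
    ∃ (b : Fin (n + 1) → ℤ) (i i' : Fin (n + 1)), y i ≠ 0 ∧ y i' ≠ 0 ∧ b i ≠ b i' ∧
      ∀ e v, val y (wc b v (F e)) = 0 := by
  have hK : CharZero K := charZero_of_injective_algebraMap (algebraMap k K).injective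
  have hinf : Infinite K := inferInstance
  have hwn := dim_le hy0 halg hdim
  obtain ⟨D, hD0, hD⟩ := der_of_not hF ((bnd_mono hwn).trans hN) hdim hmem hgt
  obtain ⟨i, i', hii⟩ := moves halg hD0
  have hyi : y i ≠ 0 := by
    intro h0
    apply hii
    rw [h0, map_zero]
    ring
  have hyi' : y i' ≠ 0 := by
    intro h0
    apply hii
    rw [h0, map_zero]
    ring
  have hlam : D (y i) / y i ≠ D (y i') / y i' := by
    intro h0
    apply hii
    field_simp at h0
    linear_combination -h0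
  obtain ⟨b, hb, hb2⟩ := int_weights (fun j => D (y j) / y j) hlam
  refine ⟨b, i, i', hyi, hyi', hb, fun e v => ?_⟩
  obtain ⟨M, R, hR1, -, hR3⟩ := orbit_poly (k := k) y b (F e)
  refine hR3 (poly_zero fun t ht => ?_) v
  rw [hR1 t ht]
  have h1 : val (fun j => t ^ b j * y j) (F e) = 0 := by
    refine hD K _ ⟨?_, ?_⟩ e
    · rintro p ⟨α, a, rfl⟩ h
      rw [aeval_mono] at h ⊢
      rw [torus_mono y b ht, mul_left_comm, h, mul_zero]
    · rintro p q ⟨α, a, rfl⟩ ⟨β, c, rfl⟩ hp hq hW
      rw [aeval_mono] at hp hq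
      rw [aeval_mono, aeval_mono] at hW
      have h2 : D (algebraMap k K a * ∏ j, y j ^ α j) * (algebraMap k K c * ∏ j, y j ^ β j) =
          (algebraMap k K a * ∏ j, y j ^ α j) * D (algebraMap k K c * ∏ j, y j ^ β j) := by
        have h1 : D ((algebraMap k K a * ∏ j, y j ^ α j) /
          (algebraMap k K c * ∏ j, y j ^ β j)) = 0 := hW
        rw [D.leibniz_div] at h1
        rw [smul_eq_zero, or_iff_right (pow_ne_zero 2 (inv_ne_zero hq))] at h1
        simp only [smul_eq_mul] at h1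
        linear_combination h1
      rw [der_mon D hp, der_mon D hq] at h2
      have h4 : ∑ j, (α j : K) * (D (y j) / y j) = ∑ j, (β j : K) * (D (y j) / y j) := by
        apply mul_left_cancel₀ (mul_ne_zero hp hq)
        linear_combination h2
      have h5 := hb2 (fun j => (α j : ℤ) - (β j : ℤ)) (by
        push_cast
        simp only [sub_mul, Finset.sum_sub_distrib]
        rw [h4, sub_self])
      simp only [sub_mul, Finset.sum_sub_distrib] at h5
      rw [aeval_mono, aeval_mono, aeval_mono, aeval_mono, torus_mono y b ht, torus_mono y b ht,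
        sub_eq_zero.1 h5]
      change algebraMap k K a * (t ^ (∑ j, (β j : ℤ) * b j) * ∏ j, y j ^ α j) *
        (algebraMap k K c * ∏ j, y j ^ β j) = algebraMap k K a * (∏ j, y j ^ α j) *
        (algebraMap k K c * (t ^ (∑ j, (β j : ℤ) * b j) * ∏ j, y j ^ β j))
      ring
  rw [h1, mul_zero]

end Pool.Agent.TH710.ND
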