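import Pool.Agent.TH710.ND.Ruled
import Pool.Agent.TH710.ND.Dich
import Pool.Agent.W602.GT.Cls
import Pool.Agent.W602.GT.Mord

/-!
Projective varieties given by nested sums of high powers of linear forms, or of monomials.
-/

set_option autoImplicit false

open FF MvPolynomial IntermediateField Pool.Agent.W603.LV Pool.Agent.W602.GT

namespace Pool.Agent.TH710.ND

variable {k : Type} [Field k] {n : ℕ} {ι : Type}

/-- The forms `F e` are nested sums of high powers of linear forms, or all of them are nested sums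
of high powers of monomials. -/
def HighTowers (s N h : ℕ) (F : ι → MvPolynomial (Fin (n + 1)) k) : Prop :=
  (∀ e, IsNested s N h (F e)) ∨ (∀ e, IsForm (F e) ∧ NestedIn IsMono s N h (F e))

theorem HighTowers.form {s N h : ℕ} {F : ι → MvPolynomial (Fin (n + 1)) k}
    (hF : HighTowers s N h F) (e : ι) : IsForm (F e) := by
  rcases hF with h | h
  · exact (h e).form
  · exact (h e).1

theorem not_log {K : Type} [Field K] [Algebra k K] {w : ℕ} (hgt : ¬ GeneralType k K w) :
    ¬ LogGeneralType k K w fun _ => False :=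
  fun h => hgt (general_of_log h)

variable [CharZero k] [IsAlgClosed k]

/-- The dichotomy for the components: general type, or generated by a transcendental element over
a subfield. -/
theorem ruled_of_not {F : ι → MvPolynomial (Fin (n + 1)) k} {s N h : ℕ}
    (hF : HighTowers s N h F) (hN : bnd n s h ≤ N) {K : Type} [Field K] [Algebra k K] {w : ℕ}
    {y : Fin (n + 1) → K} (hy : SubVar F K w y) (hcomp : IsComponent F y)
    (hgt : ¬ GeneralType k K w) :
    ∃ (C : IntermediateField k K) (σ : K), Transcendental C σ ∧ C⟮σ⟯ = ⊤ := by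
  rcases hF with h | h
  · exact (general_or_ruled h hN hy hcomp hgt).2
  · have hgen : Algebra.IsAlgebraic (coords k y) K := by
      rw [hy.gen]
      infer_instance
    obtain ⟨b, i, i', hi, hi', hb, hwc⟩ := sparse_n (fun e => (h e).2) hN hy.ne hgen hy.dim hy.mem
      (not_log hgt)
    have hyU : SubVarU ∅ F K w y :=
      ⟨hy.ne, fun j hj => absurd hj (Set.notMem_empty j), hy.mem, hy.gen, hy.dim⟩
    have hcompU : IsComponentU ∅ F y := by
      obtain ⟨H, hH, hHy, hcone⟩ := hcomp
      exact ⟨H, hH, hHy, fun x hx hxH => hcone x (mem_cone_empty hx) hxH⟩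
    obtain ⟨δ, σ, -, -, hσ0, hσ, htop, -⟩ := exists_delta hy.gen b hi hi' hb
      (fun G hG h0 v => ideal_hom hyU hcompU hwc G hG h0 v)
    refine ⟨consts δ, σ, ?_, htop⟩
    intro halg
    have h1 : Algebra.IsAlgebraic (consts δ) K := by
      have h2 : Algebra.IsAlgebraic (consts δ) (consts δ)⟮σ⟯ :=
        IntermediateField.isAlgebraic_adjoin_simple halg.isIntegral
      constructor
      intro z
      have h3 := h2.isAlgebraic (⟨z, by rw [htop]; exact IntermediateField.mem_top⟩ : (consts δ)⟮σ⟯)
      exact h3.algebraMap (A := K)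
    have h2 : Algebra.IsAlgebraic (IntermediateField.adjoin k (consts δ : Set K)) K := by
      rw [IntermediateField.adjoin_self]
      exact h1
    have h3 := der_eq_zero δ _ h2 (fun s hs => hs)
    rw [h3] at hσ
    exact hσ0 hσ.symm

/-- **Rational curves.** A subvariety which is not of general type is covered by the images of the
nonconstant morphisms from the multiplicative group to `X`. -/
theorem gm_through {F : ι → MvPolynomial (Fin (n + 1)) k} {s N h : ℕ} (hF : HighTowers s N h F)
    (hN : bnd n s h ≤ N) {K : Type} [Field K] [Algebra k K] {w : ℕ}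
    {y : Fin (n + 1) → K} (hy : SubVar F K w y) (hgt : ¬ GeneralType k K w)
    {G : MvPolynomial (Fin (n + 1)) k} (hGf : IsForm G) (hG : val y G ≠ 0) :
    ∃ P, GmCurve F P ∧ ∃ t : k, t ≠ 0 ∧ val (fun i => (P i).eval t) G ≠ 0 := by
  classical
  have hinf : Infinite k := inferInstance
  have hgen : Algebra.IsAlgebraic (coords k y) K := by
    rw [hy.gen]
    infer_instance
  rcases hF with h | h
  · obtain ⟨v, hv, hl⟩ := waring_n h hN hy.ne hgen hy.dim hy.mem (not_log hgt)
    by_contra hcon
    push Not at hcon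
    apply hG
    refine mem_closure y v hv hl ?_
    intro a b hab c c'
    have hGm : ∀ P, GmCurve F P → ∀ t : k, t ≠ 0 → val (fun i => (P i).eval t) G = 0 := hcon
    by_cases hc : c = 0
    · by_cases hc' : c' = 0
      · rw [hc, hc']
        have h1 := val_zero_of hGf (line_key hGm hab)
        simpa using h1
      · have h1 := line_key hGm (line_move hab (-1) 0 1 c' (by simpa using hc'))
        have e : (-1 : k) • a + (0 : k) • b + ((1 : k) • a + c' • b) = c • a + c' • b := by
          rw [hc]
          funext i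
          simp
        rwa [e] at h1
    · have h1 := line_key hGm (line_move hab 0 (-1) c (c' + 1) (by simpa using hc))
      have e : (0 : k) • a + (-1 : k) • b + (c • a + (c' + 1) • b) = c • a + c' • b := by
        funext i
        simp
        ring
      rwa [e] at h1
  · obtain ⟨b, i, i', hi, hi', hb, hwc⟩ := sparse_n (fun e => (h e).2) hN hy.ne hgen hy.dim hy.mem
      (not_log hgt)
    let H : MvPolynomial (Fin (n + 1)) k := G * (MvPolynomial.X i * MvPolynomial.X i')
    have hH : MvPolynomial.aeval y H ≠ 0 := by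
      simp only [H, map_mul, MvPolynomial.aeval_X]
      exact mul_ne_zero hG (mul_ne_zero hi hi')
    obtain ⟨x, hx, hx0⟩ := specialise y H hH
    simp only [H, map_mul, MvPolynomial.aeval_X] at hx
    have h1 := left_ne_zero_of_mul hx
    have h3 := right_ne_zero_of_mul hx
    have hd : DiagCurve ∅ F x b := diag_of_wc (fun j hj => absurd hj (Set.notMem_empty j))
      (fun e v => hx0 _ (hwc e v)) ⟨i, i', left_ne_zero_of_mul h3, right_ne_zero_of_mul h3, hb⟩
    obtain ⟨P, hP, hP1⟩ := gm_of_diag (fun e => (h e).1) hd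
    exact ⟨P, hP, 1, one_ne_zero, by rw [hP1]; exact h1⟩

/-- **Lang's criterion.** -/
theorem all_iff {F : ι → MvPolynomial (Fin (n + 1)) k} {s N h : ℕ} (hF : HighTowers s N h F)
    (hN : bnd n s h ≤ N) : AllGeneralType F ↔ ∀ P, ¬ GmCurve F P := by
  constructor
  · intro h P hP
    obtain ⟨K, _, _, y, hy, hgt⟩ := sub_of_gm (fun e => hF.form e) hP
    exact hgt (h K 1 y le_rfl hy)
  · intro h K _ _ w y hw hy
    by_contra hgt
    have h1 : val y (1 : MvPolynomial (Fin (n + 1)) k) ≠ 0 := by
      unfold Pool.Agent.W602.GT.val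
      rw [map_one]
      exact one_ne_zero
    obtain ⟨P, hP, -⟩ := gm_through hF hN hy hgt
      ⟨0, MvPolynomial.isHomogeneous_one _ _⟩ h1
    exact h P hP

/-- **The special sets.** -/
theorem special {F : ι → MvPolynomial (Fin (n + 1)) k} {s N h : ℕ}
    (hF : ∀ e, IsNested s N h (F e)) (hN : bnd n s h ≤ N) :
    SpAlg F = SpLine F ∧ SpGm F = SpLine F := by
  have h1 : SpLine F ⊆ SpGm F := line_sub_gm F
  have h2 : SpGm F ⊆ SpAlg F := gm_sub_alg fun e => (hF e).form
  have h3 : SpAlg F ⊆ SpLine F := by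
    rintro x ⟨hx, h⟩
    refine ⟨hx, fun G hG hL => h G hG ?_⟩
    intro K _ _ w y hw hy hgt
    have hgen : Algebra.IsAlgebraic (coords k y) K := by
      rw [hy.gen]
      infer_instance
    obtain ⟨v, hv, hl⟩ := waring_n hF hN hy.ne hgen hy.dim hy.mem (not_log hgt)
    exact mem_closure y v hv hl hL
  exact ⟨Set.Subset.antisymm h3 (h1.trans h2), Set.Subset.antisymm (h2.trans h3) h1⟩

theorem general_of_mordellic {F : ι → MvPolynomial (Fin (n + 1)) k} {s N h : ℕ}
    (hF : HighTowers s N h F) (hN : bnd n s h ≤ N) :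
    (∀ (K : Type) [Field K] [Algebra k K] (w : ℕ) (y : Fin (n + 1) → K), 1 ≤ w →
      SubVar F K w y → IsComponent F y → PseudoMordellic k y → GeneralType k K w) ∧
    (Mordellic F → AllGeneralType F) := by
  constructor
  · intro K _ _ w y hw hy hcomp hPM
    by_contra hgt
    obtain ⟨H1, hH1, hH1y, hcone⟩ := hcomp
    obtain ⟨H, s0, hH, hHy, hfin⟩ := hPM
    have h1 : val y (H1 * H) ≠ 0 := by
      rw [val_mul]
      exact mul_ne_zero hH1y hHy
    obtain ⟨P, hP, t, -, ht⟩ := gm_through hF hN hy hgt (form_mul hH1 hH) h1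
    obtain ⟨T, hT, hinf⟩ := infinite_points hP ht s0
    apply hinf
    refine (hfin T hT).subset ?_
    rintro p ⟨x, ⟨hx, hxG⟩, hxT, hx0, rfl⟩
    rw [Set.mem_ofPred_eq, val_mul] at hxG
    exact ⟨x, ⟨hcone x hx (left_ne_zero_of_mul hxG), right_ne_zero_of_mul hxG⟩, hxT, hx0, rfl⟩
  · rintro ⟨s0, hfin⟩
    rw [all_iff hF hN]
    intro P hP
    have h1 : val (fun i => (P i).eval 1) (1 : MvPolynomial (Fin (n + 1)) k) ≠ 0 := by
      unfold Pool.Agent.W602.GT.val
      rw [map_one]
      exact one_ne_zero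
    obtain ⟨T, hT, hinf⟩ := infinite_points hP h1 s0
    apply hinf
    refine (hfin T hT).subset ?_
    rintro p ⟨x, ⟨hx, -⟩, hxT, hx0, rfl⟩
    exact ⟨x, hx, hxT, hx0, rfl⟩

/-- The dichotomy with pseudo-effectivity. -/
theorem general_psef_or_ruled {F : ι → MvPolynomial (Fin (n + 1)) k} {s N h : ℕ}
    (hF : HighTowers s N h F) (hN : bnd n s h ≤ N)
    {K : Type} [Field K] [Algebra k K] {w : ℕ} {y : Fin (n + 1) → K}
    (hy : SubVar F K w y) (hcomp : IsComponent F y) :
    (Psef k K w (fun _ => False) ∧ GeneralType k K w) ∨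
      (¬ Psef k K w (fun _ => False) ∧ Ruled k K) := by
  by_cases hgt : GeneralType k K w
  · exact Or.inl ⟨psef_of_kodGe (kod_of_general hgt), hgt⟩
  · obtain ⟨C, σ, h1, h2⟩ := ruled_of_not hF hN hy hcomp hgt
    exact Or.inr ⟨not_psef_of hy.dim C h1 h2, C, σ, h1, h2⟩

/-- **Negative Kodaira dimension.** -/
theorem neg_tfae {F : ι → MvPolynomial (Fin (n + 1)) k} {s N h : ℕ}
    (hF : HighTowers s N h F) (hN : bnd n s h ≤ N)
    {K : Type} [Field K] [Algebra k K] {w : ℕ} {y : Fin (n + 1) → K}
    (hy : SubVar F K w y) (hcomp : IsComponent F y) :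
    [¬ KodGe k K w (fun _ => False) 0, ¬ Psef k K w (fun _ => False), Ruled k K,
      ¬ GeneralType k K w].TFAE := by
  tfae_have 4 → 3 := fun h => by
    obtain ⟨C, σ, h1, h2⟩ := ruled_of_not hF hN hy hcomp h
    exact ⟨C, σ, h1, h2⟩
  tfae_have 3 → 2 := by
    rintro ⟨C, σ, h1, h2⟩
    exact not_psef_of hy.dim C h1 h2
  tfae_have 2 → 1 := fun h h1 => h (psef_of_kodGe h1)
  tfae_have 1 → 4 := fun h h1 => h (kod_of_general h1)
  tfae_finish

end Pool.Agent.TH710.ND
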