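import Pool.Agent.TH710.ND.Main2
import Pool.Agent.TH710.ND.Proj
import Pool.Agent.TH143.GT.Sec

/-!
Quasi-projective varieties covered by affine lines have no log pluricanonical sections.
-/

set_option autoImplicit false

open FF MvPolynomial Pool.Agent.W603.LV Pool.Agent.W603.PV Pool.Agent.W603.GR
  Pool.Agent.W602.GT Pool.Agent.W603.GW Pool.Agent.W603.GX
  Pool.Agent.W603.GY Pool.Agent.TH143.GT

namespace Pool.Agent.TH710.ND

variable {k : Type} [Field k] {n : ℕ} {ι κ : Type}

theorem ev_aeval {M : Type} [Field M] [Algebra k M] (W : Fin (n + 1) → Polynomial M)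
    (G : MvPolynomial (Fin (n + 1)) k) (c : M) :
    Polynomial.eval c (aeval W G : Polynomial M)
      = Pool.Agent.W602.GT.val (fun t => (W t).eval c) G := by
  have h := MvPolynomial.comp_aeval_apply (f := W)
    ((Polynomial.aeval c : Polynomial M →ₐ[M] M).restrictScalars k) G
  unfold Pool.Agent.W602.GT.val
  simpa [Polynomial.coe_aeval_eq_eval] using h

theorem poly_zero_of_all {M : Type} [Field M] [Infinite M] {p : Polynomial M}
    (h : ∀ c : M, p.eval c = 0) : p = 0 :=
  Polynomial.eq_zero_of_infinite_isRoot p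
    (Set.infinite_of_injective_forall_mem (f := fun c : M => c) (fun _ _ h => h) h)

theorem off_of_any [Fintype κ] {Q : κ → MvPolynomial (Fin (n + 1)) k} {K : Type} [Field K]
    [Algebra k K] {y : Fin (n + 1) → K} (hQh : ∀ j, (Q j).IsHomogeneous (Q j).totalDegree)
    (hQ0 : ∀ j, Pool.Agent.W602.GT.val y (Q j) ≠ 0) {P : Place k K} (h : OffAny Q y P) :
    OffQ (∏ j, Q j) (∑ j, (Q j).totalDegree) y P := by
  classical
  obtain ⟨j0, i1, hi1, hj0⟩ := h
  obtain ⟨i0, hi0, hmin⟩ := Finset.exists_min_image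
    (Finset.univ.filter fun i => y i ≠ 0) (fun i => P.ord (y i))
    ⟨i1, Finset.mem_filter.2 ⟨Finset.mem_univ _, hi1⟩⟩
  have hi0' : y i0 ≠ 0 := (Finset.mem_filter.1 hi0).2
  have hmin' : ∀ i, y i ≠ 0 → P.ord (y i0) ≤ P.ord (y i) := fun i hi =>
    hmin i (Finset.mem_filter.2 ⟨Finset.mem_univ _, hi⟩)
  refine ⟨i0, hi0', ?_⟩
  rw [val_prod, ord_prod' P _ _ fun j _ => hQ0 j, Nat.cast_sum, Finset.sum_mul]
  refine Finset.sum_lt_sum (fun j _ => ord_form P hi0' hmin' (hQh j) (hQ0 j))
    ⟨j0, Finset.mem_univ _, ?_⟩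
  exact lt_of_le_of_lt (mul_le_mul_of_nonneg_left (hmin' i1 hi1) (Int.natCast_nonneg _)) hj0

/-- **Affine lines.** -/
theorem aff_neg [CharZero k] [Finite κ] {Q : κ → MvPolynomial (Fin (n + 1)) k}
    (hQh : ∀ j, (Q j).IsHomogeneous (Q j).totalDegree) {K : Type} [Field K] [Algebra k K] {w : ℕ}
    {y : Fin (n + 1) → K} (hy : y ≠ 0) (hoff : ∀ j, Pool.Agent.W602.GT.val y (Q j) ≠ 0)
    (hgen : coords k y = ⊤) (hdim : Algebra.trdeg k K = w) (hA : AffLine Q y) {h : ℕ} :
    ¬ KodGe k K w (OffAny Q y) h := by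
  classical
  have := Fintype.ofFinite κ
  have hK : CharZero K := charZero_of_injective_algebraMap (algebraMap k K).injective
  have hinf : Infinite K := inferInstance
  obtain ⟨v, ⟨ia, ja, hij⟩, hv1, hv2⟩ := hA
  let W : Fin (n + 1) → Polynomial K := fun l =>
    Polynomial.C (y l) + Polynomial.X * Polynomial.C (v l)
  have hWev : ∀ c : K, (fun l => (W l).eval c) = fun l => y l + c * v l := by
    intro c
    funext l
    simp only [W, Polynomial.eval_add, Polynomial.eval_mul, Polynomial.eval_C, Polynomial.eval_X]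
  have hFam : Fam y (∏ j, Q j) W 0 := by
    refine ⟨fun G hG => ⟨fun h0 => ?_, fun h0 => ?_⟩, ∏ j, Pool.Agent.W602.GT.val y (Q j),
      Finset.prod_ne_zero_iff.2 fun j _ => hoff j, ?_⟩
    · apply poly_zero_of_all
      intro c
      rw [ev_aeval, hWev]
      exact hv1 G hG h0 c
    · have h1 := ev_aeval W G 0
      rw [h0, Polynomial.eval_zero, hWev] at h1
      simpa using h1.symm
    · rw [pow_zero, mul_one, map_prod, map_prod]
      refine Finset.prod_congr rfl fun j _ => ?_
      rw [← sub_eq_zero]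
      apply poly_zero_of_all
      intro c
      rw [Polynomial.eval_sub, ev_aeval, hWev, Polynomial.eval_C, hv2, sub_self]
  have hprod : (∏ j, Q j).IsHomogeneous (∑ j, (Q j).totalDegree) :=
    IsHomogeneous.prod _ _ _ fun j _ => hQh j
  -- a function which is not constant along the lines
  have hflat : ∃ r : K, ¬ Flat k y W r := by
    by_contra hcon
    push Not at hcon
    have key : ∀ a b : Fin (n + 1), y b ≠ 0 → v a * y b = y a * v b := by
      intro a b hb
      have h1 := hcon (y a / y b) 1 (X a) (X b) (isHomogeneous_X _ _) (isHomogeneous_X _ _)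
        (by unfold Pool.Agent.W602.GT.val; rwa [aeval_X])
        (by unfold Pool.Agent.W602.GT.val; rw [aeval_X, aeval_X])
      rw [aeval_X, aeval_X] at h1
      have h2 := congrArg (Polynomial.eval 0) h1
      simpa [W] using h2
    by_cases hja : y ja = 0
    · by_cases hia : y ia = 0
      · apply hij
        rw [hja, hia, zero_mul, zero_mul, sub_self]
      · apply hij
        linear_combination key ja ia hia
    · apply hij
      linear_combination -key ia ja hja
  rintro ⟨N, hN, ω, hω, D, hD, -⟩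
  apply hD
  exact (hFam.main hdim hdim hy hgen hprod).2.2.2 rfl hflat N hN (ω 0)
    ⟨(hω 0).1, (hω 0).2.1, fun P hP hb => (hω 0).2.2 P hP fun ho =>
      hb (off_of_any hQh hoff ho)⟩ D

theorem kodGe_zero {K : Type} [Field K] [Algebra k K] {w : ℕ} {Bd : Place k K → Prop} {h : ℕ}
    (hk : KodGe k K w Bd h) : KodGe k K w Bd 0 := by
  obtain ⟨N, hN, ω, hω, D, hD, -⟩ := hk
  refine ⟨N, hN, fun _ => ω 0, fun _ => hω 0, D, hD, ?_⟩
  rw [algebraicIndependent_empty_type_iff]
  exact (algebraMap k K).injective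

/-- **Negative log Kodaira dimension.** -/
theorem log_neg [IsAlgClosed k] [CharZero k] [Finite κ] {F : ι → MvPolynomial (Fin (n + 1)) k}
    {Q : κ → MvPolynomial (Fin (n + 1)) k} {s N H : ℕ}
    (hF : ∀ i, IsNested s N H (F i)) (hQ : ∀ j, IsNested s N H (Q j)) (hN : bnd n s H ≤ N)
    {K : Type} [Field K] [Algebra k K] {w : ℕ}
    {y : Fin (n + 1) → K} (hy : SubVarQ F Q K w y) (hcomp : IsComponentQ F Q y) :
    [¬ KodGe k K w (OffAny Q y) 0, ¬ Psef k K w (OffAny Q y), AffLine Q y].TFAE := by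
  have hQh : ∀ j, (Q j).IsHomogeneous (Q j).totalDegree := by
    intro j
    refine nested_hom (hQ j) fun h0 => hy.off j ?_
    rw [h0]
    unfold Pool.Agent.W602.GT.val
    rw [map_zero]
  tfae_have 1 → 2 := by
    intro h1
    rcases main2 hF hQ hN hy hcomp with h | ⟨h, q, -, hk, -, -⟩
    · exact h.1
    · exact absurd (kodGe_zero hk) h1
  tfae_have 2 → 3 := by
    intro h1
    rcases main2 hF hQ hN hy hcomp with h | ⟨h, q, -, hk, -, -⟩
    · exact h.2
    · exact absurd (psef_of_kodGe (kodGe_zero hk)) h1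
  tfae_have 3 → 1 := fun h1 => aff_neg hQh hy.ne hy.off hy.gen hy.dim h1
  tfae_finish

theorem psef_iff_kod [IsAlgClosed k] [CharZero k] [Finite κ]
    {F : ι → MvPolynomial (Fin (n + 1)) k}
    {Q : κ → MvPolynomial (Fin (n + 1)) k} {s N H : ℕ}
    (hF : ∀ i, IsNested s N H (F i)) (hQ : ∀ j, IsNested s N H (Q j)) (hN : bnd n s H ≤ N)
    {K : Type} [Field K] [Algebra k K] {w : ℕ}
    {y : Fin (n + 1) → K} (hy : SubVarQ F Q K w y) (hcomp : IsComponentQ F Q y) :
    Psef k K w (OffAny Q y) ↔ KodGe k K w (OffAny Q y) 0 := by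
  have h1 : ¬ KodGe k K w (OffAny Q y) 0 ↔ ¬ Psef k K w (OffAny Q y) :=
    (log_neg hF hQ hN hy hcomp).out 0 1
  exact (not_iff_not.1 h1).symm

end Pool.Agent.TH710.ND
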