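import Pool.Agent.TH710.ND.MapsLgt
import Pool.Agent.TH710.NW.Lgt

/-!
Special sets and log general type for quasi-projective varieties given by nested sums of high powers
of linear forms, with any number of boundary divisors.
-/

set_option autoImplicit false

open FF MvPolynomial IntermediateField Pool.Agent.W603.LV Pool.Agent.W603.PV Pool.Agent.W603.GR
  Pool.Agent.W602.GT Pool.Agent.H159R3.War Pool.Agent.H159R3.WarLog Pool.Agent.W603.BPR
  Pool.Agent.W603.BP Pool.Agent.W603.BPW Pool.Agent.W603.GW Pool.Agent.W603.GX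
  Pool.Agent.W603.GY

namespace Pool.Agent.TH710.ND

variable {n : ℕ} {ι κ : Type}

theorem bnd_le {n s h N : ℕ} (hN : (n + 1) * ((h + 1) * (2 * s + 1) ^ 5) ≤ N) :
    bnd n s h ≤ N ∧ (2 * s) ^ 2 ≤ N ∧ 1 ≤ N := by
  have h1 : tn (2 * s - 1) ≤ (2 * s + 1) ^ 2 := by
    rw [tn_eq]
    refine (Nat.div_le_self _ _).trans ?_
    rw [pow_two]
    exact Nat.mul_le_mul (by omega) (by omega)
  have hX : 1 ≤ (2 * s + 1) ^ 5 := Nat.one_le_pow _ _ (by omega)
  have h2 : 2 * s * (2 * s) * ((2 * s + 1) * tn (2 * s - 1)) ≤ (2 * s + 1) ^ 5 := by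
    calc 2 * s * (2 * s) * ((2 * s + 1) * tn (2 * s - 1))
        ≤ (2 * s + 1) * (2 * s + 1) * ((2 * s + 1) * (2 * s + 1) ^ 2) :=
          Nat.mul_le_mul (Nat.mul_le_mul (by omega) (by omega)) (Nat.mul_le_mul le_rfl h1)
      _ = (2 * s + 1) ^ 5 := by ring
  have h3 : (h + 1) * (2 * s * (2 * s)) * ((2 * s + 1) * tn (2 * s - 1)) ≤
      (h + 1) * (2 * s + 1) ^ 5 := by
    rw [mul_assoc]
    exact Nat.mul_le_mul_left _ h2
  have h4 : 1 ≤ (h + 1) * (2 * s + 1) ^ 5 := Nat.one_le_iff_ne_zero.2 (by positivity)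
  refine ⟨?_, ?_, ?_⟩
  · unfold bnd
    calc n * ((h + 1) * (2 * s * (2 * s)) * ((2 * s + 1) * tn (2 * s - 1))) + 1
        ≤ n * ((h + 1) * (2 * s + 1) ^ 5) + (h + 1) * (2 * s + 1) ^ 5 :=
          Nat.add_le_add (Nat.mul_le_mul_left _ h3) h4
      _ = (n + 1) * ((h + 1) * (2 * s + 1) ^ 5) := by ring
      _ ≤ N := hN
  · calc (2 * s) ^ 2 ≤ (2 * s + 1) ^ 2 := Nat.pow_le_pow_left (by omega) 2
      _ ≤ (2 * s + 1) ^ 5 := Nat.pow_le_pow_right (by omega) (by omega)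
      _ = 1 * (1 * (2 * s + 1) ^ 5) := by ring
      _ ≤ (n + 1) * ((h + 1) * (2 * s + 1) ^ 5) :=
          Nat.mul_le_mul (by omega) (Nat.mul_le_mul_right _ (by omega))
      _ ≤ N := hN
  · calc 1 = 1 * 1 := rfl
      _ ≤ (n + 1) * ((h + 1) * (2 * s + 1) ^ 5) := Nat.mul_le_mul (by omega) h4
      _ ≤ N := hN

theorem gate_nw {L : List (ℕ × ℕ)} : ∀ {p : MvPolynomial (Fin (n + 1)) ℂ}, GateL IsLin L p →
    Pool.Agent.TH710.NW.Gate L p := by
  induction L with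
  | nil =>
    rintro p ⟨a, rfl⟩
    exact ⟨a, rfl⟩
  | cons ke L ih =>
    rintro p ⟨c, g, hg, rfl⟩
    exact ⟨c, g, fun i => ih (hg i), rfl⟩

theorem good_nw {s N : ℕ} (hN2 : (2 * s) ^ 2 ≤ N) {L : List (ℕ × ℕ)}
    (hL : ∀ ke ∈ L, 1 ≤ ke.1 ∧ ke.1 ≤ s ∧ N ≤ ke.2) : Pool.Agent.TH710.NW.Good L := by
  intro ke hke
  obtain ⟨h1, h2, h3⟩ := hL ke hke
  refine ⟨h1, ?_⟩
  calc (2 * ke.1 - 1) ^ 2 ≤ (2 * s) ^ 2 := Nat.pow_le_pow_left (by omega) 2
    _ ≤ N := hN2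
    _ ≤ ke.2 := h3

theorem tower_of {s N h : ℕ} (hN2 : (2 * s) ^ 2 ≤ N) (hN1 : 1 ≤ N)
    {F : MvPolynomial (Fin (n + 1)) ℂ} (hF : IsNested s N h F) :
    Pool.Agent.TH710.NW.Tower F := by
  obtain ⟨r, e, L, c, g, hr, he, -, hL, hg, rfl⟩ := hF
  refine ⟨r, e, L, c, g, by omega, ?_, good_nw hN2 hL, fun i => gate_nw (hg i), rfl⟩
  calc (r - 1) ^ 2 ≤ (2 * s) ^ 2 := Nat.pow_le_pow_left (by omega) 2
    _ ≤ N := hN2
    _ ≤ e := he

theorem towerLog_of {s N h : ℕ} (hN2 : (2 * s) ^ 2 ≤ N) (hN1 : 1 ≤ N)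
    {F : MvPolynomial (Fin (n + 1)) ℂ} (hF : IsNested s N h F) :
    ∃ d, Pool.Agent.TH710.NW.TowerLog F d := by
  obtain ⟨r, e, L, c, g, hr, he, -, hL, hg, rfl⟩ := hF
  refine ⟨_, r, e, L, c, g, by omega, ?_, good_nw hN2 hL, fun i => gate_nw (hg i), rfl, rfl⟩
  calc r ^ 2 ≤ (2 * s) ^ 2 := Nat.pow_le_pow_left (by omega) 2
    _ ≤ N := hN2
    _ ≤ e := he

/-- specialisation of a punctured line -/
theorem spec_punct [Finite κ] {F : ι → MvPolynomial (Fin (n + 1)) ℂ}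
    {Q : κ → MvPolynomial (Fin (n + 1)) ℂ} {K : Type} [Field K] [Algebra ℂ K]
    {y : Fin (n + 1) → K} (hoff : ∀ j, val y (Q j) ≠ 0) (hP : PunctX F Q y)
    {G : MvPolynomial (Fin (n + 1)) ℂ} (hGy : val y G ≠ 0) :
    ∃ y0 : Fin (n + 1) → ℂ, eval y0 G ≠ 0 ∧ (∀ j, eval y0 (Q j) ≠ 0) ∧
      HasLine F Q (fun j => (Q j).totalDegree) y0 := by
  classical
  have := Fintype.ofFinite κ
  obtain ⟨v, T, hyv, hline, hQ1, hQ2⟩ := hP
  obtain ⟨i0, j0, hij⟩ := hyv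
  let σ := (Fin (n + 1) ⊕ Fin (n + 1)) ⊕ Empty
  let z : σ → K := Sum.elim (Sum.elim y v) Empty.elim
  have h1 : aeval z (cmb Empty 1 0 G *
      (X (Sum.inl (Sum.inl i0)) * X (Sum.inl (Sum.inr j0)) -
        X (Sum.inl (Sum.inl j0)) * X (Sum.inl (Sum.inr i0))) *
      ∏ j, cmb Empty 1 0 (Q j) : MvPolynomial σ ℂ) ≠ 0 := by
    rw [map_mul, map_mul, map_prod, cmb_val10]
    refine mul_ne_zero (mul_ne_zero hGy ?_) (Finset.prod_ne_zero_iff.2 fun j _ => ?_)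
    · simpa [z] using hij
    · rw [cmb_val10]
      exact hoff j
  obtain ⟨z0, hz, hz0⟩ := specialise z _ h1
  obtain ⟨y0, v0, rfl⟩ : ∃ (y0 v0 : Fin (n + 1) → ℂ),
      z0 = Sum.elim (Sum.elim y0 v0) Empty.elim :=
    ⟨fun i => z0 (Sum.inl (Sum.inl i)), fun i => z0 (Sum.inl (Sum.inr i)), by
      funext s
      rcases s with (s | s) | s
      · rfl
      · rfl
      · exact s.elim⟩
  rw [map_mul, map_mul, map_prod, cmb_val10] at hz
  have hz1 := left_ne_zero_of_mul (left_ne_zero_of_mul hz)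
  have hz2 := right_ne_zero_of_mul (left_ne_zero_of_mul hz)
  have hz3 := right_ne_zero_of_mul hz
  simp only [map_sub, map_mul, aeval_X, Sum.elim_inl, Sum.elim_inr] at hz2
  have hy0Q : ∀ j, eval y0 (Q j) ≠ 0 := by
    intro j
    rw [eval_eq_val]
    have h4 := Finset.prod_ne_zero_iff.1 hz3 j (Finset.mem_univ j)
    rwa [cmb_val10] at h4
  have hfun : ∀ c c' : ℂ, (fun i => c * y0 i + c' * v0 i) = c • y0 + c' • v0 := by
    intro c c'
    funext i
    simp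
  rw [← eval_eq_val] at hz1
  refine ⟨y0, hz1, hy0Q, v0, 1, T, ⟨?_, ?_⟩, ?_⟩
  · rw [LinearIndependent.pair_iff]
    intro s t hst
    have e1 := congrFun hst i0
    have e2 := congrFun hst j0
    simp only [Pi.add_apply, Pi.smul_apply, smul_eq_mul, Pi.zero_apply] at e1 e2
    constructor
    · have : s * (y0 i0 * v0 j0 - y0 j0 * v0 i0) = 0 := by
        linear_combination v0 j0 * e1 - v0 i0 * e2
      exact (mul_eq_zero.1 this).resolve_right hz2
    · have : t * (y0 i0 * v0 j0 - y0 j0 * v0 i0) = 0 := by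
        linear_combination y0 i0 * e2 - y0 j0 * e1
      exact (mul_eq_zero.1 this).resolve_right hz2
  · intro e c c'
    have h2 : aeval z (cmb Empty c c' (F e)) = 0 := by
      rw [cmb_val]
      exact hline _ _ e
    have h3 := hz0 _ h2
    rw [cmb_val] at h3
    rw [← hfun, eval_eq_val]
    exact h3
  · intro j c c'
    constructor
    · intro hj
      have h2 : aeval z (cmb Empty c c' (Q j) -
          cmb Empty 1 0 (Q j) * C ((c + c') ^ (Q j).totalDegree)) = 0 := by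
        rw [map_sub, map_mul, cmb_val, cmb_val10, aeval_C, hQ1 _ _ j hj, map_pow, map_add,
          sub_self]
      have h3 := hz0 _ h2
      rw [map_sub, map_mul, cmb_val, cmb_val10, aeval_C, sub_eq_zero] at h3
      rw [← hfun, eval_eq_val, eval_eq_val, one_mul]
      exact h3
    · intro hj
      have h2 : aeval z (cmb Empty c c' (Q j) -
          cmb Empty 1 0 (Q j) * C (c ^ (Q j).totalDegree)) = 0 := by
        rw [map_sub, map_mul, cmb_val, cmb_val10, aeval_C, hQ2 _ _ j hj, map_pow, sub_self]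
      have h3 := hz0 _ h2
      rw [map_sub, map_mul, cmb_val, cmb_val10, aeval_C, sub_eq_zero] at h3
      rw [← hfun, eval_eq_val, eval_eq_val]
      exact h3

/-- a variety with a generically finite morphism to `X` whose image is not contained in the union of
the punctured lines is of log general type -/
theorem maps_lgt_gm [Finite κ] {F : ι → MvPolynomial (Fin (n + 1)) ℂ}
    {Q : κ → MvPolynomial (Fin (n + 1)) ℂ} {s N h : ℕ}
    (hF : ∀ i, IsNested s N h (F i)) (hQ : ∀ j, IsNested s N h (Q j)) (hN : bnd n s h ≤ N)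
    {K : Type} [Field K] [Algebra ℂ K] {w : ℕ}
    {y : Fin (n + 1) → K} (hy : MapQ F Q K w y) {G : MvPolynomial (Fin (n + 1)) ℂ}
    (hG : ∀ x ∈ gmPoints F Q, eval x G = 0) (hGy : val y G ≠ 0) :
    LogGeneralType ℂ K w (OffAny Q y) := by
  rcases maps_lgt hF hQ hN hy with h | h
  · exfalso
    obtain ⟨y0, h1, h2, h3⟩ := spec_punct hy.off h hGy
    have hN1 : 1 ≤ N := le_trans (by unfold bnd; omega) hN
    exact h1 (hG y0 (gm_of_hasLine (fun j => nested_pos (hQ j) hN1 (by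
      intro h0
      apply h2 j
      rw [h0, map_zero])) h2 h3))
  · exact lgt_of_kod hy.dim h

theorem MapQ.of_sub {F : ι → MvPolynomial (Fin (n + 1)) ℂ}
    {Q : κ → MvPolynomial (Fin (n + 1)) ℂ} {K : Type} [Field K] [Algebra ℂ K] {w : ℕ}
    {y : Fin (n + 1) → K} (hy : SubVarQ F Q K w y) : MapQ F Q K w y :=
  ⟨hy.ne, hy.mem, hy.off, by
    rw [hy.gen]
    infer_instance, hy.dim⟩

/-- the union of the punctured lines is closed -/
theorem gm_closed [Finite κ] (F : ι → MvPolynomial (Fin (n + 1)) ℂ)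
    (Q : κ → MvPolynomial (Fin (n + 1)) ℂ) (hF : ∀ i, Pool.Agent.TH710.NW.Stab (F i))
    (hQ : ∀ j, ∃ d, Pool.Agent.TH710.NW.StabLog (Q j) d) {x : Fin (n + 1) → ℂ}
    (hx : x ∈ Pts F Q) (hno : x ∉ gmPoints F Q) :
    ∃ G : MvPolynomial (Fin (n + 1)) ℂ,
      (∃ e, G.IsHomogeneous e) ∧ eval x G ≠ 0 ∧ ∀ x ∈ gmPoints F Q, eval x G = 0 := by
  have h1 : x ∉ zcl F Q (gmPoints F Q) := by
    obtain ⟨h1, h2⟩ := Pool.Agent.TH710.NW.pic_eq F Q hF hQ
    rw [h2] at h1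
    rw [h1]
    exact hno
  by_contra hcon
  push Not at hcon
  refine h1 ⟨hx, fun G hG hG0 => ?_⟩
  by_contra hne
  obtain ⟨a, ha, ha0⟩ := hcon G hG hne
  exact ha0 (hG0 a ha)

/-- **The special sets.** -/
theorem alg_sub_gm [Finite κ] (F : ι → MvPolynomial (Fin (n + 1)) ℂ)
    (Q : κ → MvPolynomial (Fin (n + 1)) ℂ) {s N h : ℕ}
    (hF : ∀ i, IsNested s N h (F i)) (hQ : ∀ j, IsNested s N h (Q j))
    (hN : (n + 1) * ((h + 1) * (2 * s + 1) ^ 5) ≤ N) : SpAlgQ F Q ⊆ gmPoints F Q := by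
  classical
  obtain ⟨hNb, hN2, hN1⟩ := bnd_le hN
  rintro x ⟨hx, hS⟩
  by_contra hno
  obtain ⟨G, hG1, hG2, hG3⟩ := gm_closed F Q (fun i => (tower_of hN2 hN1 (hF i)).stab)
    (fun j => (towerLog_of hN2 hN1 (hQ j)).imp fun _ h => h.stab) hx hno
  refine hG2 (hS G hG1 fun K _ _ w y hw hy hgt => ?_)
  by_contra hne
  exact hgt (maps_lgt_gm hF hQ hNb (MapQ.of_sub hy) hG3 hne)

/-- **Hyperbolicity implies log general type.** -/
theorem lgt_of_gm_ne [Finite κ] {F : ι → MvPolynomial (Fin (n + 1)) ℂ}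
    {Q : κ → MvPolynomial (Fin (n + 1)) ℂ} {s N h : ℕ}
    (hF : ∀ i, IsNested s N h (F i)) (hQ : ∀ j, IsNested s N h (Q j))
    (hN : (n + 1) * ((h + 1) * (2 * s + 1) ^ 5) ≤ N)
    (hne : gmPoints F Q ≠ Pts F Q) {K : Type} [Field K] [Algebra ℂ K] {w : ℕ}
    {y : Fin (n + 1) → K} (hy : SubVarQ F Q K w y) (hg : GenericQ F Q y) :
    LogGeneralType ℂ K w (OffAny Q y) := by
  classical
  obtain ⟨hNb, hN2, hN1⟩ := bnd_le hN
  obtain ⟨x, hx, hxg⟩ : ∃ x ∈ Pts F Q, x ∉ gmPoints F Q := by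
    by_contra hcon
    push Not at hcon
    apply hne
    refine Set.Subset.antisymm ?_ hcon
    rintro x ⟨v, t, hv, ht, rfl⟩
    exact hv.2.1 t ht
  obtain ⟨G, hG1, hG2, hG3⟩ := gm_closed F Q (fun i => (tower_of hN2 hN1 (hF i)).stab)
    (fun j => (towerLog_of hN2 hN1 (hQ j)).imp fun _ h => h.stab) hx hxg
  exact maps_lgt_gm hF hQ hNb (MapQ.of_sub hy) hG3 fun h0 => hG2 (hg G hG1 h0 x hx)

end Pool.Agent.TH710.ND
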