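import Pool.Agent.TH710.ND.Good
import Pool.Agent.TH710.ND.Kod
import Pool.Agent.W603.GY.SpAll

/-!
Log general type outside the punctured lines, for nested sums of high powers of linear forms.
-/

set_option autoImplicit false

open FF MvPolynomial IntermediateField Pool.Agent.W603.LV Pool.Agent.W603.PV Pool.Agent.W603.GR
  Pool.Agent.W602.GT Pool.Agent.W603.GW Pool.Agent.W603.GX Pool.Agent.W603.GY

namespace Pool.Agent.TH710.ND

variable {k : Type} [Field k] {n : ℕ} {ι κ : Type}

theorem nested_hom {s N h : ℕ} {Q : MvPolynomial (Fin (n + 1)) k} (hQ : IsNested s N h Q)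
    (h0 : Q ≠ 0) : Q.IsHomogeneous Q.totalDegree := by
  obtain ⟨d, hd⟩ := hQ.form
  rw [hd.totalDegree h0]
  exact hd

theorem nested_pos {s N h : ℕ} {Q : MvPolynomial (Fin (n + 1)) k} (hQ : IsNested s N h Q)
    (hN : 1 ≤ N) (h0 : Q ≠ 0) : 0 < Q.totalDegree := by
  obtain ⟨r, e, L, c, g, -, he, -, hL, hg, rfl⟩ := hQ
  have h1 := (gate_hom (L := (r, e) :: L) ⟨c, g, hg, rfl⟩).totalDegree h0
  rw [h1, List.map_cons, List.prod_cons]
  refine Nat.mul_pos (by change 0 < e; omega) ?_
  apply Nat.pos_of_ne_zero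
  rw [Ne, List.prod_eq_zero_iff, List.mem_map]
  rintro ⟨ke, hke, hke0⟩
  have := (hL ke hke).2.2
  omega

/-- **Log general type.** A variety with a generically finite morphism to `X` is of log general
type, if the image of its generic point does not lie on a punctured line in `X`. -/
theorem maps_lgt [IsAlgClosed k] [CharZero k] [Finite κ] {F : ι → MvPolynomial (Fin (n + 1)) k}
    {Q : κ → MvPolynomial (Fin (n + 1)) k} {s N h : ℕ}
    (hF : ∀ i, IsNested s N h (F i)) (hQ : ∀ j, IsNested s N h (Q j))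
    (hN : bnd n s h ≤ N) {K : Type} [Field K] [Algebra k K] {w : ℕ}
    {y : Fin (n + 1) → K} (hy : MapQ F Q K w y) :
    PunctX F Q y ∨ KodGe k K w (OffAny Q y) w := by
  classical
  by_contra hcon
  push Not at hcon
  obtain ⟨hP, hgt⟩ := hcon
  apply hP
  have hK : CharZero K := charZero_of_injective_algebraMap (algebraMap k K).injective
  have hfin := Fintype.ofFinite κ
  have hN1 : 1 ≤ N := le_trans (by unfold bnd; omega) hN
  have hwn := dim_le hy.ne hy.alg hy.dim
  have hQne : ∀ j, Q j ≠ 0 := by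
    intro j h0
    apply hy.off j
    rw [h0]
    unfold Pool.Agent.W602.GT.val
    rw [map_zero]
  have hhom : ∀ j, (Q j).IsHomogeneous (Q j).totalDegree := fun j => nested_hom (hQ j) (hQne j)
  have hdpos : ∀ j, 0 < (Q j).totalDegree := fun j => nested_pos (hQ j) hN1 (hQne j)
  obtain ⟨o, ho⟩ := exists_o hhom hy.ne hy.off
  let G : CFam k K → Prop := fun A => ∃ c',
    Gen (OffAny Q y) N (2 * s) ((h + 1) * (2 * s * (2 * s))) o IsLin y c' A
  have hGok : ∀ A, G A → A.Ok (OffAny Q y) N (2 * s) ((h + 1) * (2 * s * (2 * s))) := by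
    rintro A ⟨c', hA⟩
    exact hA.ok.1.mono hA.ok.2
  have hNw : w * ((h + 1) * (2 * s * (2 * s)) * ((2 * s + 1) * tn (2 * s - 1))) + 1 ≤ N :=
    le_trans (Nat.succ_le_succ (Nat.mul_le_mul_right _ hwn)) hN
  let u : κ → κ → K := fun j1 j => val y (Q j) ^ (Q j1).totalDegree /
    val y (Q j1) ^ (Q j).totalDegree
  obtain ⟨i0, hi0'⟩ := Function.ne_iff.1 hy.ne
  have hi0 : y i0 ≠ 0 := hi0'
  -- a base index
  obtain ⟨B, hB1, hB2⟩ : ∃ B : Set κ, (∀ a ∈ B, ∀ b ∈ B, a = b) ∧ (∀ j : κ, B.Nonempty) := by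
    by_cases hne : Nonempty κ
    · obtain ⟨j1⟩ := hne
      exact ⟨{j1}, fun a ha b hb => by
        rw [Set.mem_singleton_iff] at ha hb
        rw [ha, hb], fun _ => ⟨j1, rfl⟩⟩
    · exact ⟨∅, fun a ha => absurd ha (Set.notMem_empty a), fun j => absurd ⟨j⟩ hne⟩
  let Su' : Set K := {x | ∃ j1 ∈ B, ∃ j, j ≠ j1 ∧ x = u j1 j}
  have hSu0 : ∀ x ∈ Su', x ≠ 0 := by
    rintro x ⟨j1, -, j, -, rfl⟩
    exact div_ne_zero (pow_ne_zero _ (hy.off j)) (pow_ne_zero _ (hy.off j1))
  have hunit : ∀ P : Place k K, ¬ OffAny Q y P → ∀ x ∈ Su', P.ord x = 0 := by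
    rintro P hP x ⟨j1, -, j, -, rfl⟩
    have hμ := ho P hP
    rw [P.ord_div (pow_ne_zero _ (hy.off j)) (pow_ne_zero _ (hy.off j1)), P.ord_pow, P.ord_pow,
      hμ, hμ]
    ring
  -- the derivation
  obtain ⟨D, hD0, hD1, hD2⟩ : ∃ D : Derivation k K K, D ≠ 0 ∧
      (∀ A, G A → ∀ i a b, D (A.T i a / A.T i b) = 0) ∧
      ∀ x ∈ Su', D (D x / x) = 0 := by
    by_cases hker : ∀ D : Derivation k K K, (∀ A, G A → ∀ i a b, D (A.T i a / A.T i b) = 0) →
        (∀ x ∈ Su', D x = 0) → D = 0
    · obtain ⟨h, p, t, uu, hhp, hbasis, huu, hkill, -, hkod, hkod2⟩ := kod_fam hy.dim G hGok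
        hNw Su' hSu0 hunit hker
      have hp : 0 < p := by
        rcases Nat.eq_zero_or_pos p with hp0 | hp0
        · exfalso
          apply hgt
          have : h = w := by omega
          rw [← this]
          rw [← this] at hkod
          exact hkod
        · exact hp0
      have huu0 : ∀ q, uu q ≠ 0 := fun q => hSu0 _ (huu q)
      have hdual : ∀ q : Fin p, ∃ Dq : Derivation k K K, (∀ i, Dq (t i) = 0) ∧
          ∀ q', Dq (uu q') = if q = q' then uu q' else 0 := by
        intro q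
        obtain ⟨Dq, hDq⟩ := exists_der (Sum.elim t uu) hbasis
          (Sum.elim (fun _ => 0) (fun q' => if q = q' then uu q' else 0))
        exact ⟨Dq, fun i => hDq (Sum.inl i), fun q' => hDq (Sum.inr q')⟩
      choose Dq hDqt hDqu using hdual
      obtain ⟨E, hE0, hEt, hEE⟩ := second_order hbasis huu0 hSu0 hDqt hDqu (by
        by_contra hno
        push Not at hno
        apply hgt
        let S' : Set K := Set.range t ∪ {a | ∃ q, ∃ x ∈ Su', a = Dq q x / x}
        have halg : Algebra.IsAlgebraic (IntermediateField.adjoin k S') K :=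
          alg_of_ker hy.dim S' fun E hE => by
            by_contra hE0
            obtain ⟨q, x, hx, h1⟩ := hno E hE0 fun i => hE _ (Or.inl ⟨i, rfl⟩)
            exact h1 (hE _ (Or.inr ⟨q, x, hx, rfl⟩))
        obtain ⟨h', p', t', u', hhp', ht', hu', hb', -⟩ := basis_pick hy.dim S' S' halg
        have hmem : ∀ a ∈ S', (∃ l, a = t l) ∨ ∃ (q : Fin p) (x : K), x ∈ Su' ∧
            ∀ E : Derivation k K K, (∀ i, E (t i) = 0) → (∀ q', q' ≠ q → E (uu q') = 0) →
              E x / x = a * (E (uu q) / uu q) := by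
          rintro a (⟨l, rfl⟩ | ⟨q, x, hx, rfl⟩)
          · exact Or.inl ⟨l, rfl⟩
          · refine Or.inr ⟨q, x, hx, fun E hEt hEu => ?_⟩
            have h1 : E = (E (uu q) / uu q) • Dq q := by
              apply der_ext (Sum.elim t uu) hbasis
              rintro (i | q')
              · simp only [Sum.elim_inl, Derivation.coe_smul, Pi.smul_apply]
                rw [hEt, hDqt, smul_zero]
              · simp only [Sum.elim_inr, Derivation.coe_smul, Pi.smul_apply]
                rw [hDqu, smul_eq_mul]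
                by_cases hq : q = q'
                · subst hq
                  rw [if_pos rfl, div_mul_cancel₀ _ (huu0 _)]
                · rw [if_neg hq, mul_zero]
                  exact hEu q' fun h => hq h.symm
            have h2 : E x = (E (uu q) / uu q) * Dq q x := by
              conv_lhs => rw [h1]
              rfl
            rw [h2]
            ring
        have hb2 : AlgebraicIndependent k (Sum.elim t' u' ∘ finSumFinEquiv.symm) :=
          hb'.1.comp _ finSumFinEquiv.symm.injective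
        have h3 := hkod2 (h' + p') (Sum.elim t' u' ∘ finSumFinEquiv.symm) hb2 fun i => by
          simp only [Function.comp_apply]
          rcases finSumFinEquiv.symm i with l | l
          · exact hmem _ (ht' l)
          · exact hmem _ (hu' l)
        rw [hhp'] at h3
        exact h3)
      exact ⟨E, hE0, hkill E hEt, hEE⟩
    · push Not at hker
      obtain ⟨D, h1, h2, h3⟩ := hker
      exact ⟨D, h3, h1, fun x hx => by rw [h2 x hx, zero_div, map_zero]⟩
  obtain ⟨lq, hG, hlq⟩ := good_of (W := consts D) hF hQ hN1 hy.mem hy.off ho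
    (fun z d hd h => consts_root D z d hd h) (fun c' A hA i a b => hD1 A ⟨c', hA⟩ i a b)
  obtain ⟨ls, hls, hls2, hls3⟩ : ∃ ls : Fin (n + 1) → k, lin ls y ≠ 0 ∧
      (∀ j1 ∈ B, ls = lq j1) ∧ (Nonempty κ → ∃ j1, ls = lq j1) := by
    by_cases hne : B.Nonempty
    · obtain ⟨j1, hj1⟩ := hne
      exact ⟨lq j1, hG.lq_ne j1, fun b hb => by rw [hB1 j1 hj1 b hb], fun _ => ⟨j1, rfl⟩⟩
    · exact ⟨Pi.single i0 1, by rw [lin_single]; exact hi0, fun j1 hj1 => absurd ⟨j1, hj1⟩ hne,
        fun ⟨j⟩ => absurd (hB2 j) hne⟩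
  refine punct_of_der hy.ne hy.alg hD0 hG hls hls3 fun j => ?_
  obtain ⟨j1, hj1⟩ := hB2 j
  rw [hls2 j1 hj1]
  by_cases hj : j = j1
  · rw [hj, div_self (hG.lq_ne j1), D.map_one_eq_zero, zero_div, map_zero]
  · exact ld_ratio D (hG.lq_ne j) (hG.lq_ne j1) (hy.off j) (hy.off j1) (hdpos j) (hdpos j1)
      (hlq j) (hlq j1) (hD2 _ ⟨j1, hj1, j, hj, rfl⟩)

end Pool.Agent.TH710.ND
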