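import Pool.Agent.TH710.ND.MapsLgt
import Pool.Agent.W602.GT.KGen

/-!
Components of projective varieties given by nested sums of high powers of linear forms: general type
or ruled.
-/

set_option autoImplicit false

open FF MvPolynomial IntermediateField Pool.Agent.W603.LV Pool.Agent.W603.PV Pool.Agent.W603.GR
  Pool.Agent.W602.GT Pool.Agent.W603.GW Pool.Agent.W603.GX Pool.Agent.W603.GY

namespace Pool.Agent.TH710.ND

variable {k : Type} [Field k] {n : ℕ} {ι : Type}

/-- the line through the generic point -/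
def CovLine {K : Type} [Field K] [Algebra k K] (y : Fin (n + 1) → K) : Prop :=
  ∃ v : Fin (n + 1) → K, (∃ i j, y i * v j - y j * v i ≠ 0) ∧
    ∀ G : MvPolynomial (Fin (n + 1)) k, IsForm G → val y G = 0 → ∀ t : K,
      val (fun l => y l + t * v l) G = 0

/-- a vector field which kills the ratios of all circuits, or general type -/
theorem der_of_not_general [IsAlgClosed k] [CharZero k] {F : ι → MvPolynomial (Fin (n + 1)) k}
    {s N h : ℕ} (hF : ∀ i, IsNested s N h (F i)) (hN : bnd n s h ≤ N) {K : Type} [Field K]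
    [Algebra k K] {w : ℕ} {y : Fin (n + 1) → K} (hy0 : y ≠ 0)
    (halg : Algebra.IsAlgebraic (coords k y) K) (hdim : Algebra.trdeg k K = w)
    (hmem : ∀ i, val y (F i) = 0) (hgt : ¬ GeneralType k K w) :
    ∃ D : Derivation k K K, D ≠ 0 ∧ Good F (Empty.elim : Empty → MvPolynomial (Fin (n + 1)) k) y
      (PrC (consts D) y) Empty.elim := by
  classical
  have hN1 : 1 ≤ N := le_trans (by unfold bnd; omega) hN
  have hwn := dim_le hy0 halg hdim
  let Q : Empty → MvPolynomial (Fin (n + 1)) k := Empty.elim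
  have hoff : ∀ j, val y (Q j) ≠ 0 := fun j => j.elim
  have ho : ∀ P : Place k K, ¬ OffAny Q y P → ∀ j, P.ord (val y (Q j)) =
      (Q j).totalDegree * (0 : ℤ) := fun P _ j => j.elim
  let G : CFam k K → Prop := fun A => ∃ c',
    Gen (OffAny Q y) N (2 * s) ((h + 1) * (2 * s * (2 * s))) (fun _ => 0) IsLin y c' A
  have hGok : ∀ A, G A → A.Ok (OffAny Q y) N (2 * s) ((h + 1) * (2 * s * (2 * s))) := by
    rintro A ⟨c', hA⟩
    exact hA.ok.1.mono hA.ok.2
  have hNw : w * ((h + 1) * (2 * s * (2 * s)) * ((2 * s + 1) * tn (2 * s - 1))) + 1 ≤ N :=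
    le_trans (Nat.succ_le_succ (Nat.mul_le_mul_right _ hwn)) hN
  by_cases hker : ∀ D : Derivation k K K, (∀ A, G A → ∀ i a b, D (A.T i a / A.T i b) = 0) →
      (∀ x ∈ (∅ : Set K), D x = 0) → D = 0
  · exfalso
    obtain ⟨h, p, t, uu, hhp, hbasis, huu, hkill, -, hkod, hkod2⟩ := kod_fam hdim G hGok
      hNw ∅ (fun x hx => absurd hx (Set.notMem_empty x))
      (fun P _ x hx => absurd hx (Set.notMem_empty x)) hker
    have hp : p = 0 := by
      by_contra hp
      exact absurd (huu ⟨0, Nat.pos_of_ne_zero hp⟩) (Set.notMem_empty _)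
    apply hgt
    have hw : h = w := by omega
    subst hw
    have h1 := lgt_of_kod hdim hkod
    have h2 : OffAny Q y = fun _ : Place k K => False := by
      funext P
      apply propext
      constructor
      · rintro ⟨j, -⟩
        exact j.elim
      · exact fun h => h.elim
    rw [h2] at h1
    exact general_of_log h1
  · push Not at hker
    obtain ⟨D, h1, -, h3⟩ := hker
    obtain ⟨lq, hG, -⟩ := good_of (W := consts D) (Q := Q) (o := fun _ => 0) hF
      (fun j => j.elim) hN1 hmem hoff ho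
      (fun z d hd h => consts_root D z d hd h) (fun c' A hA i a b => h1 A ⟨c', hA⟩ i a b)
    have hlq : lq = Empty.elim := by
      funext j
      exact j.elim
    rw [hlq] at hG
    exact ⟨D, h3, hG⟩

/-- **The dichotomy.** -/
theorem general_or_ruled [IsAlgClosed k] [CharZero k] {F : ι → MvPolynomial (Fin (n + 1)) k}
    {s N h : ℕ} (hF : ∀ i, IsNested s N h (F i)) (hN : bnd n s h ≤ N) {K : Type} [Field K]
    [Algebra k K] {w : ℕ} {y : Fin (n + 1) → K} (hy : SubVar F K w y) (hcomp : IsComponent F y)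
    (hgt : ¬ GeneralType k K w) :
    CovLine (k := k) y ∧ ∃ (C : IntermediateField k K) (σ : K), Transcendental C σ ∧ C⟮σ⟯ = ⊤ := by
  have halg : Algebra.IsAlgebraic (coords k y) K := by
    rw [hy.gen]
    infer_instance
  obtain ⟨D, hD0, hG⟩ := der_of_not_general hF hN hy.ne halg hy.dim hy.mem hgt
  obtain ⟨i0, hi0'⟩ := Function.ne_iff.1 hy.ne
  have hi0 : y i0 ≠ 0 := hi0'
  have hyQ : SubVarQ F (Empty.elim : Empty → MvPolynomial (Fin (n + 1)) k) K w y :=
    ⟨hy.ne, hy.mem, fun j => j.elim, hy.gen, hy.dim⟩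
  have hcompQ : IsComponentQ F (Empty.elim : Empty → MvPolynomial (Fin (n + 1)) k) y := by
    obtain ⟨H, h1, h2, h3⟩ := hcomp
    exact ⟨H, h1, h2, fun x hx => h3 x ⟨hx.1, hx.2.1⟩⟩
  have hG' : Good F (Empty.elim : Empty → MvPolynomial (Fin (n + 1)) k) y (PrD D y) Empty.elim :=
    hG
  obtain ⟨C, c, τ, z, e, hfd, h1, h2, h3, h4⟩ := flow_of_der (fun j => j.elim) hyQ hcompQ hD0 hG'
    (ls := Pi.single i0 1) (by rw [lin_single]; exact hi0)
  exact ⟨⟨e, h2, h3⟩, C, τ, hfd.trans, hfd.top⟩

end Pool.Agent.TH710.ND
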