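import Pool.Agent.TH710.ND.Core
import Pool.Agent.W602.GT.Sys

/-!
Finite families of circuits whose orders jump, and the dichotomy: log general type, or a vector
field that kills all ratios.
-/

set_option autoImplicit false

open FF Pool.Agent.W603.LV Pool.Agent.W602.GT

namespace Pool.Agent.TH710.ND

variable {k K : Type} [Field k] [Field K] [Algebra k K]

/-- a finite family of circuits: minimal vanishing sums -/
structure CFam (k K : Type) [Field k] [Field K] [Algebra k K] where
  I : Type
  fin : Fintype I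
  m : I → ℕ
  T : ∀ i, Fin (m i + 1) → K
  ne : ∀ i j, T i j ≠ 0
  sum : ∀ i, ∑ j, T i j = 0
  lin : ∀ i, LinearIndependent k (fun l => T i ((Fin.last (m i)).succAbove l))

/-- the orders of the members of each circuit are equal -/
def CFam.Const (A : CFam k K) (P : Place k K) : Prop := ∀ i j l, P.ord (A.T i j) = P.ord (A.T i l)

/-- two members of some circuit have orders which differ by at least `N` -/
def CFam.Jump (A : CFam k K) (P : Place k K) (N : ℕ) : Prop :=
  ∃ i j l, (N : ℤ) ≤ |P.ord (A.T i j) - P.ord (A.T i l)|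

/-- The family has at most `c` circuits with at most `s` members, and at each place outside `Bd`
there is a jump if the orders are not constant. -/
structure CFam.Ok (A : CFam k K) (Bd : Place k K → Prop) (N s c : ℕ) : Prop where
  card : @Fintype.card A.I A.fin ≤ c
  sz : ∀ i, A.m i + 1 ≤ s
  dich : ∀ P, ¬ Bd P → A.Const P ∨ A.Jump P N

/-- the union of finitely many families -/
def CFam.sigma {J : Type} [Fintype J] (A : J → CFam k K) : CFam k K where
  I := Σ j, (A j).I
  fin := @Sigma.instFintype J (fun j => (A j).I) (fun j => (A j).fin) _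
  m := fun x => (A x.1).m x.2
  T := fun x => (A x.1).T x.2
  ne := fun x => (A x.1).ne x.2
  sum := fun x => (A x.1).sum x.2
  lin := fun x => (A x.1).lin x.2

theorem CFam.sigma_const {J : Type} [Fintype J] {A : J → CFam k K} {P : Place k K} :
    (CFam.sigma A).Const P ↔ ∀ j, (A j).Const P :=
  ⟨fun h j i => h ⟨j, i⟩, fun h x => h x.1 x.2⟩

theorem CFam.sigma_jump {J : Type} [Fintype J] {A : J → CFam k K} {P : Place k K} {N : ℕ} :
    (CFam.sigma A).Jump P N ↔ ∃ j, (A j).Jump P N :=
  ⟨fun ⟨x, h⟩ => ⟨x.1, x.2, h⟩, fun ⟨j, i, h⟩ => ⟨⟨j, i⟩, h⟩⟩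

theorem CFam.sigma_card {J : Type} [Fintype J] (A : J → CFam k K) :
    @Fintype.card (CFam.sigma A).I (CFam.sigma A).fin = ∑ j, @Fintype.card (A j).I (A j).fin := by
  exact @Fintype.card_sigma J (fun j => (A j).I) _ (fun j => (A j).fin)

theorem CFam.sigma_ok {J : Type} [Fintype J] {A : J → CFam k K} {Bd : Place k K → Prop}
    {N s : ℕ} {c : J → ℕ} (h : ∀ j, (A j).Ok Bd N s (c j)) :
    (CFam.sigma A).Ok Bd N s (∑ j, c j) := by
  refine ⟨?_, fun x => (h x.1).sz x.2, fun P hP => ?_⟩
  · rw [CFam.sigma_card]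
    exact Finset.sum_le_sum fun j _ => (h j).card
  · rw [CFam.sigma_const, CFam.sigma_jump]
    by_cases hc : ∀ j, (A j).Const P
    · exact Or.inl hc
    · push Not at hc
      obtain ⟨j, hj⟩ := hc
      exact Or.inr ⟨j, ((h j).dich P hP).resolve_left hj⟩

theorem CFam.Ok.mono {A : CFam k K} {Bd : Place k K → Prop} {N s c c' : ℕ}
    (h : A.Ok Bd N s c) (hc : c ≤ c') : A.Ok Bd N s c' :=
  ⟨h.card.trans hc, h.sz, h.dich⟩

/-- the empty family -/
def CFam.empty (k K : Type) [Field k] [Field K] [Algebra k K] : CFam k K where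
  I := Empty
  fin := inferInstance
  m := Empty.elim
  T := fun i => i.elim
  ne := fun i => i.elim
  sum := fun i => i.elim
  lin := fun i => i.elim

theorem CFam.empty_ok {Bd : Place k K → Prop} {N s c : ℕ} : (CFam.empty k K).Ok Bd N s c :=
  ⟨by
    have : @Fintype.card (CFam.empty k K).I (CFam.empty k K).fin = 0 := rfl
    rw [this]
    exact Nat.zero_le _, fun i => i.elim, fun _ _ => Or.inl fun i => i.elim⟩

/-- one circuit -/
def CFam.single {m : ℕ} (T : Fin (m + 1) → K) (ne : ∀ j, T j ≠ 0) (sum : ∑ j, T j = 0)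
    (lin : LinearIndependent k (fun l => T ((Fin.last m).succAbove l))) : CFam k K where
  I := Unit
  fin := inferInstance
  m := fun _ => m
  T := fun _ => T
  ne := fun _ => ne
  sum := fun _ => sum
  lin := fun _ => lin

/-- **The dichotomy.** -/
theorem fam_dich [IsAlgClosed k] [CharZero k] {w : ℕ} (hw : 0 < w) (htr : Algebra.trdeg k K = w)
    (Bd : Place k K → Prop) {N s c : ℕ} (hN : w * (c * ((s + 1) * tn (s - 1))) ≤ N) :
    LogGeneralType k K w Bd ∨ ∃ D : Derivation k K K, D ≠ 0 ∧
      ∀ A : CFam k K, A.Ok Bd N s c → ∀ i a b, D (A.T i a / A.T i b) = 0 := by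
  classical
  let S : Set K := {x | ∃ A : CFam k K, A.Ok Bd N s c ∧ ∃ i a b, x = A.T i a / A.T i b}
  obtain ⟨x0, hx0⟩ := basis_of_trdeg htr
  by_cases halg : Algebra.IsAlgebraic (IntermediateField.adjoin k S) K
  · left
    have halg' := alg_adjoin halg
    obtain ⟨B, hB, hBb⟩ := exists_isTranscendenceBasis_subset (R := k) (A := K) S
    have hcard := hx0.lift_cardinalMk_eq hBb
    rw [Cardinal.mk_fin] at hcard
    obtain ⟨φ⟩ : Nonempty (Fin w ≃ B) := by
      rw [← Cardinal.eq, Cardinal.mk_fin]
      have := hcard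
      simpa using this
    set t : Fin w → K := fun i => (φ i : K) with ht
    have htb : IsTranscendenceBasis k t := hBb.comp_equiv φ
    have hmem : ∀ i, t i ∈ S := fun i => hB (φ i).2
    choose A hA i a b hab using hmem
    let F : CFam k K := CFam.sigma A
    have hF : F.Ok Bd N s (∑ _j : Fin w, c) := CFam.sigma_ok hA
    let _ : Fintype F.I := F.fin
    let y0 : F.I → K := fun x => if x.2 = i x.1 then (A x.1).T (i x.1) (b x.1) else F.T x 0
    let y1 : F.I → K := fun x => if x.2 = i x.1 then (A x.1).T (i x.1) (a x.1) else F.T x 0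
    have hy0 : ∀ x, ∃ j, y0 x = F.T x j := by
      rintro ⟨j, x⟩
      by_cases hx : x = i j
      · subst hx
        refine ⟨b j, ?_⟩
        simp only [y0, if_true]
        rfl
      · exact ⟨0, by simp only [y0]; rw [if_neg hx]⟩
    have hy1 : ∀ x, ∃ j, y1 x = F.T x j := by
      rintro ⟨j, x⟩
      by_cases hx : x = i j
      · subst hx
        refine ⟨a j, ?_⟩
        simp only [y1, if_true]
        rfl
      · exact ⟨0, by simp only [y1]; rw [if_neg hx]⟩
    obtain ⟨hpos, g', h0, h1, h2⟩ := core' (m := F.m) F.T hw F.ne F.sum F.lin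
      (fun j => (⟨j, i j⟩ : F.I)) hy0 hy1 t (fun j => by
        simp only [y0, y1, if_true]
        exact hab j) htb
    have hwt : wtI F.m ≤ N := by
      refine le_trans ?_ hN
      unfold wtI
      calc ∑ x, (F.m x + 2) * tn (F.m x) ≤ ∑ _x : F.I, (s + 1) * tn (s - 1) := by
            refine Finset.sum_le_sum fun x _ => ?_
            have h3 := hF.sz x
            exact Nat.mul_le_mul (by omega) (tn_mono (by omega))
        _ = Fintype.card F.I * ((s + 1) * tn (s - 1)) := by simp
        _ ≤ (w * c) * ((s + 1) * tn (s - 1)) := by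
            refine Nat.mul_le_mul_right _ ?_
            have h3 := hF.card
            simpa using h3
        _ = w * (c * ((s + 1) * tn (s - 1))) := by ring
    refine ⟨htr, wtI F.m, hpos, fun j => form t (wtI F.m) (g' j), fun j => form_pluri t _ (g' j),
      fun P _ j => (h2 P).1 j, fun P _ hP j => (h2 P).2 ?_ j, ?_⟩
    · rcases hF.dich P hP with h | ⟨i, j, l, h⟩
      · exact Or.inl h
      · exact Or.inr ⟨i, j, l, le_trans (by exact_mod_cast hwt) h⟩
    · obtain ⟨D, hD⟩ := exists_dual htb
      have hf : ∀ j, form t (wtI F.m) (g' j) D = g' j := fun j => by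
        unfold form
        rw [hD, Matrix.det_one, one_pow, mul_one]
      refine ⟨D, by change form t (wtI F.m) (g' 0) D ≠ 0; rw [hf]; exact h0, ?_⟩
      simp only [hf, h1]
      exact htb.1
  · right
    obtain ⟨D, hD0, hD⟩ := exists_der_over S halg
    exact ⟨D, hD0, fun A hA i a b => hD _ ⟨A, hA, i, a, b, rfl⟩⟩

end Pool.Agent.TH710.ND
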