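import Pool.Agent.W602.GT.Dich

/-!
Pluricanonical forms from finite families of circuits.
-/

set_option autoImplicit false

open FF Pool.Agent.W603.LV Pool.Agent.W602.GT

namespace Pool.Agent.TH710.ND

variable {k K : Type} [Field k] [Field K] [Algebra k K]

/-- the weight of the forms of a family -/
def wtI {I : Type} [Fintype I] (m : I → ℕ) : ℕ := ∑ i, (m i + 2) * tn (m i)

variable {w : ℕ} {I : Type} [Fintype I] {m : I → ℕ} (T : ∀ i, Fin (m i + 1) → K)

/-- the product of the factors -/
noncomputable def GI (E : Derivation k K K) (x : I → K) : K :=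
  ∏ i, (eta E (T i) ^ (m i + 2) * (∏ j, T i j) * x i)

theorem GI_smul (δ : K) (D : Derivation k K K) (x : I → K) :
    GI T (δ • D) x = δ ^ (wtI m) * GI T D x := by
  unfold GI wtI
  rw [← Finset.prod_pow_eq_pow_sum, ← Finset.prod_mul_distrib]
  refine Finset.prod_congr rfl fun i _ => ?_
  rw [eta_smul, mul_pow, ← pow_mul, mul_comm (m i + 2)]
  unfold tn
  ring

theorem GI_fac (E : Derivation k K K) {x : I → K} (c : ∀ i, Fin (m i + 1))
    (hc : ∀ i, x i = T i (c i)) : GI T E x = ∏ i, fac E (T i) (c i) := by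
  unfold GI fac
  exact Finset.prod_congr rfl fun i _ => by rw [hc]

theorem ge_GI {P : Place k K} {E : Derivation k K K} (hT : ∀ i j, T i j ≠ 0)
    {b : ∀ i, Fin (m i + 1)} (hb : ∀ i j, P.ord (T i (b i)) ≤ P.ord (T i j)) {ε : ℤ}
    (h : ∀ i, Ge P (- P.ord (T i (b i)) - ε * tri (m i)) (eta E (T i)))
    {x : I → K} (hx : ∀ i, ∃ j, x i = T i j) :
    Ge P (∑ i, ∑ j, (P.ord (T i j) - P.ord (T i (b i))) - ε * wtI m) (GI T E x) := by
  choose c hc using hx
  rw [GI_fac T E c hc]
  have h1 := Ge.prod (P := P) Finset.univ (fun i => fac E (T i) (c i))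
    (fun i => ∑ j, (P.ord (T i j) - P.ord (T i (b i))) - ε * ((m i + 2) * tn (m i) : ℕ))
    (fun i _ => ge_fac (hb i) (h i) (hT i) (c i))
  refine h1.mono ?_
  rw [Finset.sum_sub_distrib, ← Finset.mul_sum]
  unfold wtI
  push_cast
  exact le_rfl

/-- **Pluricanonical forms.** Let `T i` be finitely many circuits over `k`, and `t j` ratios of two
members of circuits which form a transcendence basis of `K`. Then there are
pluricanonical forms of weight `wtI m` with ratios `t j`, with logarithmic poles only, and regular at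
all places where the orders of the members of each circuit are equal, or two members of some circuit
have orders which differ by at least `wtI m`. -/
theorem core' [IsAlgClosed k] [CharZero k] (hw : 0 < w) (hT : ∀ i j, T i j ≠ 0)
    (hsum : ∀ i, ∑ j, T i j = 0)
    (hlin : ∀ i, LinearIndependent k (fun l => T i ((Fin.last (m i)).succAbove l)))
    (ix : Fin w → I) {x0 x1 : I → K}
    (hx0 : ∀ i, ∃ j, x0 i = T i j) (hx1 : ∀ i, ∃ j, x1 i = T i j)
    (t : Fin w → K) (ht : ∀ j, t j = x1 (ix j) / x0 (ix j))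
    (hbasis : IsTranscendenceBasis k t) :
    0 < wtI m ∧ ∃ g : Fin (w + 1) → K, g 0 ≠ 0 ∧ (∀ i : Fin w, g i.succ / g 0 = t i) ∧
      ∀ P : Place k K, (∀ j, LogAt P (form t (wtI m) (g j))) ∧
        (((∀ i j l, P.ord (T i j) = P.ord (T i l)) ∨
          ∃ i j l, (wtI m : ℤ) ≤ |P.ord (T i j) - P.ord (T i l)|) →
          ∀ j, RegAt P (form t (wtI m) (g j))) := by
  classical
  obtain ⟨lam, hlam⟩ := exists_lam k w
  obtain ⟨D0, hD0⟩ := exists_der t hbasis (fun j => algebraMap k K (lam j) * t j)
  have hx0n : ∀ i, x0 i ≠ 0 := fun i => by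
    obtain ⟨j, hj⟩ := hx0 i
    rw [hj]
    exact hT i j
  have hx1n : ∀ i, x1 i ≠ 0 := fun i => by
    obtain ⟨j, hj⟩ := hx1 i
    rw [hj]
    exact hT i j
  have ht0 : ∀ j, t j ≠ 0 := fun j => by
    rw [ht]
    exact div_ne_zero (hx1n _) (hx0n _)
  have hconst : ∀ h, D0 h = 0 → ∃ c : k, h = algebraMap k K c := fun h hh =>
    const_of_der t hbasis lam hlam D0 hD0 hh
  have heta0 : ∀ i, eta D0 (T i) ≠ 0 := fun i =>
    div_ne_zero (wr_ne hconst _ (hlin i)) (Finset.prod_ne_zero_iff.2 fun j _ => hT i j)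
  have hGI0 : ∀ x : I → K, (∀ i, x i ≠ 0) → GI T D0 x ≠ 0 := fun x hx =>
    Finset.prod_ne_zero_iff.2 fun i _ => mul_ne_zero (mul_ne_zero (pow_ne_zero _ (heta0 i))
      (Finset.prod_ne_zero_iff.2 fun j _ => hT i j)) (hx i)
  have hpt : (∏ j, t j) ≠ 0 := Finset.prod_ne_zero_iff.2 fun j _ => ht0 j
  set N := wtI m with hN
  have hpos : 0 < N := by
    rw [Nat.pos_iff_ne_zero]
    intro h0
    rw [hN, wtI, Finset.sum_eq_zero_iff] at h0
    have h1 := h0 (ix ⟨0, hw⟩) (Finset.mem_univ _)
    have h2 : tn (m (ix ⟨0, hw⟩)) = 0 := by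
      rcases Nat.mul_eq_zero.1 h1 with h | h
      · omega
      · exact h
    have h3 : m (ix ⟨0, hw⟩) ≤ 1 := by
      by_contra hcon
      rw [tn, Finset.sum_eq_zero_iff] at h2
      have := h2 ⟨1, by omega⟩ (Finset.mem_univ _)
      simp at this
    obtain ⟨j1, hj1⟩ := hx1 (ix ⟨0, hw⟩)
    obtain ⟨j0, hj0⟩ := hx0 (ix ⟨0, hw⟩)
    obtain ⟨c, hc⟩ := ratio_const (k := k) h3 (T (ix ⟨0, hw⟩)) (hT _) (hsum _) j1 j0
    rw [← hj1, ← hj0, ← ht] at hc
    have h4 := hbasis.1.transcendental ⟨0, hw⟩
    rw [hc] at h4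
    exact h4 (isAlgebraic_algebraMap c)
  let xx : Fin (w + 1) → I → K :=
    Fin.cases x0 fun j => Function.update x0 (ix j) (x1 (ix j))
  have hxx : ∀ j i, ∃ l, xx j i = T i l := by
    intro j
    refine Fin.cases (fun i => hx0 i) (fun j i => ?_) j
    change ∃ l, Function.update x0 (ix j) (x1 (ix j)) i = T i l
    by_cases hi : i = ix j
    · subst hi
      rw [Function.update_self]
      exact hx1 _
    · rw [Function.update_of_ne hi]
      exact hx0 i
  have hxxn : ∀ j i, xx j i ≠ 0 := fun j i => by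
    obtain ⟨l, hl⟩ := hxx j i
    rw [hl]
    exact hT i l
  refine ⟨hpos, fun j => GI T D0 (xx j) / (∏ j, t j) ^ N, div_ne_zero (hGI0 _ (hxxn 0))
    (pow_ne_zero _ hpt), ?_, ?_⟩
  · intro j
    have h1 : GI T D0 (xx j.succ) = GI T D0 (xx 0) * t j := by
      change GI T D0 (Function.update x0 (ix j) (x1 (ix j))) = GI T D0 x0 * t j
      unfold GI
      rw [← Finset.mul_prod_erase Finset.univ _ (Finset.mem_univ (ix j)),
        ← Finset.mul_prod_erase Finset.univ (fun i => eta D0 (T i) ^ (m i + 2) *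
          (∏ j, T i j) * x0 i) (Finset.mem_univ (ix j))]
      have h2 : ∏ x ∈ Finset.univ.erase (ix j), (eta D0 (T x) ^ (m x + 2) * (∏ j, T x j) *
          Function.update x0 (ix j) (x1 (ix j)) x)
          = ∏ x ∈ Finset.univ.erase (ix j), (eta D0 (T x) ^ (m x + 2) * (∏ j, T x j) * x0 x) := by
        refine Finset.prod_congr rfl fun x hx => ?_
        rw [Function.update_of_ne (Finset.ne_of_mem_erase hx)]
      rw [h2, Function.update_self, ht j]
      have := hx0n (ix j)
      field_simp
    change GI T D0 (xx j.succ) / (∏ j, t j) ^ N / (GI T D0 (xx 0) / (∏ j, t j) ^ N) = t j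
    rw [h1]
    have h3 := hGI0 (xx 0) (hxxn 0)
    field_simp
  · intro P
    -- a member of minimal order in each circuit
    have hmin : ∀ i, ∃ b' : Fin (m i + 1), ∀ j, P.ord (T i b') ≤ P.ord (T i j) := fun i =>
      Finite.exists_min _
    choose b' hb' using hmin
    have hkey : ∀ (D : Fin w → Derivation k K K) (x : I → K),
        GI T D0 x / (∏ j, t j) ^ N * (Matrix.of fun i j => D i (t j)).det ^ N
          = GI T (con t lam D) x := by
      intro D x
      have h1 : con t lam D = (lmat t D).det • D0 := by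
        apply der_ext t hbasis
        intro l
        rw [con_t t lam D ht0 l, Derivation.coe_smul, Pi.smul_apply, hD0, smul_eq_mul]
        ring
      have h2 : (Matrix.of fun i j => D i (t j)).det = (∏ j, t j) * (lmat t D).det := by
        rw [← Matrix.det_mul_row]
        congr 1
        ext i j
        simp only [Matrix.of_apply, lmat]
        have := ht0 j
        field_simp
      rw [h1, GI_smul, h2, mul_pow, ← hN]
      field_simp
    refine ⟨fun j D hD => ?_, fun hP j D hD => ?_⟩
    · unfold form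
      rw [hkey, reg_iff_ge]
      have h1 := ge_GI T (E := con t lam D) hT hb' (ε := 0) (fun i => by
        have hE : ∀ x : K, x ≠ 0 → Ge P (-0) (con t lam D x / x) := fun x hx => by
          rw [neg_zero]
          exact con_log t lam D hD x
        exact eta_log hE (hT i) (hsum i) (b' i)) (hxx j)
      refine h1.mono ?_
      rw [zero_mul, sub_zero]
      exact Finset.sum_nonneg fun i _ => Finset.sum_nonneg fun j _ => sub_nonneg.2 (hb' i j)
    · unfold form
      rw [hkey, reg_iff_ge]
      rcases hP with hall | ⟨i0, j0, l0, hij⟩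
      · have ht0' : ∀ j, P.ord (t j) = 0 := by
          intro j
          obtain ⟨j1, hj1⟩ := hx1 (ix j)
          obtain ⟨j2, hj2⟩ := hx0 (ix j)
          rw [ht, hj1, hj2, P.ord_div (hT _ _) (hT _ _), hall (ix j) j1 j2, sub_self]
        have hE := con_reg t lam D hD ht0 ht0'
        have h1 := ge_GI T (E := con t lam D) hT hb' (ε := 0) (fun i => by
          rw [zero_mul, sub_zero]
          exact eta_reg hE (hT i) (hsum i) (b' i) (fun j => hall i j _)) (hxx j)
        refine h1.mono ?_
        rw [zero_mul, sub_zero]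
        exact Finset.sum_nonneg fun i _ => Finset.sum_nonneg fun j _ => sub_nonneg.2 (hb' i j)
      · have h1 := ge_GI T (E := con t lam D) hT hb' (ε := 1) (fun i => by
          have hE : ∀ x : K, x ≠ 0 → Ge P (-1) (con t lam D x / x) := fun x hx =>
            con_pole t lam D hD ht0 hx
          exact eta_log hE (hT i) (hsum i) (b' i)) (hxx j)
        refine h1.mono ?_
        rw [one_mul]
        have h5 : ∃ j, (N : ℤ) ≤ P.ord (T i0 j) - P.ord (T i0 (b' i0)) := by
          have e1 := hb' i0 j0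
          have e2 := hb' i0 l0
          rcases abs_cases (P.ord (T i0 j0) - P.ord (T i0 l0)) with ⟨h, -⟩ | ⟨h, -⟩
          · exact ⟨j0, by linarith⟩
          · exact ⟨l0, by linarith⟩
        obtain ⟨j1, h2⟩ := h5
        have h3 : P.ord (T i0 j1) - P.ord (T i0 (b' i0))
            ≤ ∑ i, ∑ j, (P.ord (T i j) - P.ord (T i (b' i))) := by
          refine le_trans ?_ (Finset.single_le_sum
            (f := fun i => ∑ j, (P.ord (T i j) - P.ord (T i (b' i))))
            (fun i _ => Finset.sum_nonneg fun j _ => sub_nonneg.2 (hb' i j)) (Finset.mem_univ i0))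
          exact Finset.single_le_sum (f := fun j => P.ord (T i0 j) - P.ord (T i0 (b' i0)))
            (fun j _ => sub_nonneg.2 (hb' i0 j)) (Finset.mem_univ j1)
        linarith

end Pool.Agent.TH710.ND
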