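import Pool.Agent.TH710.ND.Fam
import Pool.Agent.W603.GY.Kod2

/-!
Pluricanonical forms from finite families of circuits, with an additional factor, the logarithmic
form of another system of functions.
-/

set_option autoImplicit false

open FF Pool.Agent.W603.LV Pool.Agent.W602.GT Pool.Agent.W603.GX Pool.Agent.W603.GY

namespace Pool.Agent.TH710.ND

variable {k K : Type} [Field k] [Field K] [Algebra k K]

/-- **Pluricanonical forms with an additional factor.** -/
theorem coreU [IsAlgClosed k] [CharZero k] {w : ℕ} {I : Type} [Fintype I] {m : I → ℕ}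
    (T : ∀ i, Fin (m i + 1) → K)
    (hT : ∀ i j, T i j ≠ 0) (hsum : ∀ i, ∑ j, T i j = 0)
    (hlin : ∀ i, LinearIndependent k (fun l => T i ((Fin.last (m i)).succAbove l)))
    (x : Fin w → K) (hx0 : ∀ q, x q ≠ 0) (hbasis : IsTranscendenceBasis k x) :
    ∃ g : (I → K) → K, (∀ c, (∀ i, ∃ j, c i = T i j) → g c ≠ 0) ∧
      (∀ c c', g c * ∏ i, c' i = g c' * ∏ i, c i) ∧
      ∀ (x' : Fin w → K) (ρ : K), (∀ q, x' q ≠ 0) →
        (∀ D : Fin w → Derivation k K K, (lmat x' D).det = ρ * (lmat x D).det) →
        ∀ (P : Place k K) (c : I → K), (∀ i, ∃ j, c i = T i j) →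
        LogAt P (form x (wtI m + 1) (ρ * g c)) ∧
        ((((∀ i j l, P.ord (T i j) = P.ord (T i l)) ∧ (∀ q, P.ord (x q) = 0) ∧
            ∀ q, P.ord (x' q) = 0) ∨
          ∃ i j l, ((wtI m + 1 : ℕ) : ℤ) ≤ |P.ord (T i j) - P.ord (T i l)|) →
          RegAt P (form x (wtI m + 1) (ρ * g c))) := by
  classical
  obtain ⟨lam, hlam⟩ := exists_lam k w
  obtain ⟨D0, hD0⟩ := exists_der x hbasis (fun j => algebraMap k K (lam j) * x j)
  have hconst : ∀ h, D0 h = 0 → ∃ c : k, h = algebraMap k K c := fun h hh =>
    const_of_der x hbasis lam hlam D0 hD0 hh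
  have heta0 : ∀ i, eta D0 (T i) ≠ 0 := fun i =>
    div_ne_zero (wr_ne hconst _ (hlin i)) (Finset.prod_ne_zero_iff.2 fun j _ => hT i j)
  have hGG0 : ∀ c : I → K, (∀ i, ∃ j, c i = T i j) → GI T D0 c ≠ 0 := fun c hc =>
    Finset.prod_ne_zero_iff.2 fun i _ => mul_ne_zero (mul_ne_zero (pow_ne_zero _ (heta0 i))
      (Finset.prod_ne_zero_iff.2 fun j _ => hT i j)) (by
        obtain ⟨j, hj⟩ := hc i
        rw [hj]
        exact hT i j)
  have hpt : (∏ j, x j) ≠ 0 := Finset.prod_ne_zero_iff.2 fun j _ => hx0 j
  set N := wtI m + 1 with hN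
  refine ⟨fun c => GI T D0 c / (∏ j, x j) ^ N, fun c hc => div_ne_zero (hGG0 _ hc)
    (pow_ne_zero _ hpt), ?_, ?_⟩
  · intro c c'
    have h1 : ∀ c : I → K, GI T D0 c =
        (∏ i, eta D0 (T i) ^ (m i + 2) * ∏ j, T i j) * ∏ i, c i := by
      intro c
      unfold GI
      rw [Finset.prod_mul_distrib]
    beta_reduce
    rw [h1 c, h1 c']
    ring
  · intro x' ρ hx0' hρ P c hc
    have hmin : ∀ i, ∃ b' : Fin (m i + 1), ∀ j, P.ord (T i b') ≤ P.ord (T i j) := fun i =>
      Finite.exists_min _
    choose b' hb' using hmin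
    have hkey : ∀ (D : Fin w → Derivation k K K),
        ρ * (GI T D0 c / (∏ j, x j) ^ N) * (Matrix.of fun i j => D i (x j)).det ^ N
          = GI T (con x lam D) c * (lmat x' D).det := by
      intro D
      have h1 : con x lam D = (lmat x D).det • D0 := by
        apply der_ext x hbasis
        intro l
        rw [con_t x lam D hx0 l, Derivation.coe_smul, Pi.smul_apply, hD0, smul_eq_mul]
        ring
      have h2 : (Matrix.of fun i j => D i (x j)).det = (∏ j, x j) * (lmat x D).det := by
        rw [← Matrix.det_mul_row]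
        congr 1
        ext i j
        simp only [Matrix.of_apply, lmat]
        have := hx0 j
        field_simp
      have h3 : (lmat x D).det ^ N = (lmat x D).det ^ wtI m * (lmat x D).det := by
        rw [hN, pow_succ]
      rw [h1, GI_smul, h2, mul_pow, h3, hρ D]
      field_simp
    refine ⟨fun D hD => ?_, fun hP D hD => ?_⟩
    · unfold form
      rw [hkey, reg_iff_ge]
      have h1 := ge_GI T (E := con x lam D) hT hb' (ε := 0) (fun i => by
        have hE : ∀ z : K, z ≠ 0 → Ge P (-0) (con x lam D z / z) := fun z hz => by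
          rw [neg_zero]
          exact con_log x lam D hD z
        exact eta_log hE (hT i) (hsum i) (b' i)) (x := c) hc
      have h2 := h1.mul (ge_lmat_log x' D hD)
      refine h2.mono ?_
      rw [zero_mul, sub_zero, add_zero]
      exact Finset.sum_nonneg fun i _ => Finset.sum_nonneg fun j _ => sub_nonneg.2 (hb' i j)
    · unfold form
      rw [hkey, reg_iff_ge]
      rcases hP with ⟨hall, hx1, hx1'⟩ | ⟨i0, j0, l0, hij⟩
      · have hE := con_reg x lam D hD hx0 hx1
        have h1 := ge_GI T (E := con x lam D) hT hb' (ε := 0) (fun i => by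
          rw [zero_mul, sub_zero]
          exact eta_reg hE (hT i) (hsum i) (b' i) (fun j => hall i j _)) (x := c)
            hc
        have h2 := h1.mul (ge_lmat_reg x' hx0' hx1' D hD)
        refine h2.mono ?_
        rw [zero_mul, sub_zero, add_zero]
        exact Finset.sum_nonneg fun i _ => Finset.sum_nonneg fun j _ => sub_nonneg.2 (hb' i j)
      · have h1 := ge_GI T (E := con x lam D) hT hb' (ε := 1) (fun i => by
          have hE : ∀ z : K, z ≠ 0 → Ge P (-1) (con x lam D z / z) := fun z hz =>
            con_pole x lam D hD hx0 hz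
          exact eta_log hE (hT i) (hsum i) (b' i)) (x := c) hc
        have h2 := h1.mul (det_log D hD x' hx0')
        refine h2.mono ?_
        rw [one_mul]
        have h5 : ∃ j, (N : ℤ) ≤ P.ord (T i0 j) - P.ord (T i0 (b' i0)) := by
          have e1 := hb' i0 j0
          have e2 := hb' i0 l0
          rcases abs_cases (P.ord (T i0 j0) - P.ord (T i0 l0)) with ⟨h, -⟩ | ⟨h, -⟩
          · exact ⟨j0, by linarith⟩
          · exact ⟨l0, by linarith⟩
        obtain ⟨j1, h6⟩ := h5
        have h3 : P.ord (T i0 j1) - P.ord (T i0 (b' i0))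
            ≤ ∑ i, ∑ j, (P.ord (T i j) - P.ord (T i (b' i))) := by
          refine le_trans ?_ (Finset.single_le_sum
            (f := fun i => ∑ j, (P.ord (T i j) - P.ord (T i (b' i))))
            (fun i _ => Finset.sum_nonneg fun j _ => sub_nonneg.2 (hb' i j)) (Finset.mem_univ i0))
          exact Finset.single_le_sum (f := fun j => P.ord (T i0 j) - P.ord (T i0 (b' i0)))
            (fun j _ => sub_nonneg.2 (hb' i0 j)) (Finset.mem_univ j1)
        rw [hN] at h6
        push_cast at h6
        linarith

end Pool.Agent.TH710.ND
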