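import Pool.Agent.TH710.ND.Good
import Mathlib.Algebra.DualNumber

/-!
The constants of a derivation which kills the constant ratios of the leaves contain the ratios of
all generated families.
-/

set_option autoImplicit false

open FF MvPolynomial Pool.Agent.W603.LV Pool.Agent.W603.GR Pool.Agent.W603.GW
  Pool.Agent.W602.GT Pool.Agent.W603.GX Pool.Agent.W603.GY

namespace Pool.Agent.TH710.ND

variable {k K : Type} [Field k] [Field K] [Algebra k K]

/-- the ring homomorphism to the dual numbers given by a derivation -/
noncomputable def dphi (δ : Derivation k K K) : K →ₐ[k] DualNumber K where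
  toFun z := TrivSqZeroExt.inl z + TrivSqZeroExt.inr (δ z)
  map_one' := by
    ext
    · simp
    · simp
  map_mul' x z := by
    ext
    · simp
    · simp [mul_comm]
  map_zero' := by
    ext
    · simp
    · simp
  map_add' x z := by
    ext
    · simp
    · simp
  commutes' c := by
    ext
    · simp [TrivSqZeroExt.algebraMap_eq_inl']
    · simp [TrivSqZeroExt.algebraMap_eq_inl']

theorem dphi_snd (δ : Derivation k K K) (z : K) : (dphi δ z).snd = δ z := by
  change (TrivSqZeroExt.inl z + TrivSqZeroExt.inr (δ z) : DualNumber K).snd = δ z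
  simp

theorem dphi_fst (δ : Derivation k K K) (z : K) : (dphi δ z).fst = z := by
  change (TrivSqZeroExt.inl z + TrivSqZeroExt.inr (δ z) : DualNumber K).fst = z
  simp

instance dual_tower : IsScalarTower k K (DualNumber K) :=
  IsScalarTower.of_algebraMap_eq fun c => by
    simp [TrivSqZeroExt.algebraMap_eq_inl']

omit [Algebra k K] in
theorem amap (z : K) : algebraMap K (DualNumber K) z = TrivSqZeroExt.inl z := rfl

theorem dphi_const (δ : Derivation k K K) {z : K} (h : δ z = 0) :
    dphi δ z = algebraMap K (DualNumber K) z := by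
  rw [amap]
  ext
  · rw [dphi_fst, TrivSqZeroExt.fst_inl]
  · rw [dphi_snd, h, TrivSqZeroExt.snd_inl]

theorem const_of_dphi (δ : Derivation k K K) {z : K}
    (h : dphi δ z = algebraMap K (DualNumber K) z) : δ z = 0 := by
  have h1 := congrArg TrivSqZeroExt.snd h
  rwa [dphi_snd, amap, TrivSqZeroExt.snd_inl] at h1

theorem aeval_dphi {σ : Type} (δ : Derivation k K K) (y : σ → K) (p : MvPolynomial σ k) :
    aeval (fun j => dphi δ (y j)) p = dphi δ (aeval y p) := by
  have h1 : (dphi δ).comp (aeval y) = aeval (fun j => dphi δ (y j)) := by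
    apply MvPolynomial.algHom_ext
    intro j
    simp
  rw [← h1]
  rfl

theorem unit_dphi (δ : Derivation k K K) {z : K} (h : z ≠ 0) : IsUnit (dphi δ z) :=
  (IsUnit.mk0 z h).map (dphi δ)

/-- a ratio with the multiplication rule is a constant -/
theorem ratio_of_dphi (δ : Derivation k K K) {a b : K} (hb : b ≠ 0)
    (h : dphi δ a * algebraMap K (DualNumber K) b = algebraMap K (DualNumber K) a * dphi δ b) :
    δ (a / b) = 0 := by
  apply const_of_dphi
  have h1 : dphi δ a = dphi δ (a / b) * dphi δ b := by
    rw [← map_mul, div_mul_cancel₀ _ hb]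
  have h2 : algebraMap K (DualNumber K) a =
      algebraMap K (DualNumber K) (a / b) * algebraMap K (DualNumber K) b := by
    rw [← map_mul, div_mul_cancel₀ _ hb]
  have hu1 : IsUnit (algebraMap K (DualNumber K) b) := (IsUnit.mk0 b hb).map _
  have hu2 := unit_dphi δ hb
  rw [h1, h2] at h
  refine hu2.mul_left_injective (hu1.mul_left_injective ?_)
  linear_combination h

/-- a ratio which is multiplied out is a constant -/
theorem ratio_of_dphi' (δ : Derivation k K K) {a b : K} (hb : b ≠ 0)
    (h : dphi δ a = algebraMap K (DualNumber K) (a / b) * dphi δ b) :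
    δ (a / b) = 0 := by
  apply const_of_dphi
  have h1 : dphi δ a = dphi δ (a / b) * dphi δ b := by
    rw [← map_mul, div_mul_cancel₀ _ hb]
  rw [h1] at h
  exact (unit_dphi δ hb).mul_left_injective h

variable {σ : Type} {Bd : Place k K → Prop} {N s c : ℕ} {o : Place k K → ℤ}
  {Lf : MvPolynomial σ k → Prop} {y : σ → K} {W : IntermediateField k K}

theorem env_dphi (δ : Derivation k K K)
    (h : ∀ p q, Lf p → Lf q → aeval y p ≠ 0 → aeval y q ≠ 0 → aeval y p / aeval y q ∈ W →
      δ (aeval y p / aeval y q) = 0) : Env W Lf y (fun j => dphi δ (y j)) := by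
  constructor
  · intro p _ h0
    rw [aeval_dphi, h0, map_zero]
  · intro p q hp hq hp0 hq0 hW
    rw [aeval_dphi, aeval_dphi]
    have h1 := dphi_const δ (h p q hp hq hp0 hq0 hW)
    have h2 : dphi δ (aeval y p) = dphi δ (aeval y p / aeval y q) * dphi δ (aeval y q) := by
      rw [← map_mul, div_mul_cancel₀ _ hq0]
    rw [h2, h1, mul_right_comm, ← map_mul, div_mul_cancel₀ _ hq0]

variable [CharZero k]

/-- **The constants.** -/
theorem in_consts (hroot : Root W) (hW : ∀ c' A, Gen Bd N s c o Lf y c' A → A.In W)
    (δ : Derivation k K K)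
    (hδ : ∀ p q, Lf p → Lf q → aeval y p ≠ 0 → aeval y q ≠ 0 → aeval y p / aeval y q ∈ W →
      δ (aeval y p / aeval y q) = 0) :
    ∀ c' A, Gen Bd N s c o Lf y c' A → A.In (consts δ) := by
  have hE := env_dphi (Lf := Lf) (y := y) (W := W) δ hδ
  have hrootδ : Root (consts δ) := fun z d hd h => consts_root δ z d hd h
  intro c' A hA
  induction hA with
  | empty => exact fun i => i.elim
  | @ext c' A hA e L hL he he0 hc J T hT hTm Pr _ C hok ih =>
    have hB : Gen Bd N s c o Lf y (c' + s * s) (A.ext T hT C) :=
      Gen.ext c' A hA e L hL he he0 hc T hT hTm C hok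
    have key : ∀ (p : Pr) (a b : Fin ((C p).m + 1)),
        T ((C p).e a) / T ((C p).e b) ∈ consts δ := by
      intro p a b
      have hab : ∀ P, (A.ext T hT C).Const P → P.ord (T ((C p).e a)) = P.ord (T ((C p).e b)) :=
        fun P hP => CFam.ext_ord hP p a b
      have hWab : ∀ W' : IntermediateField k K, (A.ext T hT C).In W' →
          T ((C p).e a) / T ((C p).e b) ∈ W' := fun W' hW' => CFam.ext_mem hW' p a b
      have hWW := hWab W (hW _ _ hB)
      -- the two kinds of terms
      have hW0 := hW _ _ hA
      have hcs : ∀ ke ∈ L, 1 ≤ s → ke.1 + 1 ≤ s ∧ N ≤ ke.2 ∧ 0 < ke.2 := by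
        intro ke hke hs
        obtain ⟨h1, h2, h3⟩ := hL ke hke
        exact ⟨by omega, h2, h3⟩
      set pr := (L.map Prod.snd).prod with hpr
      -- a power term with respect to a leaf
      have hpow : ∀ (l : MvPolynomial σ k), Lf l → aeval y l ≠ 0 → 1 ≤ s →
          ∀ (κ : K) (g : MvPolynomial σ k), GateL Lf L g → aeval y g ≠ 0 → κ ≠ 0 → κ ∈ W →
          κ ∈ consts δ → (∀ P, ¬ Bd P → A.Const P → P.ord κ = 0) →
          (∀ P, ¬ Bd P → (A.ext T hT C).Const P →
            P.ord (κ * aeval y g ^ e) = ((e * pr : ℕ) : ℤ) * o P) →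
          aeval y l ^ (e * pr) / (κ * aeval y g ^ e) ∈ W →
          (κ * aeval y g ^ e) / aeval y l ^ (e * pr) ∈ consts δ := by
        intro l hl hl0 hs κ g hg hg0 hκ hκW hκδ hκo hord hlW
        have h1 := gate_bd hroot hW hE hl hl0 L (fun ke hke => hcs ke hke hs) (fun ke hke =>
          hL ke (List.mem_of_mem_tail hke)) _ _ hB hc g hg hg0 (by
            intro P hP hPB
            have h2 := hord P hP hPB
            rw [P.ord_mul hκ (pow_ne_zero _ hg0), hκo P hP (CFam.ext_const hPB), P.ord_pow,
              zero_add] at h2
            have h5 : (e : ℤ) ≠ 0 := by exact_mod_cast he0.ne'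
            apply mul_left_cancel₀ h5
            rw [h2, Nat.cast_mul, hpr]
            ring) (by
            apply hroot _ e he0
            rw [div_pow, ← pow_mul, mul_comm pr]
            have h4 : aeval y l ^ (e * pr) / aeval y g ^ e =
                (aeval y l ^ (e * pr) / (κ * aeval y g ^ e)) * κ := by
              field_simp
            rw [h4]
            exact mul_mem hlW hκW)
        rw [aeval_dphi, aeval_dphi, ← map_pow (dphi δ)] at h1
        have h2 := ratio_of_dphi' δ (pow_ne_zero _ hl0) h1
        have h3 : aeval y g / aeval y l ^ pr ∈ consts δ := h2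
        have h4 : (κ * aeval y g ^ e) / aeval y l ^ (e * pr) =
            κ * (aeval y g / aeval y l ^ pr) ^ e := by
          rw [div_pow, ← pow_mul, mul_comm pr]
          ring
        rw [h4]
        exact mul_mem hκδ (pow_mem h3 _)
      -- a boundary term with respect to a leaf
      have hbd : ∀ (l : MvPolynomial σ k), Lf l → aeval y l ≠ 0 →
          ∀ (r : ℕ) (p : MvPolynomial σ k), r + 1 ≤ s → GateL Lf ((r, e) :: L) p →
          aeval y p ≠ 0 →
          (∀ P, ¬ Bd P → A.Const P → P.ord (aeval y p) = ((e * pr : ℕ) : ℤ) * o P) →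
          aeval y l ^ (e * pr) / aeval y p ∈ W →
          aeval y p / aeval y l ^ (e * pr) ∈ consts δ := by
        intro l hl hl0 r p hr hp hp0 ho hlW
        have h1 := gate_bd hroot hW hE hl hl0 ((r, e) :: L) (by
            intro ke hke
            rcases List.mem_cons.1 hke with rfl | hke
            · exact ⟨hr, he, he0⟩
            · exact hcs ke hke (by omega)) (by rw [List.tail_cons]; exact hL) _ _ hA (by
            rw [List.length_cons]
            nlinarith) p hp hp0 (by
            rw [List.map_cons, List.prod_cons]
            exact ho) (by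
            rw [List.map_cons, List.prod_cons]
            exact hlW)
        rw [List.map_cons, List.prod_cons, aeval_dphi, aeval_dphi, ← map_pow (dphi δ)] at h1
        exact ratio_of_dphi' δ (pow_ne_zero _ hl0) h1
      -- the leaf of a boundary term
      have hlf : ∀ (r : ℕ) (p : MvPolynomial σ k), r + 1 ≤ s → GateL Lf ((r, e) :: L) p →
          aeval y p ≠ 0 →
          (∀ P, ¬ Bd P → A.Const P → P.ord (aeval y p) = ((e * pr : ℕ) : ℤ) * o P) →
          ∃ l, Lf l ∧ aeval y l ≠ 0 ∧ aeval y l ^ (e * pr) / aeval y p ∈ W := by
        intro r p hr hp hp0 ho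
        have h1 := exists_leaf hroot hW ((r, e) :: L) (by
            intro ke hke
            rcases List.mem_cons.1 hke with rfl | hke
            · exact ⟨hr, he, he0⟩
            · exact hcs ke hke (by omega)) (by rw [List.tail_cons]; exact hL) _ _ hA (by
            rw [List.length_cons]
            nlinarith) p hp hp0 (by
            rw [List.map_cons, List.prod_cons]
            exact ho)
        rw [List.map_cons, List.prod_cons] at h1
        exact h1
      rcases (hTm ((C p).e a)).cases' he0 (hT _) with
        ⟨κ, g, hg, hg0, hκ, hTa, hκo, hκW, -⟩ | ⟨r, q, hr, hq, hq0, hqo, hTa⟩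
      · rcases (hTm ((C p).e b)).cases' he0 (hT _) with
          ⟨κ', g', hg', hg0', hκ', hTb, hκo', hκW', -⟩ | ⟨r, q, hr, hq, hq0, hqo, hTb⟩
        · -- two power terms
          rw [hTa, hTb] at hab hWab hWW ⊢
          obtain ⟨-, ihp⟩ := gate_rel hroot hW hE L hL
          have hlk : Lk Bd (A.ext T hT C) (aeval y g) (aeval y g') :=
            lk_of_terms (fun P h => CFam.ext_const h) (fun W h => CFam.ext_in h) he0 hκ hκ'
              hg0 hg0' hκo hκo' hκW hκW' hab hWab
          have h1 := ihp _ _ hB hc g g' hg hg' hg0 hg0' hlk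
          rw [aeval_dphi, aeval_dphi] at h1
          have h2 : aeval y g / aeval y g' ∈ consts δ := ratio_of_dphi δ hg0' h1
          have h3 : κ * aeval y g ^ e / (κ' * aeval y g' ^ e) =
              κ * (aeval y g / aeval y g') ^ e * κ'⁻¹ := by
            rw [div_pow]
            field_simp
          rw [h3]
          exact mul_mem (mul_mem (hκW _ hrootδ ih) (pow_mem h2 _)) (inv_mem (hκW' _ hrootδ ih))
        · -- a power term and a boundary term
          rw [hTa, hTb] at hab hWW ⊢
          obtain ⟨l, hl, hl0, hlW⟩ := hlf r q hr hq hq0 hqo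
          have h1 := hbd l hl hl0 r q hr hq hq0 hqo hlW
          have h2 := hpow l hl hl0 (by omega) κ g hg hg0 hκ (hκW W hroot hW0)
            (hκW _ hrootδ ih) hκo (fun P hP hPB => by
              rw [hab P hPB, P.ord_neg, hqo P hP (CFam.ext_const hPB)]) (by
              have h4 : aeval y l ^ (e * pr) / (κ * aeval y g ^ e) =
                  -((aeval y l ^ (e * pr) / aeval y q) *
                    (κ * aeval y g ^ e / -aeval y q)⁻¹) := by
                have := pow_ne_zero e hg0
                field_simp
              rw [h4]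
              exact neg_mem (mul_mem hlW (inv_mem hWW)))
          have hl' := pow_ne_zero (e * pr) hl0
          have h3 : κ * aeval y g ^ e / -aeval y q =
              -((κ * aeval y g ^ e / aeval y l ^ (e * pr)) *
                (aeval y q / aeval y l ^ (e * pr))⁻¹) := by
            field_simp
          rw [h3]
          exact neg_mem (mul_mem h2 (inv_mem h1))
      · rcases (hTm ((C p).e b)).cases' he0 (hT _) with
          ⟨κ', g', hg', hg0', hκ', hTb, hκo', hκW', -⟩ | ⟨r', q', hr', hq', hq0', hqo', hTb⟩
        · -- a boundary term and a power term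
          rw [hTa, hTb] at hab hWW ⊢
          obtain ⟨l, hl, hl0, hlW⟩ := hlf r q hr hq hq0 hqo
          have h1 := hbd l hl hl0 r q hr hq hq0 hqo hlW
          have h2 := hpow l hl hl0 (by omega) κ' g' hg' hg0' hκ' (hκW' W hroot hW0)
            (hκW' _ hrootδ ih) hκo' (fun P hP hPB => by
              rw [← hab P hPB, P.ord_neg, hqo P hP (CFam.ext_const hPB)]) (by
              have h4 : aeval y l ^ (e * pr) / (κ' * aeval y g' ^ e) =
                  -((aeval y l ^ (e * pr) / aeval y q) *
                    (-aeval y q / (κ' * aeval y g' ^ e))) := by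
                have := pow_ne_zero e hg0'
                field_simp
              rw [h4]
              exact neg_mem (mul_mem hlW hWW))
          have hl' := pow_ne_zero (e * pr) hl0
          have hg1 := pow_ne_zero e hg0'
          have h3 : -aeval y q / (κ' * aeval y g' ^ e) =
              -((aeval y q / aeval y l ^ (e * pr)) *
                (κ' * aeval y g' ^ e / aeval y l ^ (e * pr))⁻¹) := by
            field_simp
          rw [h3]
          exact neg_mem (mul_mem h1 (inv_mem h2))
        · -- two boundary terms
          rw [hTa, hTb] at hWW ⊢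
          obtain ⟨l, hl, hl0, hlW⟩ := hlf r q hr hq hq0 hqo
          have h1 := hbd l hl hl0 r q hr hq hq0 hqo hlW
          have h2 := hbd l hl hl0 r' q' hr' hq' hq0' hqo' (by
              have h4 : aeval y l ^ (e * pr) / aeval y q' =
                  (aeval y l ^ (e * pr) / aeval y q) * (-aeval y q / -aeval y q') := by
                field_simp
              rw [h4]
              exact mul_mem hlW hWW)
          have hl' := pow_ne_zero (e * pr) hl0
          have h3 : -aeval y q / -aeval y q' =
              (aeval y q / aeval y l ^ (e * pr)) * (aeval y q' / aeval y l ^ (e * pr))⁻¹ := by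
            field_simp
          rw [h3]
          exact mul_mem h1 (inv_mem h2)
    rintro ⟨o, i⟩ a b
    cases o with
    | none => exact ih i a b
    | some p =>
      change ((C p).c a • T ((C p).e a)) / ((C p).c b • T ((C p).e b)) ∈ consts δ
      rw [mem_smul ((C p).hc _) ((C p).hc _)]
      exact key p a b

end Pool.Agent.TH710.ND
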