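import Pool.Agent.TH710.ND.Gen

/-!
Relations between nested sums of high powers are preserved by specialisations which preserve the
relations between the leaves.
-/

set_option autoImplicit false

open FF MvPolynomial Pool.Agent.W603.LV Pool.Agent.W602.GT

namespace Pool.Agent.TH710.ND

variable {k K : Type} [Field k] [Field K] [Algebra k K] {σ : Type}
  {Bd : Place k K → Prop} {N s c : ℕ} {o : Place k K → ℤ}
  {Lf : MvPolynomial σ k → Prop} {y : σ → K}

theorem mdiv {W : IntermediateField k K} {a b c : K} (hb : b ≠ 0) (h1 : a / b ∈ W)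
    (h2 : b / c ∈ W) : a / c ∈ W := by
  have h3 : a / c = (a / b) * (b / c) := by field_simp
  rw [h3]
  exact mul_mem h1 h2

theorem mdiv_symm {W : IntermediateField k K} {a b : K} (h1 : a / b ∈ W) : b / a ∈ W := by
  rw [← inv_div]
  exact inv_mem h1

theorem root_div {W : IntermediateField k K} (hW : Root W) {a b : K} {d : ℕ} (hd : 0 < d)
    (h : a ^ d / b ^ d ∈ W) : a / b ∈ W := by
  rw [← div_pow] at h
  exact hW _ d hd h

/-- the bases of two linked terms are linked -/
theorem lk_of_terms {A B : CFam k K} (hBA : ∀ P, B.Const P → A.Const P)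
    (hBW : ∀ W : IntermediateField k K, B.In W → A.In W) {κ κ' g g' : K} {e : ℕ} (he0 : 0 < e)
    (hκ : κ ≠ 0) (hκ' : κ' ≠ 0) (hg : g ≠ 0) (hg' : g' ≠ 0)
    (hκo : ∀ P, ¬ Bd P → A.Const P → P.ord κ = 0) (hκo' : ∀ P, ¬ Bd P → A.Const P → P.ord κ' = 0)
    (hκW : ∀ W : IntermediateField k K, Root W → A.In W → κ ∈ W)
    (hκW' : ∀ W : IntermediateField k K, Root W → A.In W → κ' ∈ W)
    (ho : ∀ P, B.Const P → P.ord (κ * g ^ e) = P.ord (κ' * g' ^ e))
    (hW : ∀ W : IntermediateField k K, B.In W → κ * g ^ e / (κ' * g' ^ e) ∈ W) :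
    Lk Bd B g g' := by
  refine ⟨fun P hP hPB => ?_, fun W hR hB => ?_⟩
  · have h1 := ho P hPB
    have hPA := hBA P hPB
    rw [P.ord_mul hκ (pow_ne_zero _ hg), P.ord_mul hκ' (pow_ne_zero _ hg'), P.ord_pow, P.ord_pow,
      hκo P hP hPA, hκo' P hP hPA, zero_add, zero_add] at h1
    have h2 : (e : ℤ) ≠ 0 := by exact_mod_cast he0.ne'
    exact mul_left_cancel₀ h2 h1
  · refine root_div hR he0 ?_
    have h1 : g ^ e / g' ^ e = (κ * g ^ e / (κ' * g' ^ e)) * κ' * κ⁻¹ := by
      field_simp
    rw [h1]
    exact mul_mem (mul_mem (hW W hB) (hκW' W hR (hBW W hB))) (inv_mem (hκW W hR (hBW W hB)))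

section spec

variable {M : Type} [CommRing M] [Algebra k M] [Algebra K M] [IsScalarTower k K M]

/-- what is needed on the leaves -/
structure Env (W : IntermediateField k K) (Lf : MvPolynomial σ k → Prop) (y : σ → K)
    (x : σ → M) : Prop where
  z : ∀ p, Lf p → aeval y p = 0 → aeval x p = 0
  p : ∀ p q, Lf p → Lf q → aeval y p ≠ 0 → aeval y q ≠ 0 → aeval y p / aeval y q ∈ W →
    aeval x p * algebraMap K M (aeval y q) = algebraMap K M (aeval y p) * aeval x q

variable {W : IntermediateField k K} {x : σ → M}

omit [Algebra k M] [IsScalarTower k K M] in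
theorem pow_rel {κ κ' g g' : K} {X X' : M} {e : ℕ}
    (h : X * algebraMap K M g' = algebraMap K M g * X') :
    algebraMap K M κ * X ^ e * algebraMap K M (κ' * g' ^ e) =
      algebraMap K M (κ * g ^ e) * (algebraMap K M κ' * X' ^ e) := by
  have h1 : (X * algebraMap K M g') ^ e = (algebraMap K M g * X') ^ e := by rw [h]
  rw [mul_pow, mul_pow] at h1
  rw [map_mul, map_mul, map_pow, map_pow]
  linear_combination algebraMap K M κ * algebraMap K M κ' * h1

/-- the power terms with trivial coefficients -/
theorem pow_terms {c' e : ℕ} {A : CFam k K} {L : List (ℕ × ℕ)}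
    (hA : Gen Bd N s c o Lf y c' A)
    (hL : Big N s L) (he : N ≤ e) (he0 : 0 < e) (hc : c' + s * s + L.length * (s * s) ≤ c)
    {J : Type} [Fintype J] (κ : J → K) (g : J → MvPolynomial σ k) (x : σ → M)
    (hsum : ∑ j, κ j * aeval y (g j) ^ e = 0) (hcard : Fintype.card J ≤ s)
    (hTm : ∀ j, Term Bd s o Lf y A e L (κ j * aeval y (g j) ^ e))
    (hκ : ∀ j, κ j ≠ 0 → (∀ P, ¬ Bd P → A.Const P → P.ord (κ j) = 0) ∧
      ∀ W : IntermediateField k K, Root W → A.In W → κ j ∈ W)
    (h0 : ∀ j, aeval y (g j) = 0 → aeval x (g j) = 0)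
    (hrel : ∀ B : CFam k K, Gen Bd N s c o Lf y (c' + s * s) B →
      ∀ i j, aeval y (g i) ≠ 0 → aeval y (g j) ≠ 0 → Lk Bd B (aeval y (g i)) (aeval y (g j)) →
        aeval x (g i) * algebraMap K M (aeval y (g j)) =
          algebraMap K M (aeval y (g i)) * aeval x (g j)) :
    ∑ j, algebraMap K M (κ j) * aeval x (g j) ^ e = 0 := by
  refine term_step hA hL he he0 hc (fun j => κ j * aeval y (g j) ^ e)
    (fun j => algebraMap K M (κ j) * aeval x (g j) ^ e) (fun j _ => hTm j) hsum hcard ?_ ?_
  · intro j hj
    change κ j * aeval y (g j) ^ e = 0 at hj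
    change algebraMap K M (κ j) * aeval x (g j) ^ e = 0
    rcases mul_eq_zero.1 hj with h | h
    · rw [h, map_zero, zero_mul]
    · rw [h0 j (pow_eq_zero_iff he0.ne' |>.1 h), zero_pow he0.ne', mul_zero]
  · intro B hB hBA hBW i j hi hj ho hW
    obtain ⟨h1, h2⟩ := mul_pow_ne he0 hi
    obtain ⟨h3, h4⟩ := mul_pow_ne he0 hj
    exact pow_rel (hrel B hB i j h2 h4 (lk_of_terms hBA hBW he0 h1 h3 h2 h4 (hκ i h1).1 (hκ j h3).1
      (hκ i h1).2 (hκ j h3).2 ho hW))

/-- **Gates.** -/
theorem gate_rel (hroot : Root W) (hW : ∀ c' A, Gen Bd N s c o Lf y c' A → A.In W)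
    (hE : Env W Lf y x) (L : List (ℕ × ℕ)) : Big N s L →
    (L.length * (s * s) ≤ c → ∀ p, GateL Lf L p → aeval y p = 0 → aeval x p = 0) ∧
    (∀ (c' : ℕ) (A : CFam k K), Gen Bd N s c o Lf y c' A → c' + L.length * (s * s) ≤ c →
      ∀ p q, GateL Lf L p → GateL Lf L q → aeval y p ≠ 0 → aeval y q ≠ 0 →
        Lk Bd A (aeval y p) (aeval y q) →
        aeval x p * algebraMap K M (aeval y q) = algebraMap K M (aeval y p) * aeval x q) := by
  induction L with
  | nil =>
    intro _
    exact ⟨fun _ p hp => hE.z p hp, fun c' A hA _ p q hp hq h1 h2 h3 =>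
      hE.p p q hp hq h1 h2 (h3.2 W hroot (hW c' A hA))⟩
  | cons ke L ih =>
    intro hL
    obtain ⟨hks, hN, he0⟩ := hL.head
    obtain ⟨ihz, ihp⟩ := ih hL.tail
    constructor
    · rintro hc p ⟨a, g, hg, rfl⟩ h
      rw [List.length_cons] at hc
      have hc1 : 0 + s * s + L.length * (s * s) ≤ c := by nlinarith
      have hc2 : L.length * (s * s) ≤ c := by nlinarith
      rw [aeval_sum_pow] at h ⊢
      have h1 := pow_terms (o := o) (Gen.empty (Lf := Lf)) hL.tail hN he0 hc1
        (fun i => algebraMap k K (a i)) g x h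
        (by rw [Fintype.card_fin]; omega) (fun j => Term.gate _ _ (hg j))
        (fun j hj => ⟨fun P _ _ => ord_alg P hj, fun W _ _ => W.algebraMap_mem _⟩)
        (fun j hj => ihz hc2 (g j) (hg j) hj)
        (fun B hB i j hi hj hl => ihp _ B hB (by nlinarith) (g i) (g j) (hg i) (hg j) hi hj hl)
      simp only [← IsScalarTower.algebraMap_apply] at h1
      exact h1
    · rintro c' A hA hc p q hp hq hp0 hq0 hl
      obtain ⟨a, g, hg, hpe⟩ := hp
      obtain ⟨b, g', hg', hqe⟩ := hq
      rw [List.length_cons] at hc
      have hc1 : c' + s * s + L.length * (s * s) ≤ c := by nlinarith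
      have hc2 : L.length * (s * s) ≤ c := by nlinarith
      set lam : K := aeval y p / aeval y q with hlam
      have hlam0 : lam ≠ 0 := div_ne_zero hp0 hq0
      let G : Fin ke.1 ⊕ Fin ke.1 → MvPolynomial σ k := Sum.elim g g'
      have hG : ∀ i, GateL Lf L (G i) := by
        rintro (i | i)
        · exact hg i
        · exact hg' i
      let κ : Fin ke.1 ⊕ Fin ke.1 → K :=
        Sum.elim (fun i => algebraMap k K (a i)) (fun i => -lam * algebraMap k K (b i))
      have hval : ∑ i, κ i * aeval y (G i) ^ ke.2 = aeval y p - lam * aeval y q := by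
        rw [hpe, hqe, aeval_sum_pow, aeval_sum_pow, Fintype.sum_sum_type, Finset.mul_sum,
          sub_eq_add_neg, ← Finset.sum_neg_distrib]
        congr 1
        exact Finset.sum_congr rfl fun i _ => by
          simp only [κ, G, Sum.elim_inr]; ring
      have hval' : ∑ i, algebraMap K M (κ i) * aeval x (G i) ^ ke.2 =
          aeval x p - algebraMap K M lam * aeval x q := by
        rw [hpe, hqe, aeval_sum_pow, aeval_sum_pow, Fintype.sum_sum_type, Finset.mul_sum,
          sub_eq_add_neg, ← Finset.sum_neg_distrib]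
        congr 1
        · exact Finset.sum_congr rfl fun i _ => by
            simp only [κ, G, Sum.elim_inl]
            rw [← IsScalarTower.algebraMap_apply]
        · exact Finset.sum_congr rfl fun i _ => by
            simp only [κ, G, Sum.elim_inr]
            rw [map_mul, map_neg, ← IsScalarTower.algebraMap_apply]
            ring
      have h1 := pow_terms hA hL.tail hN he0 hc1 κ G x
        (by rw [hval, hlam, div_mul_cancel₀ _ hq0, sub_self])
        (by rw [Fintype.card_sum, Fintype.card_fin]; omega)
        (by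
          rintro (i | i)
          · exact Term.gate _ _ (hg i)
          · exact Term.ratio ke.1 p q hks ⟨a, g, hg, hpe⟩ ⟨b, g', hg', hqe⟩ hp0 hq0 hl _ _ (hg' i))
        (by
          rintro (i | i) hi
          · exact ⟨fun P _ _ => ord_alg P hi, fun W _ _ => W.algebraMap_mem _⟩
          · change -lam * algebraMap k K (b i) ≠ 0 at hi
            have hb' : algebraMap k K (b i) ≠ 0 := right_ne_zero_of_mul hi
            refine ⟨fun P hP hPA => ?_, fun W hR hAW => ?_⟩
            · change P.ord (-lam * algebraMap k K (b i)) = 0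
              have hlo : P.ord lam = 0 := by
                rw [hlam, P.ord_div hp0 hq0, hl.1 P hP hPA, sub_self]
              rw [P.ord_mul (neg_ne_zero.2 hlam0) hb', P.ord_neg, hlo, ord_alg P hb', add_zero]
            · exact mul_mem (neg_mem (hl.2 W hR hAW)) (W.algebraMap_mem _))
        (fun j hj => ihz hc2 (G j) (hG j) hj)
        (fun B hB i j hi hj hl' => ihp _ B hB (by nlinarith) (G i) (G j) (hG i) (hG j) hi hj hl')
      rw [hval', sub_eq_zero, hlam] at h1
      rw [h1, mul_right_comm, ← map_mul, div_mul_cancel₀ _ hq0]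

/-- **The leaf of a boundary gate.** -/
theorem exists_leaf (hroot : Root W) (hW : ∀ c' A, Gen Bd N s c o Lf y c' A → A.In W)
    (L : List (ℕ × ℕ)) : (∀ ke ∈ L, ke.1 + 1 ≤ s ∧ N ≤ ke.2 ∧ 0 < ke.2) → Big N s L.tail →
    ∀ (c' : ℕ) (A : CFam k K), Gen Bd N s c o Lf y c' A → c' + L.length * (s * s) ≤ c →
      ∀ p, GateL Lf L p → aeval y p ≠ 0 →
        (∀ P, ¬ Bd P → A.Const P → P.ord (aeval y p) = ((L.map Prod.snd).prod : ℕ) * o P) →
        ∃ l, Lf l ∧ aeval y l ≠ 0 ∧ aeval y l ^ (L.map Prod.snd).prod / aeval y p ∈ W := by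
  induction L with
  | nil =>
    intro _ _ c' A _ _ p hp h1 _
    refine ⟨p, hp, h1, ?_⟩
    simp only [List.map_nil, List.prod_nil, pow_one]
    rw [div_self h1]
    exact one_mem _
  | cons ke L ih =>
    rintro hL1 hL c' A hA hc p hp hp0 ho
    rw [List.tail_cons] at hL
    obtain ⟨hks, hN, he0⟩ := hL1 ke List.mem_cons_self
    have hi := ih (fun x hx => hL1 x (List.mem_cons_of_mem _ hx))
      (fun x hx => hL x (List.mem_of_mem_tail hx))
    have hp' := hp
    obtain ⟨a, g, hg, hpe⟩ := hp'
    rw [List.length_cons] at hc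
    have hc1 : c' + s * s + L.length * (s * s) ≤ c := by nlinarith
    rw [List.map_cons, List.prod_cons] at ho ⊢
    let T : Option (Fin ke.1) → K := fun o => o.elim (-aeval y p)
      (fun i => algebraMap k K (a i) * aeval y (g i) ^ ke.2)
    have hTm : ∀ j, T j ≠ 0 → Term Bd s o Lf y A ke.2 L (T j) := by
      intro j _
      cases j with
      | none => exact Term.bd ke.1 p hks hp hp0 ho
      | some i => exact Term.gate _ _ (hg i)
    obtain ⟨B, i, hB, hBA, hi0, hTi, hio, hiW⟩ := exists_other hA hL hN he0 hc1 T hTm (by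
        rw [Fintype.sum_option]
        change -aeval y p + ∑ i, algebraMap k K (a i) * aeval y (g i) ^ ke.2 = 0
        rw [← aeval_sum_pow, ← hpe, neg_add_cancel]) (by
        rw [Fintype.card_option, Fintype.card_fin]
        exact hks) (j0 := none) (by
        change -aeval y p ≠ 0
        exact neg_ne_zero.2 hp0)
    cases i with
    | none => exact absurd rfl hi0
    | some i =>
      change algebraMap k K (a i) * aeval y (g i) ^ ke.2 ≠ 0 at hTi
      change ∀ P, B.Const P → P.ord (algebraMap k K (a i) * aeval y (g i) ^ ke.2) =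
        P.ord (-aeval y p) at hio
      change ∀ W : IntermediateField k K, B.In W →
        algebraMap k K (a i) * aeval y (g i) ^ ke.2 / -aeval y p ∈ W at hiW
      obtain ⟨h1, h2⟩ := mul_pow_ne he0 hTi
      obtain ⟨l, hl, hl0, hlW⟩ := hi _ B hB (by nlinarith) (g i) (hg i) h2 (by
        intro P hP hPB
        have h4 := hio P hPB
        rw [P.ord_neg, P.ord_mul h1 (pow_ne_zero _ h2), P.ord_pow, ord_alg P h1, zero_add,
          ho P hP (hBA P hPB)] at h4
        have h5 : (ke.2 : ℤ) ≠ 0 := by exact_mod_cast he0.ne'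
        apply mul_left_cancel₀ h5
        rw [h4]
        push_cast
        ring)
      refine ⟨l, hl, hl0, ?_⟩
      have h6 := hiW W (hW _ _ hB)
      have h7 : aeval y l ^ (ke.2 * (L.map Prod.snd).prod) / aeval y p =
          -((aeval y l ^ (L.map Prod.snd).prod / aeval y (g i)) ^ ke.2 *
            (algebraMap k K (a i) * aeval y (g i) ^ ke.2 / -aeval y p) *
              (algebraMap k K (a i))⁻¹) := by
        rw [div_pow, ← pow_mul, mul_comm (L.map Prod.snd).prod]
        field_simp
      rw [h7]
      exact neg_mem (mul_mem (mul_mem (pow_mem hlW _) h6) (inv_mem (W.algebraMap_mem _)))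

/-- **Gates along the boundary.** -/
theorem gate_bd (hroot : Root W) (hW : ∀ c' A, Gen Bd N s c o Lf y c' A → A.In W)
    (hE : Env W Lf y x) {l0 : MvPolynomial σ k} (hl0 : Lf l0) (hl0y : aeval y l0 ≠ 0)
    (L : List (ℕ × ℕ)) :
    (∀ ke ∈ L, ke.1 + 1 ≤ s ∧ N ≤ ke.2 ∧ 0 < ke.2) → Big N s L.tail →
    ∀ (c' : ℕ) (A : CFam k K), Gen Bd N s c o Lf y c' A → c' + L.length * (s * s) ≤ c →
      ∀ p, GateL Lf L p → aeval y p ≠ 0 →
        (∀ P, ¬ Bd P → A.Const P → P.ord (aeval y p) = ((L.map Prod.snd).prod : ℕ) * o P) →
        aeval y l0 ^ (L.map Prod.snd).prod / aeval y p ∈ W →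
        aeval x p = algebraMap K M (aeval y p / aeval y l0 ^ (L.map Prod.snd).prod) *
          aeval x l0 ^ (L.map Prod.snd).prod := by
  induction L with
  | nil =>
    intro _ _ c' A _ _ p hp h1 _ h2
    simp only [List.map_nil, List.prod_nil, pow_one] at h2 ⊢
    have h3 := hE.p l0 p hl0 hp hl0y h1 h2
    have h4 : algebraMap K M (aeval y l0) * algebraMap K M (aeval y l0)⁻¹ = 1 := by
      rw [← map_mul, mul_inv_cancel₀ hl0y, map_one]
    rw [div_eq_mul_inv, map_mul]
    linear_combination (-algebraMap K M (aeval y l0)⁻¹) * h3 - aeval x p * h4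
  | cons ke L ih =>
    rintro hL1 hL c' A hA hc p hp hp0 ho hpW
    rw [List.tail_cons] at hL
    obtain ⟨hks, hN, he0⟩ := hL1 ke List.mem_cons_self
    have hi := ih (fun x hx => hL1 x (List.mem_cons_of_mem _ hx))
      (fun x hx => hL x (List.mem_of_mem_tail hx))
    obtain ⟨ihz, ihp⟩ := gate_rel hroot hW hE L hL
    have hp' := hp
    obtain ⟨a, g, hg, hpe⟩ := hp'
    rw [List.length_cons] at hc
    have hc1 : c' + s * s + L.length * (s * s) ≤ c := by nlinarith
    have hc2 : L.length * (s * s) ≤ c := by nlinarith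
    rw [List.map_cons, List.prod_cons] at ho hpW ⊢
    set pr := (L.map Prod.snd).prod with hpr
    -- the terms
    let T : Option (Fin ke.1) → K := fun o => o.elim (-aeval y p)
      (fun i => algebraMap k K (a i) * aeval y (g i) ^ ke.2)
    set X : M := algebraMap K M (aeval y p / aeval y l0 ^ (ke.2 * pr)) *
      aeval x l0 ^ (ke.2 * pr) with hX
    let T' : Option (Fin ke.1) → M := fun o => o.elim (-X)
      (fun i => algebraMap k M (a i) * aeval x (g i) ^ ke.2)
    have hTm : ∀ j, T j ≠ 0 → Term Bd s o Lf y A ke.2 L (T j) := by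
      intro j _
      cases j with
      | none => exact Term.bd ke.1 p hks hp hp0 ho
      | some i => exact Term.gate _ _ (hg i)
    have hsmall : ∀ (B : CFam k K), Gen Bd N s c o Lf y (c' + s * s) B →
        (∀ P, B.Const P → A.Const P) →
        ∀ i : Fin ke.1, T (some i) ≠ 0 →
        (∀ P, B.Const P → P.ord (T (some i)) = P.ord (aeval y p)) →
        T (some i) / aeval y p ∈ W →
          algebraMap K M (aeval y p) * T' (some i) = algebraMap K M (T (some i)) * X := by
      intro B hB hBA i hi0 hio hiD
      change algebraMap k K (a i) * aeval y (g i) ^ ke.2 ≠ 0 at hi0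
      change ∀ P, B.Const P → P.ord (algebraMap k K (a i) * aeval y (g i) ^ ke.2) =
        P.ord (aeval y p) at hio
      change algebraMap k K (a i) * aeval y (g i) ^ ke.2 / aeval y p ∈ W at hiD
      change algebraMap K M (aeval y p) * (algebraMap k M (a i) * aeval x (g i) ^ ke.2) =
        algebraMap K M (algebraMap k K (a i) * aeval y (g i) ^ ke.2) * X
      obtain ⟨h1, h2⟩ := mul_pow_ne he0 hi0
      have h3 := hi _ B hB (by nlinarith) (g i) (hg i) h2 (by
        intro P hP hPB
        have h4 := hio P hPB
        rw [P.ord_mul h1 (pow_ne_zero _ h2), P.ord_pow, ord_alg P h1, zero_add,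
          ho P hP (hBA P hPB)] at h4
        have h5 : (ke.2 : ℤ) ≠ 0 := by exact_mod_cast he0.ne'
        apply mul_left_cancel₀ h5
        rw [h4]
        push_cast
        ring) (by
        apply hroot _ ke.2 he0
        rw [div_pow, ← pow_mul, mul_comm pr]
        have h4 : aeval y l0 ^ (ke.2 * pr) / aeval y (g i) ^ ke.2 =
            (aeval y l0 ^ (ke.2 * pr) / aeval y p) *
            (algebraMap k K (a i) * aeval y (g i) ^ ke.2 / aeval y p)⁻¹ *
              algebraMap k K (a i) := by
          field_simp
        rw [h4]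
        exact mul_mem (mul_mem hpW (inv_mem hiD)) (W.algebraMap_mem _))
      rw [h3, mul_pow, ← map_pow, ← pow_mul, mul_comm pr, div_pow, ← pow_mul, mul_comm pr, hX,
        IsScalarTower.algebraMap_apply k K M]
      have h4 : algebraMap K M (aeval y p) * (algebraMap K M (algebraMap k K (a i)) *
          algebraMap K M (aeval y (g i) ^ ke.2 / aeval y l0 ^ (ke.2 * pr))) =
          algebraMap K M (algebraMap k K (a i) * aeval y (g i) ^ ke.2) *
            algebraMap K M (aeval y p / aeval y l0 ^ (ke.2 * pr)) := by
        rw [← map_mul, ← map_mul, ← map_mul]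
        congr 1
        field_simp
      linear_combination aeval x l0 ^ (ke.2 * pr) * h4
    have h1 : ∑ i, T' i = 0 := by
      refine term_step hA hL hN he0 hc1 T T' hTm ?_ ?_ ?_ ?_
      · rw [Fintype.sum_option]
        change -aeval y p + ∑ i, algebraMap k K (a i) * aeval y (g i) ^ ke.2 = 0
        rw [← aeval_sum_pow, ← hpe, neg_add_cancel]
      · rw [Fintype.card_option, Fintype.card_fin]
        exact hks
      · intro j hj
        cases j with
        | none =>
          change -aeval y p = 0 at hj
          exact absurd (neg_eq_zero.1 hj) hp0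
        | some i =>
          change algebraMap k K (a i) * aeval y (g i) ^ ke.2 = 0 at hj
          change algebraMap k M (a i) * aeval x (g i) ^ ke.2 = 0
          rcases mul_eq_zero.1 hj with h | h
          · rw [IsScalarTower.algebraMap_apply k K M, h, map_zero, zero_mul]
          · rw [ihz hc2 (g i) (hg i) (pow_eq_zero_iff he0.ne' |>.1 h), zero_pow he0.ne', mul_zero]
      · intro B hB hBA hBW i j hi hj hoij hWij
        have hWij' := hWij W (hW _ _ hB)
        cases i with
        | none =>
          cases j with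
          | none =>
            change -X * algebraMap K M (-aeval y p) = algebraMap K M (-aeval y p) * -X
            ring
          | some j =>
            have h2 := hsmall B hB hBA j hj (fun P hP => by
              have h3 := hoij P hP
              change P.ord (-aeval y p) = P.ord (T (some j)) at h3
              rw [P.ord_neg] at h3
              exact h3.symm) (by
              change -aeval y p / T (some j) ∈ W at hWij'
              have h3 : T (some j) / aeval y p = -(-aeval y p / T (some j))⁻¹ := by
                rw [inv_div, div_neg, neg_neg]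
              rw [h3]
              exact neg_mem (inv_mem hWij'))
            change -X * algebraMap K M (T (some j)) = algebraMap K M (-aeval y p) * T' (some j)
            rw [map_neg]
            linear_combination h2
        | some i =>
          cases j with
          | none =>
            have h2 := hsmall B hB hBA i hi (fun P hP => by
              have h3 := hoij P hP
              change P.ord (T (some i)) = P.ord (-aeval y p) at h3
              rw [P.ord_neg] at h3
              exact h3) (by
              change T (some i) / -aeval y p ∈ W at hWij'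
              have h3 : T (some i) / aeval y p = -(T (some i) / -aeval y p) := by
                rw [div_neg, neg_neg]
              rw [h3]
              exact neg_mem hWij')
            change T' (some i) * algebraMap K M (-aeval y p) = algebraMap K M (T (some i)) * -X
            rw [map_neg]
            linear_combination -h2
          | some j =>
            obtain ⟨h1, h2⟩ := mul_pow_ne he0 hi
            obtain ⟨h3, h4⟩ := mul_pow_ne he0 hj
            have h5 := ihp _ B hB (by nlinarith) (g i) (g j) (hg i) (hg j) h2 h4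
              (lk_of_terms hBA hBW he0 h1 h3 h2 h4 (fun P _ _ => ord_alg P h1)
                (fun P _ _ => ord_alg P h3) (fun W _ _ => W.algebraMap_mem _)
                (fun W _ _ => W.algebraMap_mem _) hoij hWij)
            have h6 := pow_rel (κ := algebraMap k K (a i)) (κ' := algebraMap k K (a j))
              (e := ke.2) h5
            rw [← IsScalarTower.algebraMap_apply, ← IsScalarTower.algebraMap_apply] at h6
            exact h6
    rw [Fintype.sum_option] at h1
    change -X + ∑ i, algebraMap k M (a i) * aeval x (g i) ^ ke.2 = 0 at h1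
    rw [← aeval_sum_pow, ← hpe] at h1
    linear_combination h1

end spec

end Pool.Agent.TH710.ND
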