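import Pool.Agent.TH710.ND.Rel

/-!
Families of circuits generated by the relations between nested sums of high powers.
-/

set_option autoImplicit false

open FF MvPolynomial Pool.Agent.W603.LV Pool.Agent.W602.GT

namespace Pool.Agent.TH710.ND

variable {k K : Type} [Field k] [Field K] [Algebra k K]

theorem ord_alg (P : Place k K) {a : k} (h : algebraMap k K a ≠ 0) :
    P.ord (algebraMap k K a) = 0 :=
  P.ord_const fun h0 => h (by rw [h0, map_zero])

variable {σ : Type}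

/-- The gates over the leaves `Lf`. -/
def GateL (Lf : MvPolynomial σ k → Prop) : List (ℕ × ℕ) → MvPolynomial σ k → Prop
  | [], p => Lf p
  | ke :: L, p => ∃ (c : Fin ke.1 → k) (g : Fin ke.1 → MvPolynomial σ k),
      (∀ i, GateL Lf L (g i)) ∧ p = ∑ i, C (c i) * g i ^ ke.2

/-- All exponents are large compared with the bound for the number of summands. -/
def Big (N s : ℕ) (L : List (ℕ × ℕ)) : Prop := ∀ ke ∈ L, 2 * ke.1 ≤ s ∧ N ≤ ke.2 ∧ 0 < ke.2

theorem Big.tail {N s : ℕ} {ke : ℕ × ℕ} {L : List (ℕ × ℕ)} (h : Big N s (ke :: L)) :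
    Big N s L := fun x hx => h x (List.mem_cons_of_mem _ hx)

theorem Big.head {N s : ℕ} {ke : ℕ × ℕ} {L : List (ℕ × ℕ)} (h : Big N s (ke :: L)) :
    2 * ke.1 ≤ s ∧ N ≤ ke.2 ∧ 0 < ke.2 := h ke List.mem_cons_self

theorem aeval_sum_pow {M : Type} [CommRing M] [Algebra k M] {r e : ℕ} (c : Fin r → k)
    (g : Fin r → MvPolynomial σ k) (x : σ → M) :
    aeval x (∑ i, C (c i) * g i ^ e) = ∑ i, algebraMap k M (c i) * aeval x (g i) ^ e := by
  rw [map_sum]
  refine Finset.sum_congr rfl fun i _ => ?_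
  rw [map_mul, map_pow, aeval_C]

/-- Two values are linked by the family: their orders agree where the orders of the family are
constant, and their ratio lies in all fields, closed under roots, which contain the ratios of the
family. -/
def Lk (Bd : Place k K → Prop) (A : CFam k K) (x z : K) : Prop :=
  (∀ P, ¬ Bd P → A.Const P → P.ord x = P.ord z) ∧
    ∀ W : IntermediateField k K, Root W → A.In W → x / z ∈ W

/-- the terms of the relations -/
inductive Term (Bd : Place k K → Prop) (s : ℕ) (o : Place k K → ℤ)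
    (Lf : MvPolynomial σ k → Prop) (y : σ → K) (A : CFam k K) (e : ℕ) (L : List (ℕ × ℕ)) :
    K → Prop
  | gate (a : k) (g : MvPolynomial σ k) (hg : GateL Lf L g) :
      Term Bd s o Lf y A e L (algebraMap k K a * aeval y g ^ e)
  | ratio (r : ℕ) (p q : MvPolynomial σ k) (h2 : 2 * r ≤ s) (hp : GateL Lf ((r, e) :: L) p)
      (hq : GateL Lf ((r, e) :: L) q) (hp0 : aeval y p ≠ 0) (hq0 : aeval y q ≠ 0)
      (hpq : Lk Bd A (aeval y p) (aeval y q)) (a : k) (g : MvPolynomial σ k)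
      (hg : GateL Lf L g) :
      Term Bd s o Lf y A e L (-(aeval y p / aeval y q) * algebraMap k K a * aeval y g ^ e)
  | bd (r : ℕ) (p : MvPolynomial σ k) (hr : r + 1 ≤ s) (hp : GateL Lf ((r, e) :: L) p)
      (hp0 : aeval y p ≠ 0)
      (ho : ∀ P, ¬ Bd P → A.Const P → P.ord (aeval y p) =
        ((e * (L.map Prod.snd).prod : ℕ) : ℤ) * o P) :
      Term Bd s o Lf y A e L (-aeval y p)

/-- the families generated by the relations -/
inductive Gen (Bd : Place k K → Prop) (N s c : ℕ) (o : Place k K → ℤ)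
    (Lf : MvPolynomial σ k → Prop) (y : σ → K) : ℕ → CFam k K → Prop
  | empty : Gen Bd N s c o Lf y 0 (CFam.empty k K)
  | ext (c' : ℕ) (A : CFam k K) (hA : Gen Bd N s c o Lf y c' A) (e : ℕ) (L : List (ℕ × ℕ))
      (hL : Big N s L) (he : N ≤ e) (he0 : 0 < e) (hc : c' + s * s + L.length * (s * s) ≤ c)
      {J : Type} (T : J → K) (hT : ∀ j, T j ≠ 0) (hTm : ∀ j, Term Bd s o Lf y A e L (T j))
      {Pr : Type} [Fintype Pr] (C : Pr → CD k T)
      (hok : (A.ext T hT C).Ok Bd N s (c' + s * s)) :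
      Gen Bd N s c o Lf y (c' + s * s) (A.ext T hT C)

variable {Bd : Place k K → Prop} {N s c : ℕ} {o : Place k K → ℤ}
  {Lf : MvPolynomial σ k → Prop} {y : σ → K}

theorem Gen.ok {c' : ℕ} {A : CFam k K} (h : Gen Bd N s c o Lf y c' A) :
    A.Ok Bd N s c' ∧ c' ≤ c := by
  cases h with
  | empty => exact ⟨CFam.empty_ok, Nat.zero_le _⟩
  | ext c' A hA e L hL he he0 hc T hT hTm C hok => exact ⟨hok, by omega⟩

theorem mul_pow_ne {a g : K} {e : ℕ} (he : 0 < e) (h : a * g ^ e ≠ 0) : a ≠ 0 ∧ g ≠ 0 :=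
  ⟨left_ne_zero_of_mul h, fun h0 => h (by rw [h0, zero_pow he.ne', mul_zero])⟩

/-- A nonzero term is the negative of a gate of the boundary, or a power with a coefficient which is
trivial for the family. -/
theorem Term.cases' {A : CFam k K} {e : ℕ} {L : List (ℕ × ℕ)} (he0 : 0 < e) {x : K}
    (h : Term Bd s o Lf y A e L x) (hx : x ≠ 0) :
    (∃ (κ : K) (g : MvPolynomial σ k), GateL Lf L g ∧ aeval y g ≠ 0 ∧ κ ≠ 0 ∧
      x = κ * aeval y g ^ e ∧ (∀ P, ¬ Bd P → A.Const P → P.ord κ = 0) ∧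
      (∀ W : IntermediateField k K, Root W → A.In W → κ ∈ W) ∧
      ((∃ a : k, κ = algebraMap k K a) ∨
        ∃ (r : ℕ) (p q : MvPolynomial σ k) (a : k), 2 * r ≤ s ∧ GateL Lf ((r, e) :: L) p ∧
          GateL Lf ((r, e) :: L) q ∧ aeval y p ≠ 0 ∧ aeval y q ≠ 0 ∧
          Lk Bd A (aeval y p) (aeval y q) ∧ κ = -(aeval y p / aeval y q) * algebraMap k K a)) ∨
    ∃ (r : ℕ) (p : MvPolynomial σ k), r + 1 ≤ s ∧ GateL Lf ((r, e) :: L) p ∧ aeval y p ≠ 0 ∧
      (∀ P, ¬ Bd P → A.Const P → P.ord (aeval y p) =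
        ((e * (L.map Prod.snd).prod : ℕ) : ℤ) * o P) ∧ x = -aeval y p := by
  cases h with
  | gate a g hg =>
    obtain ⟨h1, h2⟩ := mul_pow_ne he0 hx
    exact Or.inl ⟨_, g, hg, h2, h1, rfl, fun P _ _ => ord_alg P h1,
      fun W _ _ => W.algebraMap_mem a, Or.inl ⟨a, rfl⟩⟩
  | ratio r p q h2 hp hq hp0 hq0 hpq a g hg =>
    obtain ⟨h1, h3⟩ := mul_pow_ne he0 hx
    refine Or.inl ⟨_, g, hg, h3, h1, rfl, fun P hP hPA => ?_, fun W hW hAW => ?_,
      Or.inr ⟨r, p, q, a, h2, hp, hq, hp0, hq0, hpq, rfl⟩⟩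
    · have ha : algebraMap k K a ≠ 0 := right_ne_zero_of_mul h1
      rw [P.ord_mul (left_ne_zero_of_mul h1) ha, P.ord_neg, P.ord_div hp0 hq0, hpq.1 P hP hPA,
        sub_self, ord_alg P ha, add_zero]
    · exact mul_mem (neg_mem (hpq.2 W hW hAW)) (W.algebraMap_mem a)
  | bd r p hr hp hp0 ho => exact Or.inr ⟨r, p, hr, hp, hp0, ho, rfl⟩

theorem Term.dvd {A : CFam k K} {e : ℕ} {L : List (ℕ × ℕ)} (he0 : 0 < e) {x : K}
    (h : Term Bd s o Lf y A e L x) (hx : x ≠ 0) {P : Place k K} (hP : ¬ Bd P)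
    (hPA : A.Const P) : (e : ℤ) ∣ P.ord x := by
  rcases h.cases' he0 hx with ⟨κ, g, -, hg0, hκ, rfl, hκo, -, -⟩ | ⟨r, p, -, -, hp0, ho, rfl⟩
  · rw [P.ord_mul hκ (pow_ne_zero _ hg0), hκo P hP hPA, P.ord_pow, zero_add]
    exact dvd_mul_right _ _
  · rw [P.ord_neg, ho P hP hPA]
    exact ⟨(L.map Prod.snd).prod * o P, by push_cast; ring⟩

/-- the classes of a relation -/
theorem classes {A : CFam k K} {c' e : ℕ} {L : List (ℕ × ℕ)} (hA : Gen Bd N s c o Lf y c' A)
    (hL : Big N s L) (he : N ≤ e) (he0 : 0 < e) (hc : c' + s * s + L.length * (s * s) ≤ c)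
    {J : Type} [Fintype J] (T : J → K) (hT : ∀ j, T j ≠ 0)
    (hTm : ∀ j, Term Bd s o Lf y A e L (T j)) (hsum : ∑ j, T j = 0)
    (hcard : Fintype.card J ≤ s) :
    ∃ (R : J → J → Prop) (B : CFam k K), Equivalence R ∧ Gen Bd N s c o Lf y (c' + s * s) B ∧
      (∀ P, B.Const P → A.Const P) ∧ (∀ W : IntermediateField k K, B.In W → A.In W) ∧
      (∀ W : IntermediateField k K, B.In W → ∀ i j, R i j → T i / T j ∈ W) ∧
      (∀ P i j, B.Const P → R i j → P.ord (T i) = P.ord (T j)) ∧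
      ∀ (j0 : J) (S : Finset J), (∀ j, j ∈ S ↔ R j0 j) → ∑ j ∈ S, T j = 0 := by
  obtain ⟨R, Pr, _, C, h1, h2, h3, h4, h5⟩ := rel_classes hA.ok.1 he T hT hsum hcard
    (fun P hP hPA i j => dvd_sub ((hTm i).dvd he0 (hT i) hP hPA)
      ((hTm j).dvd he0 (hT j) hP hPA))
  exact ⟨R, A.ext T hT C, h1, Gen.ext c' A hA e L hL he he0 hc T hT hTm C h2,
    fun P h => CFam.ext_const h, fun W h => CFam.ext_in h, h3, h4, h5⟩

section spec

variable {M : Type} [CommRing M] [Algebra K M]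

theorem class_zero {J : Type} [Fintype J] (R : J → J → Prop) (hR : Equivalence R) (T : J → K)
    (hT : ∀ j, T j ≠ 0) (T' : J → M)
    (hh : ∀ i j, R i j → T' i * algebraMap K M (T j) = algebraMap K M (T i) * T' j)
    (hcl : ∀ (j0 : J) (A : Finset J), (∀ j, j ∈ A ↔ R j0 j) → ∑ j ∈ A, T j = 0) :
    ∑ j, T' j = 0 := by
  classical
  let s : Setoid J := ⟨R, hR⟩
  rw [← Finset.sum_fiberwise Finset.univ (fun j => (Quotient.mk s j : Quotient s))]
  refine Finset.sum_eq_zero fun c _ => ?_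
  obtain ⟨j0, rfl⟩ := Quotient.exists_rep c
  have h1 : ∀ j ∈ Finset.univ.filter (fun j => (Quotient.mk s j : Quotient s) = Quotient.mk s j0),
      T' j = algebraMap K M (T j) * (algebraMap K M (T j0)⁻¹ * T' j0) := by
    intro j hj
    rw [Finset.mem_filter] at hj
    have h2 : R j j0 := Quotient.exact hj.2
    have h3 := hh j j0 h2
    have h4 : algebraMap K M (T j0) * algebraMap K M (T j0)⁻¹ = 1 := by
      rw [← map_mul, mul_inv_cancel₀ (hT j0), map_one]
    linear_combination algebraMap K M (T j0)⁻¹ * h3 - T' j * h4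
  rw [Finset.sum_congr rfl h1, ← Finset.sum_mul, ← map_sum, hcl j0 _ fun j => ?_, map_zero,
    zero_mul]
  rw [Finset.mem_filter]
  constructor
  · intro hj
    exact hR.symm (Quotient.exact hj.2)
  · intro hj
    exact ⟨Finset.mem_univ _, Quotient.sound (hR.symm hj)⟩

theorem sum_sub {R : Type} [AddCommMonoid R] {J : Type} [Fintype J] (T : J → K)
    [Fintype {j // T j ≠ 0}] (f : J → R)
    (h0 : ∀ j, T j = 0 → f j = 0) : ∑ a : {j // T j ≠ 0}, f a.1 = ∑ j, f j := by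
  classical
  rw [← Finset.sum_subtype (Finset.univ.filter fun a => T a ≠ 0) (by simp) f,
    Finset.sum_filter_of_ne]
  intro a _ ha h1
  exact ha (h0 a h1)

theorem term_step {A : CFam k K} {c' e : ℕ} {L : List (ℕ × ℕ)}
    (hA : Gen Bd N s c o Lf y c' A)
    (hL : Big N s L) (he : N ≤ e) (he0 : 0 < e) (hc : c' + s * s + L.length * (s * s) ≤ c)
    {J : Type} [Fintype J] (T : J → K) (T' : J → M)
    (hTm : ∀ j, T j ≠ 0 → Term Bd s o Lf y A e L (T j)) (hsum : ∑ j, T j = 0)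
    (hcard : Fintype.card J ≤ s) (h0 : ∀ j, T j = 0 → T' j = 0)
    (hrel : ∀ B : CFam k K, Gen Bd N s c o Lf y (c' + s * s) B → (∀ P, B.Const P → A.Const P) →
      (∀ W : IntermediateField k K, B.In W → A.In W) → ∀ i j, T i ≠ 0 → T j ≠ 0 →
        (∀ P, B.Const P → P.ord (T i) = P.ord (T j)) →
        (∀ W : IntermediateField k K, B.In W → T i / T j ∈ W) →
        T' i * algebraMap K M (T j) = algebraMap K M (T i) * T' j) : ∑ j, T' j = 0 := by
  classical
  obtain ⟨R, B, hR, hB, hBA, hBW, hRW, hRo, hRs⟩ := classes hA hL he he0 hc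
    (fun a : {j // T j ≠ 0} => T a.1) (fun a => a.2) (fun a => hTm a.1 a.2)
    ((sum_sub T T fun _ h => h).trans hsum) ((Fintype.card_subtype_le _).trans hcard)
  rw [← sum_sub T T' h0]
  exact class_zero R hR (fun a : {j // T j ≠ 0} => T a.1) (fun a => a.2) (fun a => T' a.1)
    (fun i j hij => hrel B hB hBA hBW i.1 j.1 i.2 j.2 (fun P hP => hRo P i j hP hij)
      fun W hW => hRW W hW i j hij) hRs

/-- another term in the class of a term -/
theorem exists_other {A : CFam k K} {c' e : ℕ} {L : List (ℕ × ℕ)}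
    (hA : Gen Bd N s c o Lf y c' A)
    (hL : Big N s L) (he : N ≤ e) (he0 : 0 < e) (hc : c' + s * s + L.length * (s * s) ≤ c)
    {J : Type} [Fintype J] (T : J → K)
    (hTm : ∀ j, T j ≠ 0 → Term Bd s o Lf y A e L (T j)) (hsum : ∑ j, T j = 0)
    (hcard : Fintype.card J ≤ s) {j0 : J} (hj0 : T j0 ≠ 0) :
    ∃ (B : CFam k K) (i : J), Gen Bd N s c o Lf y (c' + s * s) B ∧
      (∀ P, B.Const P → A.Const P) ∧ i ≠ j0 ∧ T i ≠ 0 ∧
      (∀ P, B.Const P → P.ord (T i) = P.ord (T j0)) ∧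
      ∀ W : IntermediateField k K, B.In W → T i / T j0 ∈ W := by
  classical
  obtain ⟨R, B, hR, hB, hBA, hBW, hRW, hRo, hRs⟩ := classes hA hL he he0 hc
    (fun a : {j // T j ≠ 0} => T a.1) (fun a => a.2) (fun a => hTm a.1 a.2)
    ((sum_sub T T fun _ h => h).trans hsum) ((Fintype.card_subtype_le _).trans hcard)
  have h1 := hRs ⟨j0, hj0⟩ (Finset.univ.filter fun j => R ⟨j0, hj0⟩ j) (by simp)
  by_contra hcon
  push Not at hcon
  have h2 : Finset.univ.filter (fun j => R ⟨j0, hj0⟩ j) = {⟨j0, hj0⟩} := by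
    ext ⟨i, hi⟩
    rw [Finset.mem_filter, Finset.mem_singleton]
    constructor
    · rintro ⟨-, hij⟩
      by_contra hne
      have hne' : i ≠ j0 := fun h => hne (Subtype.ext h)
      obtain ⟨W, hW, hn⟩ := hcon B i hB hBA hne' hi (fun P hP => hRo P _ _ hP (hR.symm hij))
      exact hn (hRW W hW _ _ (hR.symm hij))
    · intro h
      rw [h]
      exact ⟨Finset.mem_univ _, hR.refl _⟩
  rw [h2, Finset.sum_singleton] at h1
  exact hj0 h1

end spec

end Pool.Agent.TH710.ND
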