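import Pool.Agent.TH710.ND.Gate
import Pool.Agent.W603.GY.Maps

/-!
The linear spaces through the generic point of a variety given by nested sums of high powers of
linear forms.
-/

set_option autoImplicit false

open FF MvPolynomial Pool.Agent.W603.LV Pool.Agent.W603.GR Pool.Agent.W603.GW
  Pool.Agent.W602.GT Pool.Agent.W603.GX Pool.Agent.W603.GY

namespace Pool.Agent.TH710.ND

variable {k : Type} [Field k] {n : ℕ} {ι κ : Type}

/-- the linear forms -/
def IsLin (p : MvPolynomial (Fin (n + 1)) k) : Prop :=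
  ∃ a : Fin (n + 1) → k, p = ∑ j, C (a j) * X j

/-- `F` is a nested sum of high powers of linear forms: a sum of at most `s` terms `c g ^ e`,
`N ≤ e`, where the `g` are linear forms or sums of at most `s` such terms of the next level, and so
on, with at most `h + 1` levels. The numbers of summands and the exponents are the same for all
gates of one level. -/
def IsNested (s N h : ℕ) (F : MvPolynomial (Fin (n + 1)) k) : Prop :=
  ∃ (r e : ℕ) (L : List (ℕ × ℕ)) (c : Fin r → k) (g : Fin r → MvPolynomial (Fin (n + 1)) k),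
    r ≤ s ∧ N ≤ e ∧ L.length ≤ h ∧ (∀ ke ∈ L, 1 ≤ ke.1 ∧ ke.1 ≤ s ∧ N ≤ ke.2) ∧
      (∀ i, GateL IsLin L (g i)) ∧ F = ∑ i, C (c i) * g i ^ e

/-- the bound for the exponents -/
def bnd (n s h : ℕ) : ℕ := n * ((h + 1) * (2 * s * (2 * s)) * ((2 * s + 1) * tn (2 * s - 1))) + 1

theorem gate_hom {L : List (ℕ × ℕ)} : ∀ {p : MvPolynomial (Fin (n + 1)) k}, GateL IsLin L p →
    p.IsHomogeneous (L.map Prod.snd).prod := by
  induction L with
  | nil =>
    rintro p ⟨a, rfl⟩
    apply IsHomogeneous.sum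
    intro j _
    have := (isHomogeneous_C (Fin (n + 1)) (a j)).mul (isHomogeneous_X k j)
    simpa using this
  | cons ke L ih =>
    rintro p ⟨c, g, hg, rfl⟩
    apply IsHomogeneous.sum
    intro i _
    have h1 := (isHomogeneous_C (Fin (n + 1)) (c i)).mul ((ih (hg i)).pow ke.2)
    rw [zero_add] at h1
    rw [List.map_cons, List.prod_cons, mul_comm ke.2]
    exact h1

theorem IsNested.form {s N h : ℕ} {F : MvPolynomial (Fin (n + 1)) k} (hF : IsNested s N h F) :
    IsForm F := by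
  obtain ⟨r, e, L, c, g, -, -, -, -, hg, rfl⟩ := hF
  exact ⟨_, gate_hom (L := (r, e) :: L) ⟨c, g, hg, rfl⟩⟩

variable {K : Type} [Field K] [Algebra k K]

theorem aeval_lin {M : Type} [Field M] [Algebra k M] (a : Fin (n + 1) → k)
    (x : Fin (n + 1) → M) : aeval x (∑ j, C (a j) * X j : MvPolynomial (Fin (n + 1)) k) =
      lin a x := by
  unfold lin
  rw [map_sum]
  exact Finset.sum_congr rfl fun j _ => by rw [map_mul, aeval_C, aeval_X]

theorem env_of_inV {W : IntermediateField k K} {y : Fin (n + 1) → K} {M : Type} [Field M]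
    [Algebra k M] [Algebra K M] [IsScalarTower k K M] {x : Fin (n + 1) → M}
    (hx : InV (PrC W y) y x) : Env W IsLin y x := by
  constructor
  · rintro p ⟨a, rfl⟩ h
    rw [aeval_lin] at h ⊢
    exact hx.1 a h
  · rintro p q ⟨a, rfl⟩ ⟨b, rfl⟩ hp hq hW
    rw [aeval_lin] at hp hq
    rw [aeval_lin, aeval_lin] at hW
    rw [aeval_lin, aeval_lin, aeval_lin, aeval_lin]
    have h1 := hx.2 (a, b) ⟨hp, hq, hW⟩
    change lin a x = algebraMap K M (lin a y / lin b y) * lin b x at h1
    rw [h1, mul_right_comm, ← map_mul, div_mul_cancel₀ _ hq]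

/-- the order of the coordinates at the places with a centre on the variety -/
theorem exists_o {Q : κ → MvPolynomial (Fin (n + 1)) k}
    (hQ : ∀ j, (Q j).IsHomogeneous (Q j).totalDegree) {y : Fin (n + 1) → K} (hy : y ≠ 0)
    (hoff : ∀ j, val y (Q j) ≠ 0) :
    ∃ o : Place k K → ℤ, ∀ P, ¬ OffAny Q y P → ∀ j,
      P.ord (val y (Q j)) = (Q j).totalDegree * o P := by
  have h : ∀ P : Place k K, ∃ μ : ℤ, ¬ OffAny Q y P → ∀ j,
      P.ord (val y (Q j)) = (Q j).totalDegree * μ := by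
    intro P
    by_cases hP : OffAny Q y P
    · exact ⟨0, fun h => absurd hP h⟩
    · obtain ⟨μ, hμ⟩ := ord_off hQ hy hoff hP
      exact ⟨μ, fun _ => hμ⟩
  choose o ho using h
  exact ⟨o, ho⟩

/-- **The linear spaces.** -/
theorem good_of {F : ι → MvPolynomial (Fin (n + 1)) k} {Q : κ → MvPolynomial (Fin (n + 1)) k}
    {s N h : ℕ} (hF : ∀ i, IsNested s N h (F i)) (hQ : ∀ j, IsNested s N h (Q j)) (hN : 1 ≤ N)
    {y : Fin (n + 1) → K} (hmem : ∀ i, val y (F i) = 0)
    (hoff : ∀ j, val y (Q j) ≠ 0) {o : Place k K → ℤ}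
    (ho : ∀ P, ¬ OffAny Q y P → ∀ j, P.ord (val y (Q j)) = (Q j).totalDegree * o P)
    {W : IntermediateField k K} (hroot : Root W)
    (hW : ∀ c' A, Gen (OffAny Q y) N (2 * s) ((h + 1) * (2 * s * (2 * s))) o IsLin y c' A →
      A.In W) :
    ∃ lq, Good F Q y (PrC W y) lq ∧
      ∀ j, lin (lq j) y ^ (Q j).totalDegree / val y (Q j) ∈ W := by
  classical
  have hbig : ∀ {L : List (ℕ × ℕ)}, (∀ ke ∈ L, 1 ≤ ke.1 ∧ ke.1 ≤ s ∧ N ≤ ke.2) →
      Big N (2 * s) L := by
    intro L hL ke hke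
    obtain ⟨h1, h2, h3⟩ := hL ke hke
    exact ⟨by omega, h3, by omega⟩
  have hlen : ∀ {L : List (ℕ × ℕ)}, L.length ≤ h →
      0 + 2 * s * (2 * s) + L.length * (2 * s * (2 * s)) ≤ (h + 1) * (2 * s * (2 * s)) := by
    intro L hL
    nlinarith [Nat.mul_le_mul_right (2 * s * (2 * s)) hL]
  have hlen' : ∀ {L : List (ℕ × ℕ)}, L.length ≤ h →
      L.length * (2 * s * (2 * s)) ≤ (h + 1) * (2 * s * (2 * s)) := by
    intro L hL
    exact Nat.mul_le_mul_right _ (by omega)
  -- the leaves of the boundary forms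
  have hleaf : ∀ j, ∃ l : Fin (n + 1) → k, lin l y ≠ 0 ∧
      lin l y ^ (Q j).totalDegree / val y (Q j) ∈ W ∧
      ∀ (M : Type) [Field M] [Algebra k M] [Algebra K M] [IsScalarTower k K M]
        (x : Fin (n + 1) → M), InV (PrC W y) y x → val x (Q j) =
          algebraMap K M (val y (Q j) / lin l y ^ (Q j).totalDegree) *
            lin l x ^ (Q j).totalDegree := by
    intro j
    have hQ0 : Q j ≠ 0 := by
      intro h0
      apply hoff j
      rw [h0]
      unfold Pool.Agent.W602.GT.val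
      rw [map_zero]
    obtain ⟨r, e, L, c, g, hr, he, hL1, hL2, hg, hQe⟩ := hQ j
    have hgate : GateL IsLin ((r, e) :: L) (Q j) := ⟨c, g, hg, hQe⟩
    have hdeg : (Q j).totalDegree = (((r, e) :: L).map Prod.snd).prod :=
      (gate_hom hgate).totalDegree hQ0
    have hr1 : 1 ≤ r := by
      by_contra hcon
      apply hQ0
      rw [hQe]
      apply Finset.sum_eq_zero
      intro i
      exact absurd i.2 (by omega)
    have hcond : ∀ ke ∈ (r, e) :: L, ke.1 + 1 ≤ 2 * s ∧ N ≤ ke.2 ∧ 0 < ke.2 := by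
      intro ke hke
      rcases List.mem_cons.1 hke with rfl | hke
      · exact ⟨by change r + 1 ≤ 2 * s; omega, he, by change 0 < e; omega⟩
      · obtain ⟨h1, h2, h3⟩ := hL2 ke hke
        exact ⟨by omega, h3, by omega⟩
    have hord : ∀ P, ¬ OffAny Q y P → (CFam.empty k K).Const P →
        P.ord (aeval y (Q j)) = ((((r, e) :: L).map Prod.snd).prod : ℕ) * o P := by
      intro P hP _
      rw [← hdeg]
      exact ho P hP j
    have hlen1 : 0 + ((r, e) :: L).length * (2 * s * (2 * s)) ≤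
        (h + 1) * (2 * s * (2 * s)) := by
      rw [zero_add, List.length_cons]
      exact Nat.mul_le_mul_right _ (by omega)
    obtain ⟨l, ⟨a, rfl⟩, hl0, hlW⟩ := exists_leaf hroot hW ((r, e) :: L) hcond
      (by rw [List.tail_cons]; exact hbig hL2) 0 _ Gen.empty hlen1 (Q j) hgate (hoff j) hord
    refine ⟨a, by rwa [aeval_lin] at hl0, by rw [hdeg]; rwa [aeval_lin] at hlW, ?_⟩
    intro M _ _ _ _ x hx
    have h1 := gate_bd hroot hW (env_of_inV hx) ⟨a, rfl⟩ hl0 ((r, e) :: L) hcond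
      (by rw [List.tail_cons]; exact hbig hL2) 0 _ Gen.empty hlen1 (Q j) hgate (hoff j) hord hlW
    rw [aeval_lin, aeval_lin, ← hdeg] at h1
    exact h1
  choose lq hlq0 hlqW hlqv using hleaf
  refine ⟨lq, ⟨fun p hp => ⟨hp.1, hp.2.1⟩, ?_, hlq0, fun M _ _ _ _ x hx j => hlqv j M x hx⟩,
    hlqW⟩
  intro M _ _ _ _ x hx i
  obtain ⟨r, e, L, c, g, hr, he, hL1, hL2, hg, hFe⟩ := hF i
  have hE := env_of_inV hx
  obtain ⟨ihz, ihp⟩ := gate_rel hroot hW hE L (hbig hL2)
  have h1 := pow_terms (o := o) (Bd := OffAny Q y) (N := N) (Gen.empty (Lf := IsLin)) (hbig hL2)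
    he (by omega) (hlen hL1)
    (fun i => algebraMap k K (c i)) g x (by
      have h2 := hmem i
      unfold Pool.Agent.W602.GT.val at h2
      rw [hFe, aeval_sum_pow] at h2
      exact h2) (by rw [Fintype.card_fin]; omega) (fun j => Term.gate _ _ (hg j))
    (fun j hj => ⟨fun P _ _ => ord_alg P hj, fun W _ _ => W.algebraMap_mem _⟩)
    (fun j hj => ihz (hlen' hL1) (g j) (hg j) hj)
    (fun B hB i j hi hj hl => ihp _ B hB (hlen hL1) (g i) (g j) (hg i) (hg j) hi hj hl)
  simp only [← IsScalarTower.algebraMap_apply] at h1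
  unfold Pool.Agent.W602.GT.val
  rw [hFe, aeval_sum_pow]
  exact h1

end Pool.Agent.TH710.ND
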