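import Pool.Agent.TH710.ND.Fam

/-!
The decomposition of a vanishing sum into classes with constant ratios.
-/

set_option autoImplicit false

open FF Pool.Agent.W603.LV Pool.Agent.W602.GT

namespace Pool.Agent.TH710.ND

variable {k K : Type} [Field k] [Field K] [Algebra k K]

/-- the field contains the roots of its elements -/
def Root (W : IntermediateField k K) : Prop := ∀ (z : K) (d : ℕ), 0 < d → z ^ d ∈ W → z ∈ W

/-- the ratios of the members of the circuits lie in `W` -/
def CFam.In (A : CFam k K) (W : IntermediateField k K) : Prop :=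
  ∀ i a b, A.T i a / A.T i b ∈ W

/-- the extension of a family by circuits of a vanishing sum -/
noncomputable def CFam.ext (A : CFam k K) {J : Type} (T : J → K) (hT : ∀ j, T j ≠ 0) {Pr : Type}
    [Fintype Pr] (C : Pr → CD k T) : CFam k K :=
  CFam.sigma fun o : Option Pr => o.elim A fun p =>
    CFam.single (fun l => (C p).c l • T ((C p).e l))
      (fun l => smul_ne_zero ((C p).hc l) (hT _)) (C p).rel (C p).lin

section ext

variable {A : CFam k K} {J : Type} {T : J → K} {hT : ∀ j, T j ≠ 0} {Pr : Type} [Fintype Pr]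
  {C : Pr → CD k T}

theorem CFam.ext_const {P : Place k K} (h : (A.ext T hT C).Const P) : A.Const P :=
  CFam.sigma_const.1 h none

theorem CFam.ext_ord {P : Place k K} (h : (A.ext T hT C).Const P) (p : Pr)
    (a b : Fin ((C p).m + 1)) : P.ord (T ((C p).e a)) = P.ord (T ((C p).e b)) := by
  have h1 := CFam.sigma_const.1 h (some p) () a b
  change P.ord ((C p).c a • T ((C p).e a)) = P.ord ((C p).c b • T ((C p).e b)) at h1
  rwa [ord_smul' P ((C p).hc _), ord_smul' P ((C p).hc _)] at h1

theorem CFam.ext_in {W : IntermediateField k K} (h : (A.ext T hT C).In W) : A.In W :=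
  fun i a b => h ⟨none, i⟩ a b

/-- constant factors -/
theorem mem_smul {W : IntermediateField k K} {c d : k} (hc : c ≠ 0) (hd : d ≠ 0) {x z : K} :
    (c • x) / (d • z) ∈ W ↔ x / z ∈ W := by
  have hc' : algebraMap k K c ≠ 0 := by rw [Ne, map_eq_zero]; exact hc
  have hd' : algebraMap k K d ≠ 0 := by rw [Ne, map_eq_zero]; exact hd
  have h1 : (c • x) / (d • z) = algebraMap k K (c / d) * (x / z) := by
    rw [Algebra.smul_def, Algebra.smul_def, map_div₀]
    field_simp
  have h2 : x / z = algebraMap k K (d / c) * ((c • x) / (d • z)) := by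
    rw [Algebra.smul_def, Algebra.smul_def, map_div₀]
    field_simp
  constructor
  · intro h
    rw [h2]
    exact mul_mem (W.algebraMap_mem _) h
  · intro h
    rw [h1]
    exact mul_mem (W.algebraMap_mem _) h

theorem CFam.ext_mem {W : IntermediateField k K} (h : (A.ext T hT C).In W) (p : Pr)
    (a b : Fin ((C p).m + 1)) : T ((C p).e a) / T ((C p).e b) ∈ W := by
  have h1 := h ⟨some p, ()⟩ a b
  change ((C p).c a • T ((C p).e a)) / ((C p).c b • T ((C p).e b)) ∈ W at h1
  rwa [mem_smul ((C p).hc _) ((C p).hc _)] at h1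

end ext

theorem rel_classes {Bd : Place k K → Prop} {N s c' e : ℕ}
    {A : CFam k K} (hA : A.Ok Bd N s c') (he : N ≤ e) {J : Type} [Fintype J]
    (T : J → K) (hT : ∀ j, T j ≠ 0) (hsum : ∑ j, T j = 0) (hcard : Fintype.card J ≤ s)
    (hdiv : ∀ P, ¬ Bd P → A.Const P → ∀ i j, (e : ℤ) ∣ P.ord (T i) - P.ord (T j)) :
    ∃ (R : J → J → Prop) (Pr : Type) (_ : Fintype Pr) (C : Pr → CD k T), Equivalence R ∧
      (A.ext T hT C).Ok Bd N s (c' + s * s) ∧
      (∀ W : IntermediateField k K, (A.ext T hT C).In W → ∀ i j, R i j → T i / T j ∈ W) ∧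
      (∀ P i j, (A.ext T hT C).Const P → R i j → P.ord (T i) = P.ord (T j)) ∧
      ∀ (j0 : J) (S : Finset J), (∀ j, j ∈ S ↔ R j0 j) → ∑ j ∈ S, T j = 0 := by
  classical
  let R0 : J → J → Prop := fun i j => ∃ (C : CD k T) (a b : Fin (C.m + 1)),
    C.e a = i ∧ C.e b = j
  let Pr : Type := {p : J × J // R0 p.1 p.2}
  have hPr : ∀ p : Pr, R0 p.1.1 p.1.2 := fun p => p.2
  choose C a b ha hb using hPr
  have hsz : ∀ p : Pr, (C p).m + 1 ≤ s := fun p => by
    have := Fintype.card_le_of_injective _ (C p).he
    simp only [Fintype.card_fin] at this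
    exact this.trans hcard
  have hBT : ∀ P, (A.ext T hT C).Const P → ∀ (p : Pr), P.ord (T p.1.1) = P.ord (T p.1.2) := by
    intro P h p
    have h1 := CFam.ext_ord h p (a p) (b p)
    rw [ha, hb] at h1
    exact h1
  have hBok : (A.ext T hT C).Ok Bd N s (c' + s * s) := by
    refine ⟨?_, ?_, fun P hP => ?_⟩
    · unfold CFam.ext
      rw [CFam.sigma_card, Fintype.sum_option]
      refine Nat.add_le_add hA.card ?_
      have h1 : ∀ p : Pr, @Fintype.card ((some p).elim A fun p =>
          CFam.single (fun l => (C p).c l • T ((C p).e l))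
            (fun l => smul_ne_zero ((C p).hc l) (hT _)) (C p).rel (C p).lin).I
          ((some p).elim A fun p =>
          CFam.single (fun l => (C p).c l • T ((C p).e l))
            (fun l => smul_ne_zero ((C p).hc l) (hT _)) (C p).rel (C p).lin).fin = 1 :=
        fun p => rfl
      rw [Finset.sum_congr rfl fun p _ => h1 p, Finset.sum_const, Finset.card_univ, smul_eq_mul,
        mul_one]
      refine (Fintype.card_subtype_le _).trans ?_
      rw [Fintype.card_prod]
      exact Nat.mul_le_mul hcard hcard
    · rintro ⟨o, i⟩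
      cases o with
      | none => exact hA.sz i
      | some p => exact hsz p
    · rcases hA.dich P hP with hAc | hAj
      · by_cases hall : ∀ (p : Pr) (j l : Fin ((C p).m + 1)),
            P.ord ((C p).c j • T ((C p).e j)) = P.ord ((C p).c l • T ((C p).e l))
        · left
          unfold CFam.ext
          rw [CFam.sigma_const]
          intro o
          cases o with
          | none => exact hAc
          | some p => exact fun _ j l => hall p j l
        · right
          push Not at hall
          obtain ⟨p, j, l, hjl⟩ := hall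
          refine CFam.sigma_jump.2 ⟨some p, (), j, l, ?_⟩
          change (N : ℤ) ≤ |P.ord ((C p).c j • T ((C p).e j)) -
            P.ord ((C p).c l • T ((C p).e l))|
          rw [ord_smul' P ((C p).hc _), ord_smul' P ((C p).hc _)] at hjl ⊢
          have h1 := hdiv P hP hAc ((C p).e j) ((C p).e l)
          have h2 : (e : ℤ) ≤ |P.ord (T ((C p).e j)) - P.ord (T ((C p).e l))| :=
            Int.le_of_dvd (abs_pos.2 (sub_ne_zero.2 hjl)) ((dvd_abs _ _).2 h1)
          refine le_trans ?_ h2
          exact_mod_cast he
      · exact Or.inr (CFam.sigma_jump.2 ⟨none, hAj⟩)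
  have hBD : ∀ W : IntermediateField k K, (A.ext T hT C).In W → ∀ p : Pr,
      T p.1.1 / T p.1.2 ∈ W := by
    intro W hW p
    have h1 := CFam.ext_mem hW p (a p) (b p)
    rwa [ha, hb] at h1
  refine ⟨Relation.EqvGen R0, Pr, inferInstance, C, Relation.EqvGen.is_equivalence R0, hBok,
    ?_, ?_, ?_⟩
  · intro W hW i j hij
    induction hij with
    | rel i j h => exact hBD W hW ⟨(i, j), h⟩
    | refl i =>
      rw [div_self (hT i)]
      exact one_mem _
    | symm i j _ ih =>
      rw [← inv_div]
      exact inv_mem ih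
    | trans i j l _ _ ih1 ih2 =>
      have h1 : T i / T l = (T i / T j) * (T j / T l) := by
        have := hT j
        field_simp
      rw [h1]
      exact mul_mem ih1 ih2
  · intro P i j hP hij
    induction hij with
    | rel i j h => exact hBT P hP ⟨(i, j), h⟩
    | refl i => rfl
    | symm i j _ ih => exact ih.symm
    | trans i j l _ _ ih1 ih2 => exact ih1.trans ih2
  · intro j0 S hS
    have key := class_sum (k := k) T (Relation.EqvGen R0) (Relation.EqvGen.is_equivalence R0)
      (by
        intro m em hem c hc hrel hlin i j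
        exact Relation.EqvGen.rel _ _ ⟨⟨m, em, hem, c, hc, hrel, hlin⟩, i, j, rfl, rfl⟩)
      (Finset.univ.filter fun j => (fun _ : J => (1 : k)) j ≠ 0).card (fun _ => 1) le_rfl
      (by simpa using hsum) j0
    simp only [one_smul] at key
    rw [← key]
    exact Finset.sum_congr (by ext j; simp [hS]) (fun _ _ => rfl)

end Pool.Agent.TH710.ND
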